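import Mathlib

/-!
# The measure
-/

set_option autoImplicit false

namespace Pool.Agent.H96.X

/-- The measure of a closed point. -/
def Psi (p a b nx ny : ℕ) (cx cy : Bool) : ℕ ×ₗ ℕ :=
  if 0 < a ∧ 0 < b then toLex (if nx = 1 ∧ ny = 1 ∧ (a + b) % p = 1 then 10 else 4 * (nx + ny), 0)
  else if 0 < a then toLex (if cy = true then (if a = 1 then 4 * nx else 4 * nx + 6)
    else 4 * nx + 1, a)
  else if 0 < b then toLex (if cx = true then (if b = 1 then 4 * ny else 4 * ny + 6)
    else 4 * ny + 1, b)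
  else toLex (0, 0)

section Cases

variable {p a b nx ny : ℕ} {cx cy : Bool}

theorem Psi_cc (ha : 0 < a) (hb : 0 < b) : Psi p a b nx ny cx cy =
    toLex (if nx = 1 ∧ ny = 1 ∧ (a + b) % p = 1 then 10 else 4 * (nx + ny), 0) :=
  if_pos ⟨ha, hb⟩

theorem Psi_x (ha : 0 < a) (hb : ¬ 0 < b) : Psi p a b nx ny cx cy =
    toLex (if cy = true then (if a = 1 then 4 * nx else 4 * nx + 6) else 4 * nx + 1, a) := by
  rw [Psi, if_neg (c := 0 < a ∧ 0 < b) fun h => hb h.2, if_pos (c := 0 < a) ha]

theorem Psi_y (ha : ¬ 0 < a) (hb : 0 < b) : Psi p a b nx ny cx cy =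
    toLex (if cx = true then (if b = 1 then 4 * ny else 4 * ny + 6) else 4 * ny + 1, b) := by
  rw [Psi, if_neg (c := 0 < a ∧ 0 < b) fun h => ha h.1, if_neg (c := 0 < a) ha,
    if_pos (c := 0 < b) hb]

theorem Psi_0 (ha : ¬ 0 < a) (hb : ¬ 0 < b) : Psi p a b nx ny cx cy = toLex (0, 0) := by
  rw [Psi, if_neg (c := 0 < a ∧ 0 < b) fun h => ha h.1, if_neg (c := 0 < a) ha,
    if_neg (c := 0 < b) hb]

end Cases

theorem Psi_swap (p a b nx ny : ℕ) (cx cy : Bool) :
    Psi p b a ny nx cy cx = Psi p a b nx ny cx cy := by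
  by_cases ha : 0 < a <;> by_cases hb : 0 < b
  · rw [Psi_cc hb ha, Psi_cc ha hb, add_comm b a, add_comm ny nx]
    congr 2
    by_cases h : nx = 1 ∧ ny = 1 ∧ (a + b) % p = 1
    · rw [if_pos h, if_pos ⟨h.2.1, h.1, h.2.2⟩]
    · rw [if_neg h, if_neg fun h' => h ⟨h'.2.1, h'.1, h'.2.2⟩]
  · rw [Psi_y hb ha, Psi_x ha hb]
  · rw [Psi_x hb ha, Psi_y ha hb]
  · rw [Psi_0 hb ha, Psi_0 ha hb]

theorem mod_of_dvd {p n : ℕ} (hp : 2 ≤ p) (hn : 1 ≤ n) (h : p ∣ n - 1) : n % p = 1 := by
  obtain ⟨k, hk⟩ := h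
  have h1 : n = p * k + 1 := by omega
  rw [h1, Nat.mul_add_mod, Nat.mod_eq_of_lt (by omega)]

theorem Psi_T2 {p a b nx ny μ k n : ℕ} {cx cy : Bool} (hp : 2 ≤ p) (hab : 0 < a ∨ 0 < b)
    (a0 : cx = false → a = 0) (b0 : cy = false → b = 0) (hμ : 1 ≤ μ) (hμx : 0 < a → μ ≤ nx)
    (hμy : 0 < b → μ ≤ ny) (hk : k = min μ (a + b)) (hn : 0 < a + b - k → n ≤ μ + 1)
    (hn' : 0 < a + b - k → ¬ p ∣ a + b - k ∨ a = 0 ∨ b = 0 → n ≤ μ) :
    Psi p (a + b - k) 0 n 0 true false < Psi p a b nx ny cx cy := by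
  have hk1 : 1 ≤ k := by omega
  by_cases ha' : 0 < a + b - k
  · have hkμ : k = μ := by omega
    have hn2 := hn ha'
    have hn3 := hn' ha'
    have hL : Psi p (a + b - k) 0 n 0 true false = toLex (4 * n + 1, a + b - k) := by
      rw [Psi_x ha' (lt_irrefl 0), if_neg (c := false = true) (by decide)]
    rw [hL]
    by_cases ha : 0 < a <;> by_cases hb : 0 < b
    · rw [Psi_cc ha hb, Prod.Lex.toLex_lt_toLex]
      left
      show 4 * n + 1 < (if nx = 1 ∧ ny = 1 ∧ (a + b) % p = 1 then 10 else 4 * (nx + ny))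
      have h1 := hμx ha
      have h2 := hμy hb
      by_cases h3 : nx = 1 ∧ ny = 1
      · by_cases h4 : (a + b) % p = 1
        · rw [if_pos ⟨h3.1, h3.2, h4⟩]
          omega
        · rw [if_neg fun h => h4 h.2.2]
          have h5 : ¬ p ∣ a + b - k := by
            intro h6
            have h7 : k = 1 := by omega
            rw [h7] at h6
            exact h4 (mod_of_dvd hp (by omega) h6)
          have := hn3 (Or.inl h5)
          omega
      · rw [if_neg fun h => h3 ⟨h.1, h.2.1⟩]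
        omega
    · rw [Psi_x ha hb, Prod.Lex.toLex_lt_toLex]
      have h1 := hμx ha
      have h2 := hn3 (Or.inr (Or.inr (by omega)))
      show 4 * n + 1 < (if cy = true then (if a = 1 then 4 * nx else 4 * nx + 6) else 4 * nx + 1) ∨
        4 * n + 1 = (if cy = true then (if a = 1 then 4 * nx else 4 * nx + 6) else 4 * nx + 1) ∧
        a + b - k < a
      split_ifs <;> omega
    · rw [Psi_y ha hb, Prod.Lex.toLex_lt_toLex]
      have h1 := hμy hb
      have h2 := hn3 (Or.inr (Or.inl (by omega)))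
      show 4 * n + 1 < (if cx = true then (if b = 1 then 4 * ny else 4 * ny + 6) else 4 * ny + 1) ∨
        4 * n + 1 = (if cx = true then (if b = 1 then 4 * ny else 4 * ny + 6) else 4 * ny + 1) ∧
        a + b - k < b
      split_ifs <;> omega
    · omega
  · rw [Psi_0 ha' (lt_irrefl 0)]
    by_cases ha : 0 < a <;> by_cases hb : 0 < b
    · rw [Psi_cc ha hb, Prod.Lex.toLex_lt_toLex]
      left
      show 0 < (if nx = 1 ∧ ny = 1 ∧ (a + b) % p = 1 then 10 else 4 * (nx + ny))
      have h1 := hμx ha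
      split_ifs <;> omega
    · rw [Psi_x ha hb, Prod.Lex.toLex_lt_toLex]
      left
      have h1 := hμx ha
      show 0 < (if cy = true then (if a = 1 then 4 * nx else 4 * nx + 6) else 4 * nx + 1)
      split_ifs <;> omega
    · rw [Psi_y ha hb, Prod.Lex.toLex_lt_toLex]
      left
      have h1 := hμy hb
      show 0 < (if cx = true then (if b = 1 then 4 * ny else 4 * ny + 6) else 4 * ny + 1)
      split_ifs <;> omega
    · omega

theorem Psi_T1 {p a b nx ny μ k n : ℕ} {cx : Bool} (hab : 0 < a ∨ 0 < b)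
    (hμ : 1 ≤ μ) (hμx : 0 < a → μ ≤ nx)
    (hμy : 0 < b → μ ≤ ny) (hk : k = min μ (a + b)) (hn : 0 < a + b - k → n ≤ μ)
    (hex : a = 0 → 2 ≤ b → μ = 1 → ny = 2 → (b - 1 + b) % p ≠ 1) :
    Psi p (a + b - k) b n (ny - k) true true < Psi p a b nx ny cx true := by
  have hk1 : 1 ≤ k := by omega
  by_cases hb : 0 < b
  · have h2 := hμy hb
    by_cases ha' : 0 < a + b - k
    · have hkμ : k = μ := by omega
      have hn2 := hn ha'
      rw [Psi_cc ha' hb]
      by_cases ha : 0 < a
      · have h1 := hμx ha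
        rw [Psi_cc ha hb, Prod.Lex.toLex_lt_toLex]
        left
        show (if n = 1 ∧ ny - k = 1 ∧ (a + b - k + b) % p = 1 then 10 else 4 * (n + (ny - k))) <
          (if nx = 1 ∧ ny = 1 ∧ (a + b) % p = 1 then 10 else 4 * (nx + ny))
        split_ifs <;> omega
      · rw [Psi_y ha hb, Prod.Lex.toLex_lt_toLex]
        left
        show (if n = 1 ∧ ny - k = 1 ∧ (a + b - k + b) % p = 1 then 10 else 4 * (n + (ny - k))) <
          (if cx = true then (if b = 1 then 4 * ny else 4 * ny + 6) else 4 * ny + 1)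
        by_cases h3 : n = 1 ∧ ny - k = 1 ∧ (a + b - k + b) % p = 1
        · rw [if_pos h3]
          have h6 : ny ≠ 2 := by
            intro h6
            refine hex (by omega) (by omega) (by omega) h6 ?_
            have h8 : b - 1 + b = a + b - k + b := by omega
            rw [h8]
            exact h3.2.2
          split_ifs <;> omega
        · rw [if_neg h3]
          split_ifs <;> omega
    · have hz : ¬ 0 < a + b - k := by omega
      rw [Psi_y hz hb, if_pos (rfl : true = true)]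
      by_cases ha : 0 < a
      · have h1 := hμx ha
        rw [Psi_cc ha hb, Prod.Lex.toLex_lt_toLex]
        left
        show (if b = 1 then 4 * (ny - k) else 4 * (ny - k) + 6) <
          (if nx = 1 ∧ ny = 1 ∧ (a + b) % p = 1 then 10 else 4 * (nx + ny))
        split_ifs <;> omega
      · rw [Psi_y ha hb, Prod.Lex.toLex_lt_toLex]
        left
        show (if b = 1 then 4 * (ny - k) else 4 * (ny - k) + 6) <
          (if cx = true then (if b = 1 then 4 * ny else 4 * ny + 6) else 4 * ny + 1)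
        split_ifs <;> omega
  · have ha : 0 < a := by omega
    have h1 := hμx ha
    rw [Psi_x ha hb, if_pos (rfl : true = true)]
    by_cases ha' : 0 < a + b - k
    · have hn2 := hn ha'
      rw [Psi_x ha' hb, if_pos (rfl : true = true), Prod.Lex.toLex_lt_toLex]
      show (if a + b - k = 1 then 4 * n else 4 * n + 6) < (if a = 1 then 4 * nx else 4 * nx + 6) ∨
        (if a + b - k = 1 then 4 * n else 4 * n + 6) = (if a = 1 then 4 * nx else 4 * nx + 6) ∧
        a + b - k < a
      split_ifs <;> omega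
    · rw [Psi_0 ha' hb, Prod.Lex.toLex_lt_toLex]
      left
      show 0 < (if a = 1 then 4 * nx else 4 * nx + 6)
      split_ifs <;> omega

end Pool.Agent.H96.X
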