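import Pool.Agent.H96.X.Trn3
import Pool.Agent.H96.X.Psi
import Pool.Agent.H96.S.Tra2

/-!
# Charts for Artin-Schreier functions
-/

set_option autoImplicit false
set_option linter.unusedSectionVars false

namespace Pool.Agent.H96.X

open Pool.Agent.H96.S Pool.Agent.H96.VL
open scoped Pointwise

section Pb

variable {F : Type} [Field F] {A : Type} {R R' : Subring F} {cx cy : Option A} {x y w : F}

theorem Pb.swap (h : Pb R cx cy x y w) : Pb R cy cx y x w := by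
  obtain ⟨i, j, h1, h2, h3⟩ := h
  exact ⟨j, i, h2, h1, by rwa [mul_comm (y ^ j)]⟩

theorem Pb.mono (h : Pb R cx cy x y w) (hR : R ≤ R') : Pb R' cx cy x y w := by
  obtain ⟨i, j, h1, h2, h3⟩ := h
  exact ⟨i, j, h1, h2, hR h3⟩

theorem Pb.map (h : Pb R cx cy x y w) : Pb R (cx.map some) (cy.map some) x y w := by
  obtain ⟨i, j, h1, h2, h3⟩ := h
  exact ⟨i, j, fun h => h1 (map_none_iff.mp h), fun h => h2 (map_none_iff.mp h), h3⟩

theorem FinP.pb (h : Pb R cx cy x y w) : FinP R fun B => Pb B cx cy x y w := by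
  obtain ⟨i, j, h1, h2, h3⟩ := h
  exact (FinP.mem h3).mono fun B hB => ⟨i, j, h1, h2, hB⟩

end Pb

section Fl

variable {F : Type} [Field F] {A : Type} {R R' : Subring F} {cx cy : Option A} {x y m f : F}
  {Dx Dy : Derivation ℤ F F} {a b : ℕ}

theorem lv_map : lv (cx.map some) x Dx m f = lv cx x Dx m f := by
  rw [lv, lv, fl_map]

theorem LA_map : LA R x y Dx Dy (cx.map some) (cy.map some) a b f = LA R x y Dx Dy cx cy a b f := by
  rw [LA, LA, lv_map, lv_map]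

theorem LA_mono (h : R ≤ R') : LA R x y Dx Dy cx cy a b f ≤ LA R' x y Dx Dy cx cy a b f :=
  L3_mono h

theorem one_LA (ha : a = 0) (hb : b = 0) : (1 : F) ∈ LA R x y Dx Dy cx cy a b f := by
  subst ha
  subst hb
  rw [LA, L3, pow_zero, pow_zero, one_mul]
  exact mem_I3.mpr ⟨1, R.one_mem, 0, R.zero_mem, 0, R.zero_mem, by ring⟩

end Fl

/-- Charts for Artin-Schreier functions. -/
structure AC (p : ℕ) {F : Type} [Field F] (s : Finset F) {A : Type} [DecidableEq A]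
    (t : A → ValuationSubring F → F) (f : F) (G : Finset F) where
  C : Chart p s t 1 1 G ∅
  al0 : C.al = 0
  be0 : C.be = 0
  q : F
  pq : Pb C.B C.cx C.cy C.x C.y q
  a : ℕ
  b : ℕ
  a0 : C.cx = none → a = 0
  b0 : C.cy = none → b = 0
  hu : C.x ^ a * C.y ^ b * (f - q ^ p + q) ∈ C.B

namespace AC

variable {p : ℕ} {F : Type} [Field F] {s : Finset F} {A : Type} [DecidableEq A]
    {t : A → ValuationSubring F → F} {f : F} {G : Finset F}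

/-- The function. -/
def fn (K : AC p s t f G) : F := f - K.q ^ p + K.q

/-- The ideal. -/
def L (K : AC p s t f G) : AddSubgroup F :=
  LA K.C.B K.C.x K.C.y K.C.Dx K.C.Dy K.C.cx K.C.cy K.a K.b K.fn

def Good (K : AC p s t f G) : Prop := (1 : F) ∈ K.L

/-- Pointed charts. -/
structure Pd (K : AC p s t f G) (W : ValuationSubring F) (o : ℕ ×ₗ ℕ) : Prop where
  pt : Pt p W K.C.B K.C.x K.C.y
  m : ∃ m : ℕ, K.C.x ^ m ∈ K.L ∧ K.C.y ^ m ∈ K.L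
  ms : ∃ nx ny, Ms p W (vl W K.C.B) K.C.x K.C.y K.C.Dx K.C.Dy K.fn K.a K.b nx ny ∧
    Psi p K.a K.b nx ny K.C.cx.isSome K.C.cy.isSome ≤ o

end AC

section Basic

variable {p : ℕ} [hp : Fact p.Prime] {F : Type} [Field F] [CharP F p] {s : Finset F} {A : Type}
  [DecidableEq A] {t : A → ValuationSubring F → F} {f : F} {G : Finset F}
  {W W₀ W₁ : ValuationSubring F} {B : Subring F} {x y : F}

/-- Geometric charts are good. -/
theorem one_L (C : Chart p s t 1 1 G ∅) (hal : C.al = 0) (hbe : C.be = 0) : (1 : F) ∈ C.L := by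
  have h1 : (1 : F) * 1 / (C.x ^ C.al * C.y ^ C.be) = 1 := by
    rw [hal, hbe, zpow_zero, zpow_zero]; norm_num
  rw [C.mem_L]
  exact ⟨1, C.B.one_mem, 0, C.B.zero_mem, 0, C.B.zero_mem, by rw [h1]; ring⟩

/-- Points of geometric charts. -/
theorem geo_pd (C : Chart p s t 1 1 G ∅) (hal : C.al = 0) (hbe : C.be = 0)
    (h : Pt p W C.B C.x C.y) : C.Pd W C.Φ :=
  ⟨h, ⟨0, by rw [pow_zero]; exact one_L C hal hbe, by rw [pow_zero]; exact one_L C hal hbe⟩, le_rfl⟩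

namespace AC

variable (K : AC p s t f G)

theorem idl : Idl K.C.B K.L := LA_idl K.C.ec K.a0 K.b0 K.hu

/-- Exchange of the coordinates. -/
def swap : AC p s t f G where
  C := K.C.swap
  al0 := K.be0
  be0 := K.al0
  q := K.q
  pq := Pb.swap K.pq
  a := K.b
  b := K.a
  a0 := K.b0
  b0 := K.a0
  hu := by
    have h1 : K.C.swap.x ^ K.b * K.C.swap.y ^ K.a = K.C.x ^ K.a * K.C.y ^ K.b := mul_comm _ _
    rw [h1]
    exact K.hu

theorem L_swap : K.swap.L = K.L := LA_swap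

theorem good_swap (h : K.Good) : K.swap.Good := by
  rw [Good, L_swap]; exact h

theorem Pd.swap {K : AC p s t f G} {o : ℕ ×ₗ ℕ} (h : K.Pd W o) : K.swap.Pd W o := by
  refine ⟨h.pt.swap, ?_, ?_⟩
  · obtain ⟨m, h1, h2⟩ := h.m
    refine ⟨m, ?_, ?_⟩
    · rw [L_swap]; exact h2
    · rw [L_swap]; exact h1
  · obtain ⟨nx, ny, h1, h2⟩ := h.ms
    exact ⟨ny, nx, h1.swap, by rw [← Psi_swap] at h2; exact h2⟩

theorem Pd.mono {K : AC p s t f G} {o o' : ℕ ×ₗ ℕ} (h : K.Pd W o) (ho : o ≤ o') : K.Pd W o' := by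
  obtain ⟨nx, ny, h1, h2⟩ := h.ms
  exact ⟨h.pt, h.m, nx, ny, h1, h2.trans ho⟩

theorem Pd.geo {K : AC p s t f G} {o : ℕ ×ₗ ℕ} (h : K.Pd W o) : K.C.Pd W K.C.Φ :=
  geo_pd K.C K.al0 K.be0 h.pt

/-- Localization. -/
def shrink {d : F} (hd : d ∈ K.C.B) (hd0 : d ≠ 0) (hs : ∃ g ∈ s, g ≠ 0) : AC p s t f G where
  C := K.C.shrink hd hd0 hs
  al0 := K.al0
  be0 := K.be0
  q := K.q
  pq := Pb.mono K.pq le_adj
  a := K.a
  b := K.b
  a0 := K.a0
  b0 := K.b0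
  hu := le_adj K.hu

section

variable {d : F} (hd : d ∈ K.C.B) (hd0 : d ≠ 0) (hs : ∃ g ∈ s, g ≠ 0)

theorem L_shrink : K.L ≤ (K.shrink hd hd0 hs).L := LA_mono le_adj

theorem vle_shrink : Vle W (K.shrink hd hd0 hs).C.B ↔ Vle W K.C.B ∧ W.valuation d = 1 :=
  vle_adj_inv hd hd0

theorem good_of_mem (h : d ∈ K.L) : (K.shrink hd hd0 hs).Good := by
  have h1 := (K.shrink hd hd0 hs).idl.mul d⁻¹ mem_adj d (K.L_shrink hd hd0 hs h)
  rwa [inv_mul_cancel₀ hd0] at h1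

end

/-- The charts away from the points of the pointed charts. -/
theorem exists_good_of (hs : ∀ g ∈ s, g ≠ 0) {o : ℕ ×ₗ ℕ} (h : K.Pd W₁ o)
    (hW : Vle W K.C.B) (hxy : ¬ (W.valuation K.C.x < 1 ∧ W.valuation K.C.y < 1)) :
    ∃ K' : AC p s t f G, Vle W K'.C.B ∧ K'.Good := by
  obtain ⟨m, hm1, hm2⟩ := h.m
  have hne : ∃ g ∈ s, g ≠ 0 := ⟨K.C.g, K.C.hg, hs _ K.C.hg⟩
  by_cases h1 : W.valuation K.C.x < 1
  · have h2 : W.valuation K.C.y = 1 :=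
      le_antisymm (hW _ K.C.ec.hy) (not_lt.mp fun h3 => hxy ⟨h1, h3⟩)
    exact ⟨K.shrink (K.C.B.pow_mem K.C.ec.hy m) (pow_ne_zero _ K.C.ec.y0) hne,
      (K.vle_shrink _ _ _).mpr ⟨hW, by rw [map_pow, h2, one_pow]⟩, K.good_of_mem _ _ _ hm2⟩
  · have h2 : W.valuation K.C.x = 1 := le_antisymm (hW _ K.C.ec.hx) (not_lt.mp h1)
    exact ⟨K.shrink (K.C.B.pow_mem K.C.ec.hx m) (pow_ne_zero _ K.C.ec.x0) hne,
      (K.vle_shrink _ _ _).mpr ⟨hW, by rw [map_pow, h2, one_pow]⟩, K.good_of_mem _ _ _ hm1⟩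

theorem Pd.centred {K : AC p s t f G} {o : ℕ ×ₗ ℕ} (h : K.Pd W₀ o) (hs : ∀ g ∈ s, g ≠ 0)
    (hW : Vle W K.C.B) (hx : W.valuation K.C.x < 1) (hy : W.valuation K.C.y < 1) :
    Lc s W = Lc s W₀ := h.geo.centred hs hW hx hy

end AC

end Basic

section Rc

variable {p : ℕ} [hp : Fact p.Prime] {F : Type} [Field F] [CharP F p] [DecidableEq F] {s : Finset F}
  {A : Type} [DecidableEq A] {t : A → ValuationSubring F → F} {f : F} {G : Finset F}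
  {W W₀ W₁ : ValuationSubring F} {c : Finset F} {N : ℕ} {x₀ y₀ : F} {cx₀ cy₀ : Option A}

/-- The chart of the blowing up away from the centre. -/
def AC.rc (K : AC p s t f G) (hs : ∀ g ∈ s, g ≠ 0) (hcn : Cn s W₀ c N)
    {d a : F} (hd : d ∈ K.C.B) (hd0 : d ≠ 0) (ha : a ∈ c) (ha0 : a ≠ 0)
    (hca : ∀ a' ∈ c, a' / a ∈ adj K.C.B d⁻¹)
    (hN : K.C.g ^ N / a ∈ adj K.C.B d⁻¹) : AC p (s * c) (tb t s W₀ x₀ y₀ cx₀ cy₀) f G where
  C := K.C.rc hs hcn hd hd0 ha ha0 hca hN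
  al0 := K.al0
  be0 := K.be0
  q := K.q
  pq := Pb.map (Pb.mono K.pq le_adj)
  a := K.a
  b := K.b
  a0 := fun h => K.a0 (map_none_iff.mp h)
  b0 := fun h => K.b0 (map_none_iff.mp h)
  hu := le_adj K.hu

section

variable (K : AC p s t f G) (hs : ∀ g ∈ s, g ≠ 0) (hcn : Cn s W₀ c N)
    {d a : F} (hd : d ∈ K.C.B) (hd0 : d ≠ 0) (ha : a ∈ c) (ha0 : a ≠ 0)
    (hca : ∀ a' ∈ c, a' / a ∈ adj K.C.B d⁻¹)
    (hN : K.C.g ^ N / a ∈ adj K.C.B d⁻¹)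

theorem AC.L_rc : K.L ≤ (K.rc (x₀ := x₀) (y₀ := y₀) (cx₀ := cx₀) (cy₀ := cy₀) hs hcn hd hd0 ha ha0
    hca hN).L := by
  have h1 : (K.rc (x₀ := x₀) (y₀ := y₀) (cx₀ := cx₀) (cy₀ := cy₀) hs hcn hd hd0 ha ha0 hca hN).L =
      LA (adj K.C.B d⁻¹) K.C.x K.C.y K.C.Dx K.C.Dy (K.C.cx.map some) (K.C.cy.map some) K.a K.b
        K.fn := rfl
  rw [h1, LA_map]
  exact LA_mono le_adj

theorem AC.Pd.rc {K : AC p s t f G} {hd : d ∈ K.C.B}
    {hca : ∀ a' ∈ c, a' / a ∈ adj K.C.B d⁻¹} {hN : K.C.g ^ N / a ∈ adj K.C.B d⁻¹} {o : ℕ ×ₗ ℕ}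
    (h : K.Pd W₁ o) (hd1 : W₁.valuation d = 1) :
    (K.rc (x₀ := x₀) (y₀ := y₀) (cx₀ := cx₀) (cy₀ := cy₀) hs hcn hd hd0 ha ha0 hca hN).Pd W₁ o := by
  refine ⟨h.pt.adj_inv hd hd1, ?_, ?_⟩
  · obtain ⟨m, h1, h2⟩ := h.m
    exact ⟨m, K.L_rc hs hcn hd hd0 ha ha0 hca hN h1, K.L_rc hs hcn hd hd0 ha ha0 hca hN h2⟩
  · obtain ⟨nx, ny, h1, h2⟩ := h.ms
    have h3 : vl W₁ (adj K.C.B d⁻¹) = vl W₁ K.C.B := vl_adj_inv h.pt.le hd hd1
    refine ⟨nx, ny, ?_, ?_⟩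
    · show Ms p W₁ (vl W₁ (adj K.C.B d⁻¹)) K.C.x K.C.y K.C.Dx K.C.Dy K.fn K.a K.b nx ny
      rw [h3]
      exact h1
    · show Psi p K.a K.b nx ny (K.C.cx.map some).isSome (K.C.cy.map some).isSome ≤ o
      rw [Option.isSome_map, Option.isSome_map]
      exact h2

end

/-- The charts of the blowing up away from the centre. -/
theorem AC.exists_rc (K : AC p s t f G) (hs : ∀ g ∈ s, g ≠ 0) (hcn : Cn s W₀ c N)
    (hW : Vle W K.C.B) (hne : Lc s W ≠ Lc s W₀) :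
    ∃ K' : AC p (s * c) (tb t s W₀ x₀ y₀ cx₀ cy₀) f G, Vle W K'.C.B ∧
      (K.Good → K'.Good) ∧
      ∃ d ∈ K.C.B, W.valuation d = 1 ∧
        (∀ W', Vle W' K.C.B → W'.valuation d = 1 → Vle W' K'.C.B) ∧
        ∀ W' o, W'.valuation d = 1 → K.Pd W' o → K'.Pd W' o := by
  have hg0 := hs _ K.C.hg
  obtain ⟨h1, -⟩ := hcn W K.C.g K.C.hg ((vle_As hg0).mp (hW.mono K.C.hAs))
  have hG := h1 hne
  have hne' : ∃ g ∈ s, g ≠ 0 := ⟨K.C.g, K.C.hg, hg0⟩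
  have hloc := (lst_Lc hne' W).loc
  obtain ⟨a, ha, ha0, hva, hTa⟩ := hG.exists_eq hloc
  have hG' := hG.of_max hloc ha fun a' ha' => by rw [hva]; exact hG.val_le hloc ha'
  rw [K.C.Lc_eq hs hW] at hG' hTa
  obtain ⟨d, hd, hd1, h2⟩ := exists_den hW (insert (K.C.g ^ N / a) (c.image (· / a))) (by
    intro e he
    rcases Finset.mem_insert.mp he with rfl | he
    · exact hTa
    · obtain ⟨a', ha', rfl⟩ := Finset.mem_image.mp he
      exact hG'.mem a' ha')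
  have hd0 : d ≠ 0 := by
    rintro rfl
    rw [map_zero] at hd1
    exact zero_ne_one hd1
  have hca : ∀ a' ∈ c, a' / a ∈ adj K.C.B d⁻¹ := fun a' ha' =>
    adj_inv_of hd0 (h2 _ (Finset.mem_insert_of_mem (Finset.mem_image.mpr ⟨a', ha', rfl⟩)))
  have hN : K.C.g ^ N / a ∈ adj K.C.B d⁻¹ := adj_inv_of hd0 (h2 _ (Finset.mem_insert_self _ _))
  refine ⟨K.rc hs hcn hd hd0 ha ha0 hca hN, (vle_adj_inv hd hd0).mpr ⟨hW, hd1⟩, fun h =>
    K.L_rc hs hcn hd hd0 ha ha0 hca hN h, d, hd, hd1, fun W' hW' hd' =>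
    (vle_adj_inv hd hd0).mpr ⟨hW', hd'⟩, fun W' n hd' hPd => hPd.rc hs hcn hd0 ha ha0 hd'⟩

end Rc

section Mk

variable {p : ℕ} [hp : Fact p.Prime] {F : Type} [Field F] [CharP F p] {s : Finset F}
  {A : Type} [DecidableEq A] {t : A → ValuationSubring F → F} {f : F} {G : Finset F}
  {W W' : ValuationSubring F}

/-- **Construction of pointed charts.** -/
theorem exists_ac (hs : ∀ g ∈ s, g ≠ 0) (C : Chart p s t 1 1 G ∅) (hal : C.al = 0) (hbe : C.be = 0)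
    (hW : Gz W W' C.B) (hpt : Pt p W' C.B C.x C.y) {q : F}
    (hq : Pb (vl W' C.B) C.cx C.cy C.x C.y q) {a b nx ny : ℕ} (a0 : C.cx = none → a = 0)
    (b0 : C.cy = none → b = 0)
    (hms : Ms p W' (vl W' C.B) C.x C.y C.Dx C.Dy (f - q ^ p + q) a b nx ny) :
    ∃ K : AC p s t f G, Vle W K.C.B ∧
      K.Pd W' (Psi p a b nx ny C.cx.isSome C.cy.isSome) := by
  classical
  obtain ⟨m, hm1, hm2⟩ := hms.pow_mem (cx := C.cx) (cy := C.cy) a0 b0
  have hne : ∃ g ∈ s, g ≠ 0 := ⟨C.g, C.hg, hs _ C.hg⟩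
  obtain ⟨E, hE, hall⟩ := (FinP.pb hq).and ((FinP.mem hms.hu).and
    ((FinP.l3 hm1).and (FinP.l3 hm2)))
  obtain ⟨d, hd, hd1, hden⟩ := exists_den hW.le' E hE
  have hd0 : d ≠ 0 := ne_of_one hd1
  obtain ⟨h1, h2, h3, h4⟩ := hall (adj C.B d⁻¹) fun e he => adj_inv_of hd0 (hden e he)
  let K : AC p s t f G :=
    { C := C.shrink hd hd0 hne
      al0 := hal
      be0 := hbe
      q := q
      pq := h1
      a := a
      b := b
      a0 := a0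
      b0 := b0
      hu := h2 }
  refine ⟨K, (hW.adj hd hd1).le, hpt.adj_inv hd hd1, ⟨m, h3, h4⟩, nx, ny, ?_, le_rfl⟩
  show Ms p W' (vl W' (adj C.B d⁻¹)) C.x C.y C.Dx C.Dy (f - q ^ p + q) a b nx ny
  rw [vl_adj_inv hW.le' hd hd1]
  exact hms

end Mk

end Pool.Agent.H96.X
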