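import Pool.Agent.H96.S.Lr

/-!
# Best forms
-/

set_option autoImplicit false
set_option linter.unusedSectionVars false

namespace Pool.Agent.H96.X

open Pool.Agent.H96.S Pool.Agent.H96.VL

section Pr

variable {p : ℕ} [hp : Fact p.Prime] {F : Type} [Field F] [CharP F p] {B : Subring F} {x y : F}
  {Dx Dy : Derivation ℤ F F}

theorem th_pow_const_mul (x : F) (D : Derivation ℤ F F) {c : F} (hc : D c = 0) (w : F) (n : ℕ) :
    (th x D ^ n) (c * w) = c * (th x D ^ n) w := by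
  induction n with
  | zero => rfl
  | succ n ih =>
    rw [pow_succ', Module.End.mul_apply, ih, th_const_mul x D hc]
    rfl

theorem pr_apply (w : F) : pr p x y Dx Dy w = w - (th y Dy ^ (p - 1)) w -
    (th x Dx ^ (p - 1)) (w - (th y Dy ^ (p - 1)) w) := rfl

theorem pr_pow_mul (c w : F) : pr p x y Dx Dy (c ^ p * w) = c ^ p * pr p x y Dx Dy w := by
  rw [pr_apply, pr_apply, th_pow_const_mul y Dy (der_pow Dy c), ← mul_sub,
    th_pow_const_mul x Dx (der_pow Dx c)]
  ring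

/-- Equality of casts. -/
theorem cast_pow_eq (i j : ℕ) (h : (i : F) = (j : F)) : (i : F) ^ (p - 1) = (j : F) ^ (p - 1) := by
  rw [h]

variable (h : EC p B x y Dx Dy)

include h

theorem pr_top (w : F) : ∃ c, pr p x y Dx Dy w = c ^ p := by
  obtain ⟨c, -, hc⟩ := h.top.pr_mem (b := w) trivial
  exact ⟨c, hc⟩

theorem pr_pr (w : F) {c : F} (hc : pr p x y Dx Dy w = c ^ p) :
    pr p x y Dx Dy (w - c ^ p) = 0 := by
  rw [map_sub, hc, h.pr_pow, sub_self]

theorem mul_zpow_x (i j : ℤ) : Mul B (x ^ i * y ^ j) (x * Dx (x ^ i * y ^ j)) := by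
  refine ⟨(i : F), intCast_mem _ _, ?_⟩
  have hx0 := h.x0
  have h2 : Dx (y ^ j) = 0 := by
    rw [Derivation.leibniz_zpow, h.xy, smul_zero, smul_zero]
  rw [Derivation.leibniz, h2, Derivation.leibniz_zpow, h.xx, smul_zero, zero_add,
    smul_eq_mul, smul_eq_mul, zsmul_eq_mul, mul_one, zpow_sub_one₀ hx0]
  field_simp

theorem mul_zpow_y (i j : ℤ) : Mul B (x ^ i * y ^ j) (y * Dy (x ^ i * y ^ j)) := by
  have h1 := mul_zpow_x h.swap j i
  rwa [mul_comm] at h1

theorem pr_mul {i j : ℤ} {w : F} (hw : Mul B (x ^ i * y ^ j) w) :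
    Mul B (x ^ i * y ^ j) (pr p x y Dx Dy w) := by
  have hx := mul_zpow_x h i j
  have hy := mul_zpow_y h i j
  have h1 : Mul B (x ^ i * y ^ j) (w - (th y Dy ^ (p - 1)) w) :=
    hw.sub (h.th_pow_mul h.hy h.dy hy hw _)
  rw [pr_apply]
  exact h1.sub (h.th_pow_mul h.hx h.dx hx h1 _)

theorem pr_mem' {w : F} (hw : w ∈ B) : pr p x y Dx Dy w ∈ B := by
  obtain ⟨c, hc, h1⟩ := h.pr_mem hw
  rw [h1]
  exact B.pow_mem hc p

/-- The projection is the identity modulo the coordinates. -/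
theorem pr_sub {w : F} (hw : w ∈ B) : ∃ r ∈ B, ∃ r' ∈ B,
    pr p x y Dx Dy w = w - x * r - y * r' := by
  have hp2 := hp.out.two_le
  obtain ⟨q, hq⟩ : ∃ q, p - 1 = q + 1 := ⟨p - 2, by omega⟩
  have hth : ∀ {t : F} {D : Derivation ℤ F F} {v : F}, t ∈ B → (∀ b ∈ B, D b ∈ B) → v ∈ B →
      ∀ n : ℕ, (th t D ^ n) v ∈ B := by
    intro t D v ht hD hv n
    induction n with
    | zero => exact hv
    | succ n ih =>
      rw [pow_succ', Module.End.mul_apply]
      exact B.mul_mem ht (hD _ ih)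
  have hth' : ∀ {t : F} {D : Derivation ℤ F F} {v : F}, t ∈ B → (∀ b ∈ B, D b ∈ B) → v ∈ B →
      ∃ r ∈ B, (th t D ^ (p - 1)) v = t * r := by
    intro t D v ht hD hv
    refine ⟨D ((th t D ^ q) v), hD _ (hth ht hD hv q), ?_⟩
    rw [hq, pow_succ', Module.End.mul_apply]
    rfl
  obtain ⟨r', hr', h1⟩ := hth' h.hy h.dy hw
  have h2 : w - (th y Dy ^ (p - 1)) w ∈ B := B.sub_mem hw (hth h.hy h.dy hw _)
  obtain ⟨r, hr, h3⟩ := hth' h.hx h.dx h2
  refine ⟨r, hr, r', hr', ?_⟩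
  rw [pr_apply, h3, h1]
  ring

/-- Roots of projections. -/
theorem pr_root {i j : ℕ} {w : F} (hw : x ^ i * y ^ j * w ∈ B) :
    ∃ c, x ^ (i / p) * y ^ (j / p) * c ∈ B ∧ pr p x y Dx Dy w = c ^ p := by
  have hx0 := h.x0
  have hy0 := h.y0
  have hp0 := hp.out.pos
  obtain ⟨c, hc⟩ := pr_top h w
  refine ⟨c, ?_, hc⟩
  obtain ⟨v, hv, h1⟩ := pr_mul h (i := -(i : ℤ)) (j := -(j : ℤ)) (w := w)
    ⟨x ^ i * y ^ j * w, hw, by rw [zpow_neg, zpow_neg, zpow_natCast, zpow_natCast]; field_simp⟩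
  rw [hc] at h1
  refine h.root (i := i % p) (j := j % p) (Nat.mod_lt _ hp0) (Nat.mod_lt _ hp0) ?_
  have h2 : x ^ (i % p) * y ^ (j % p) * (x ^ (i / p) * y ^ (j / p) * c) ^ p =
      x ^ i * y ^ j * c ^ p := by
    have e1 : x ^ i = x ^ (i % p) * (x ^ (i / p)) ^ p := by
      rw [← pow_mul, ← pow_add, mul_comm (i / p), Nat.mod_add_div]
    have e2 : y ^ j = y ^ (j % p) * (y ^ (j / p)) ^ p := by
      rw [← pow_mul, ← pow_add, mul_comm (j / p), Nat.mod_add_div]
    rw [e1, e2]; ring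
  rw [h2, h1, zpow_neg, zpow_neg, zpow_natCast, zpow_natCast]
  have h3 : x ^ i * y ^ j * ((x ^ i)⁻¹ * (y ^ j)⁻¹ * v) = v := by field_simp
  rw [h3]
  exact hv

/-- **Best forms exist.** -/
theorem exists_best (n : ℕ) : ∀ (i j : ℕ) (w : F), i + j ≤ n → x ^ i * y ^ j * w ∈ B →
    ∃ r, x ^ (i / p) * y ^ (j / p) * r ∈ B ∧ ∃ c ∈ B,
      pr p x y Dx Dy (w - r ^ p + r) = c ^ p := by
  have hp2 := hp.out.two_le
  induction n with
  | zero =>
    intro i j w hij hw
    obtain rfl : i = 0 := by omega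
    obtain rfl : j = 0 := by omega
    rw [pow_zero, pow_zero, one_mul, one_mul] at hw
    obtain ⟨c, hc, h1⟩ := h.pr_mem hw
    refine ⟨0, by rw [mul_zero]; exact B.zero_mem, c, hc, ?_⟩
    rw [zero_pow hp.out.ne_zero, sub_zero, add_zero]
    exact h1
  | succ n ih =>
    intro i j w hij hw
    by_cases h0 : i + j ≤ n
    · exact ih i j w h0 hw
    obtain ⟨r₁, hr₁, h1⟩ := pr_root h hw
    have hi : i / p ≤ i := Nat.div_le_self _ _
    have hj : j / p ≤ j := Nat.div_le_self _ _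
    have hlt : i / p + j / p ≤ n := by
      rcases Nat.eq_zero_or_pos i with h2 | h2
      · have h3 : j / p < j := Nat.div_lt_self (by omega) hp2
        omega
      · have h3 : i / p < i := Nat.div_lt_self h2 hp2
        omega
    obtain ⟨r₂, hr₂, c, hc, h2⟩ := ih _ _ r₁ hlt hr₁
    refine ⟨r₁ + r₂, ?_, c, hc, ?_⟩
    · rw [mul_add]
      refine B.add_mem hr₁ ?_
      have h3 : i / p / p ≤ i / p := Nat.div_le_self _ _
      have h4 : j / p / p ≤ j / p := Nat.div_le_self _ _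
      have h5 : x ^ (i / p) * y ^ (j / p) * r₂ = x ^ (i / p - i / p / p) * y ^ (j / p - j / p / p) *
          (x ^ (i / p / p) * y ^ (j / p / p) * r₂) := by
        have e1 : x ^ (i / p) = x ^ (i / p - i / p / p) * x ^ (i / p / p) := by
          rw [← pow_add]; congr 1; omega
        have e2 : y ^ (j / p) = y ^ (j / p - j / p / p) * y ^ (j / p / p) := by
          rw [← pow_add]; congr 1; omega
        rw [e1, e2]; ring
      rw [h5]
      exact B.mul_mem (B.mul_mem (B.pow_mem h.hx _) (B.pow_mem h.hy _)) hr₂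
    · have h3 : w - (r₁ + r₂) ^ p + (r₁ + r₂) = (w - r₁ ^ p) + (r₁ - r₂ ^ p + r₂) := by
        rw [add_pow_char]; ring
      rw [h3, map_add, pr_pr h w h1, zero_add, h2]

/-- The projection of the blowing up. -/
theorem pr_blow (w : F) : pr p x (y / x) (Dx + (y / x) • Dy) (x • Dy) w =
    pr p x y Dx Dy w := by
  have hx0 := h.x0
  have h1 := h.top.mon_closure (h.top.pb w trivial)
  have hb := h.top.blow
  induction h1 using AddSubgroup.closure_induction with
  | mem m hm =>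
    obtain ⟨a, -, i, j, rfl⟩ := hm
    have h2 : x ^ i * y ^ j = x ^ (i + j) * (y / x) ^ j := by
      rw [div_pow, pow_add]
      field_simp
    rw [h.pr_mon a i j, h2, hb.pr_mon a (i + j) j]
    by_cases hj : p ∣ j
    · have h3 : ((i + j : ℕ) : F) = (i : F) := by
        rw [Nat.cast_add, (CharP.cast_eq_zero_iff F p j).mpr hj, add_zero]
      rw [h3]
    · rw [cast_pow_sub_one j hj]
      ring
  | zero => rw [map_zero, map_zero]
  | add a b _ _ ha hb => rw [map_add, map_add, ha, hb]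
  | neg a _ ha => rw [map_neg, map_neg, ha]

end Pr

end Pool.Agent.H96.X
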