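import Pool.Agent.H96.X.Init

/-!
# Comparison of good charts
-/

set_option autoImplicit false
set_option linter.unusedSectionVars false

namespace Pool.Agent.H96.X

open Pool.Agent.H96.S Pool.Agent.H96.VL
open scoped Pointwise

section Loc

variable {p : ℕ} [hp : Fact p.Prime] {F : Type} [Field F] [CharP F p] {W : ValuationSubring F}
  {R : Subring F} {x y f r : F} {Dx Dy : Derivation ℤ F F} {A : Type} {cx cy : Option A}
  {a b a' b' : ℕ}

/-- Reduction of the pole by one. -/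
theorem as_root1 (h : Lr p W R x y Dx Dy) {k l : ℕ} (hk : a / p < k) (hr : x ^ k * y ^ l * r ∈ R)
    (h1 : x ^ a * y ^ b * (r ^ p - r) ∈ R) : x ^ (k - 1) * y ^ l * r ∈ R := by
  have hx0 := h.ec.x0
  have hxR := h.ec.hx
  have hyR := h.ec.hy
  have hp2 := hp.out.two_le
  set w := x ^ k * y ^ l * r with hw
  have hk0 : 1 ≤ k := lt_of_le_of_lt (Nat.zero_le _) hk
  clear_value w
  have hka : a < k * p := by
    have h2 := Nat.lt_mul_div_succ a hp.out.pos
    have h3 : p * (a / p + 1) ≤ p * k := Nat.mul_le_mul_left _ hk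
    rw [mul_comm k]
    exact h2.trans_le h3
  have h2 : Mul R x (y ^ b * w ^ p) := by
    refine ⟨x ^ (k * p - a - 1) * y ^ (l * p) * (x ^ a * y ^ b * (r ^ p - r)) +
      y ^ b * (x ^ (k * (p - 1) - 1) * y ^ (l * (p - 1)) * w),
      R.add_mem (R.mul_mem (R.mul_mem (R.pow_mem hxR _) (R.pow_mem hyR _)) h1)
      (R.mul_mem (R.pow_mem hyR _) (R.mul_mem (R.mul_mem (R.pow_mem hxR _) (R.pow_mem hyR _)) hr)),
      ?_⟩
    have e1 : x ^ (k * p) = x * x ^ (k * p - a - 1) * x ^ a := by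
      rw [← pow_succ', ← pow_add]
      congr 1
      omega
    have hk1 : 1 ≤ k * (p - 1) := Nat.mul_pos hk0 (by omega)
    have e2 : x ^ (k * (p - 1)) = x * x ^ (k * (p - 1) - 1) := by
      rw [← pow_succ']
      congr 1
      omega
    have e3 : w ^ p = x ^ (k * p) * y ^ (l * p) * r ^ p := by
      rw [hw, mul_pow, mul_pow, ← pow_mul, ← pow_mul]
    have e4 : x ^ (k * (p - 1)) * y ^ (l * (p - 1)) * w = x ^ (k * p) * y ^ (l * p) * r := by
      have e5 : x ^ (k * p) = x ^ (k * (p - 1)) * x ^ k := by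
        rw [← pow_add, ← Nat.mul_succ]
        congr 2
        omega
      have e6 : y ^ (l * p) = y ^ (l * (p - 1)) * y ^ l := by
        rw [← pow_add, ← Nat.mul_succ]
        congr 2
        omega
      rw [e5, e6, hw]; ring
    have e7 : x * (y ^ b * (x ^ (k * (p - 1) - 1) * y ^ (l * (p - 1)) * w)) =
        y ^ b * (x ^ (k * (p - 1)) * y ^ (l * (p - 1)) * w) := by rw [e2]; ring
    rw [mul_add, e7, e4, e3, e1]
    ring
  obtain ⟨v, hv, h3⟩ := h.ec.pow_mul_x (h.mul_cancel (R.pow_mem hr _) h2)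
  have h4 : x ^ (k - 1) * y ^ l * r = v := by
    apply mul_left_cancel₀ hx0
    rw [← h3, hw]
    have e1 : x ^ k = x * x ^ (k - 1) := by
      rw [← pow_succ']
      congr 1
      clear hk
      omega
    rw [e1]; ring
  rw [h4]
  exact hv

/-- **The poles of Artin-Schreier roots.** -/
theorem as_root (h : Lr p W R x y Dx Dy) (hr : ∃ k l : ℕ, x ^ k * y ^ l * r ∈ R)
    (h1 : x ^ a * y ^ b * (r ^ p - r) ∈ R) : x ^ (a / p) * y ^ (b / p) * r ∈ R := by
  have hxR := h.ec.hx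
  have hyR := h.ec.hy
  have key : ∀ {x y : F} {Dx Dy : Derivation ℤ F F} {a b : ℕ}, Lr p W R x y Dx Dy →
      x ^ a * y ^ b * (r ^ p - r) ∈ R → ∀ k l : ℕ, x ^ k * y ^ l * r ∈ R →
      x ^ (a / p) * y ^ l * r ∈ R := by
    intro x y Dx Dy a b h h1 k
    induction k with
    | zero =>
      intro l hl
      exact Pb.raise (cx := (none : Option Unit)) (cy := (none : Option Unit)) h.ec.hx h.ec.hy (Nat.zero_le _) le_rfl hl
    | succ k ih =>
      intro l hl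
      by_cases hk : a / p < k + 1
      · exact ih l (by simpa using as_root1 h hk hl h1)
      · exact Pb.raise (cx := (none : Option Unit)) (cy := (none : Option Unit)) h.ec.hx h.ec.hy (not_lt.mp hk) le_rfl hl
  obtain ⟨k, l, h2⟩ := hr
  have h3 := key h h1 k l h2
  have h4 := key h.swap (a := b) (b := a) (by rwa [mul_comm (y ^ b)]) l (a / p) (by
    rwa [mul_comm (y ^ l)])
  rwa [mul_comm (y ^ _)] at h4

/-- One direction of the comparison. -/
theorem cmp_lt (h : Lr p W R x y Dx Dy) (a0 : cx = none → a = 0) (b0 : cy = none → b = 0)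
    (hu : x ^ a * y ^ b * f ∈ R) (hg : (1 : F) ∈ LA R x y Dx Dy cx cy a b f)
    (a0' : cx = none → a' = 0) (b0' : cy = none → b' = 0)
    (hr : ∃ k l : ℕ, x ^ k * y ^ l * r ∈ R) (hu' : x ^ a' * y ^ b' * (f - r ^ p + r) ∈ R) :
    a ≤ a' := by
  by_contra hcon
  have hxR := h.ec.hx
  have hyR := h.ec.hy
  have hx0 := h.ec.x0
  have hp2 := hp.out.two_le
  set B := max b b' with hB
  have hbB : b ≤ B := le_max_left _ _
  have hbB' : b' ≤ B := le_max_right _ _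
  have hra := fun {k l k' l' : ℕ} {w : F} (hk : k ≤ k') (hl : l ≤ l')
    (hw : x ^ k * y ^ l * w ∈ R) => Pb.raise (cx := cx) (cy := cy) hxR hyR hk hl hw
  have h1 : x ^ a * y ^ B * (r ^ p - r) ∈ R := by
    have h2 : x ^ a * y ^ B * (r ^ p - r) = x ^ a * y ^ B * f -
        x ^ a * y ^ B * (f - r ^ p + r) := by ring
    rw [h2]
    exact R.sub_mem (hra le_rfl hbB hu) (hra (by omega) hbB' hu')
  have h2 := as_root h hr h1
  have hap : a / p ≤ a - 1 := by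
    have := Nat.div_lt_self (n := a) (k := p) (by omega) (by omega)
    omega
  have hBp : B / p ≤ B := Nat.div_le_self _ _
  have b0B : cy = none → B = 0 := fun e => by rw [hB, b0 e, b0' e]; rfl
  have hml : ∀ {w e : F} {k l : ℕ}, k ≤ a - 1 → l ≤ B → e * (x ^ k * y ^ l) ∈ R →
      x ^ (a - 1) * y ^ B * e ∈ R := by
    intro w e k l hk hl he
    exact hra hk hl (by rwa [mul_comm] at he)
  -- the derivatives
  have hX : x ^ (a - 1) * y ^ B * (fl cx x * Dx f) ∈ R := by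
    have h3 : fl cx x * Dx f = fl cx x * Dx (f - r ^ p + r) - fl cx x * Dx r := by
      rw [map_add, map_sub, der_pow]; ring
    have h4 := lv_mem h.ec (cx := cx) a0' hu'
    have h5 := lv_mem h.ec (cx := cx) (a := a / p) (fun e => by rw [a0 e, Nat.zero_div]) h2
    rw [lv] at h4 h5
    rw [h3, mul_sub]
    exact R.sub_mem (hml (w := 0) (by omega) hbB' h4) (hml (w := 0) hap hBp h5)
  have hY : x ^ (a - 1) * y ^ B * (fl cy y * Dy f) ∈ R := by
    have h3 : fl cy y * Dy f = fl cy y * Dy (f - r ^ p + r) - fl cy y * Dy r := by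
      rw [map_add, map_sub, der_pow]; ring
    have h4 := lv_mem h.ec.swap (cx := cy) (a := b') (b := a') b0' (by
      rwa [mul_comm (y ^ b')])
    have h5 := lv_mem h.ec.swap (cx := cy) (a := B / p) (b := a / p)
      (fun e => by rw [b0B e, Nat.zero_div]) (by rwa [mul_comm (y ^ (B / p))])
    rw [lv, mul_comm (y ^ _)] at h4 h5
    rw [h3, mul_sub]
    exact R.sub_mem (hml (w := 0) (by omega) hbB' h4) (hml (w := 0) hap hBp h5)
  obtain ⟨c₀, hc₀, c₁, hc₁, c₂, hc₂, h3⟩ := mem_I3.mp hg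
  have h4 : Mul R x (y ^ (B - b)) := by
    refine ⟨x ^ (a - 1) * y ^ B * c₀ + x ^ (a - 1) * y ^ B * (fl cx x * Dx f) * c₁ +
      x ^ (a - 1) * y ^ B * (fl cy y * Dy f) * c₂, R.add_mem (R.add_mem (R.mul_mem (R.mul_mem
      (R.pow_mem hxR _) (R.pow_mem hyR _)) hc₀) (R.mul_mem hX hc₁)) (R.mul_mem hY hc₂), ?_⟩
    have e1 : x ^ a = x * x ^ (a - 1) := by
      rw [← pow_succ']
      congr 1
      omega
    have e2 : y ^ B = y ^ (B - b) * y ^ b := by
      rw [← pow_add]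
      congr 1
      omega
    have e3 : y ^ (B - b) = y ^ (B - b) * 1 := (mul_one _).symm
    rw [e3, h3, lv, lv, e1, e2]
    ring
  exact h.not_x _ h4

/-- **The comparison of the poles.** -/
theorem cmp_le (h : Lr p W R x y Dx Dy) (a0 : cx = none → a = 0) (b0 : cy = none → b = 0)
    (hu : x ^ a * y ^ b * f ∈ R) (hg : (1 : F) ∈ LA R x y Dx Dy cx cy a b f)
    (a0' : cx = none → a' = 0) (b0' : cy = none → b' = 0)
    (hr : ∃ k l : ℕ, x ^ k * y ^ l * r ∈ R) (hu' : x ^ a' * y ^ b' * (f - r ^ p + r) ∈ R) :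
    a ≤ a' ∧ b ≤ b' := by
  refine ⟨cmp_lt h a0 b0 hu hg a0' b0' hr hu', ?_⟩
  refine cmp_lt (cx := cy) (cy := cx) h.swap b0 a0 (by rwa [mul_comm (y ^ b)]) (by
    rw [LA_swap]; exact hg) b0' a0' (r := r) ?_ (by rwa [mul_comm (y ^ b')])
  obtain ⟨k, l, h1⟩ := hr
  exact ⟨l, k, by rwa [mul_comm (y ^ l)]⟩

/-- Monomials in the ring. -/
theorem mn_nat (h : Lr p W R x y Dx Dy) {i j : ℤ} {c : F} (hc : IsU R c)
    (hm : x ^ i * y ^ j * c ∈ R) : 0 ≤ i ∧ 0 ≤ j := by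
  have key : ∀ {x y : F} {Dx Dy : Derivation ℤ F F} {i j : ℤ}, Lr p W R x y Dx Dy →
      x ^ i * y ^ j * c ∈ R → 0 ≤ i := by
    intro x y Dx Dy i j h hm
    by_contra hi
    have hx0 := h.ec.x0
    have hy0 := h.ec.y0
    obtain ⟨n, hn⟩ := Int.eq_ofNat_of_zero_le (a := -i - 1) (by omega)
    have hxi : x * (x ^ n * x ^ i) = 1 := by
      rw [← zpow_natCast x n, ← mul_assoc, ← zpow_one_add₀ hx0, ← zpow_add₀ hx0, ← hn]
      have : (1 : ℤ) + (-i - 1) + i = 0 := by ring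
      rw [this, zpow_zero]
    have h1 : Mul R x (y ^ j * c) := by
      refine ⟨x ^ n * (x ^ i * y ^ j * c), R.mul_mem (R.pow_mem h.ec.hx _) hm, ?_⟩
      have h2 : x * (x ^ n * (x ^ i * y ^ j * c)) = x * (x ^ n * x ^ i) * (y ^ j * c) := by ring
      rw [h2, hxi, one_mul]
    rcases le_total 0 j with hj | hj
    · obtain ⟨m, hm⟩ := Int.eq_ofNat_of_zero_le hj
      rw [hm, zpow_natCast] at h1
      exact lr_not_x h hc h1
    · obtain ⟨m, hm⟩ := Int.eq_ofNat_of_zero_le (neg_nonneg.mpr hj)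
      have h2 := h1.smul (R.mul_mem (R.pow_mem h.ec.hy m) hc.2.2)
      have h3 : y ^ m * c⁻¹ * (y ^ j * c) = 1 := by
        have h4 : y ^ m * y ^ j = 1 := by
          rw [← zpow_natCast y m, ← hm, ← zpow_add₀ hy0, neg_add_cancel, zpow_zero]
        have h5 := hc.1
        have h6 : y ^ m * c⁻¹ * (y ^ j * c) = y ^ m * y ^ j * (c⁻¹ * c) := by ring
        rw [h6, h4, inv_mul_cancel₀ h5, one_mul]
      rw [h3] at h2
      have h4 := Mul.lt h.loc h.pt.vx h2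
      rw [map_one] at h4
      exact lt_irrefl _ h4
  exact ⟨key h hm, key h.swap (by rwa [mul_comm (y ^ j)])⟩

end Loc

section Un

variable {p : ℕ} [hp : Fact p.Prime] {F : Type} [Field F] [CharP F p] {W : ValuationSubring F}
  {R : Subring F} {x y f : F} {Dx Dy : Derivation ℤ F F} {A : Type} {cx cy : Option A}
  {a b : ℕ}

/-- Coordinates which are units do not contribute to the ideal. -/
theorem LA_unit (hx : IsU R x) : LA R x y Dx Dy cx cy a b f ≤
    LA R x y Dx Dy (none : Option A) cy 0 b f := by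
  have hxa : ∀ n : ℕ, x ^ n ∈ R := fun n => R.pow_mem hx.2.1 n
  have hfl : fl cx x ∈ R := by
    cases cx with
    | none => exact R.one_mem
    | some a => exact hx.2.1
  intro w hw
  obtain ⟨c₀, hc₀, c₁, hc₁, c₂, hc₂, rfl⟩ := mem_I3.mp hw
  refine mem_I3.mpr ⟨x ^ a * c₀, R.mul_mem (hxa _) hc₀, fl cx x * x ^ a * c₁,
    R.mul_mem (R.mul_mem hfl (hxa _)) hc₁, x ^ a * c₂, R.mul_mem (hxa _) hc₂, ?_⟩
  have h1 : fl (none : Option A) x = 1 := rfl
  rw [lv, lv, lv, lv, h1, pow_zero]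
  ring

/-- Change of an uncoloured coordinate. -/
theorem LA_none (x' : F) : LA R x y Dx Dy (none : Option A) cy 0 b f =
    LA R x' y Dx Dy (none : Option A) cy 0 b f := by
  rw [LA, LA, pow_zero, pow_zero]
  rfl

end Un

section Gd

variable {p : ℕ} [hp : Fact p.Prime] {F : Type} [Field F] [CharP F p] {A : Type} [DecidableEq A]

/-- Good local data at a closed point. -/
structure Gd (p : ℕ) {F : Type} [Field F] {A : Type} [DecidableEq A] (W : ValuationSubring F)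
    (R : Subring F) (T : A → F) (x y : F) (Dx Dy : Derivation ℤ F F) (cx cy : Option A)
    (a b : ℕ) (f N : F) : Prop where
  lr : Lr p W R x y Dx Dy
  col : ∀ c, Un R (T c) (tc cx cy x y c)
  a0 : cx = none → a = 0
  b0 : cy = none → b = 0
  hu : x ^ a * y ^ b * f ∈ R
  good : (1 : F) ∈ LA R x y Dx Dy cx cy a b f
  un : Un R N (x ^ a * y ^ b)

variable {W W' : ValuationSubring F} {R : Subring F} {T : A → F} {x y f N N' r : F}
  {Dx Dy : Derivation ℤ F F} {cx cy : Option A} {a b : ℕ}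

/-- Comparison with another monomial. -/
theorem Gd.le (h : Gd p W R T x y Dx Dy cx cy a b f N) (hN' : N' ∈ R)
    (hm : Mn R cx cy x y N') (hr : Pb R cx cy x y r) (hf : N' * (f - r ^ p + r) ∈ R) :
    N' / N ∈ R := by
  have hx0 := h.lr.ec.x0
  have hy0 := h.lr.ec.y0
  obtain ⟨i, j, hi, hj, c, hc, hc', hc0, rfl⟩ := hm
  have hcU : IsU R c := ⟨hc0, hc, hc'⟩
  obtain ⟨hi0, hj0⟩ := mn_nat h.lr hcU hN'
  obtain ⟨i, rfl⟩ := Int.eq_ofNat_of_zero_le hi0
  obtain ⟨j, rfl⟩ := Int.eq_ofNat_of_zero_le hj0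
  rw [zpow_natCast, zpow_natCast] at hf ⊢
  have h1 : x ^ i * y ^ j * (f - r ^ p + r) ∈ R := by
    have h2 := R.mul_mem hc' hf
    have h3 : c⁻¹ * (x ^ i * y ^ j * c * (f - r ^ p + r)) = x ^ i * y ^ j * (f - r ^ p + r) := by
      field_simp
    rwa [h3] at h2
  obtain ⟨k, l, -, -, hkl⟩ := hr
  obtain ⟨h2, h3⟩ := cmp_le h.lr h.a0 h.b0 h.hu h.good (fun e => by exact_mod_cast hi e)
    (fun e => by exact_mod_cast hj e) ⟨k, l, hkl⟩ h1
  have h4 : x ^ i * y ^ j * c / N = x ^ (i - a) * y ^ (j - b) * c * (x ^ a * y ^ b / N) := by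
    have e1 : x ^ i = x ^ (i - a) * x ^ a := by rw [← pow_add]; congr 1; omega
    have e2 : y ^ j = y ^ (j - b) * y ^ b := by rw [← pow_add]; congr 1; omega
    rw [e1, e2]; ring
  rw [h4]
  exact R.mul_mem (R.mul_mem (R.mul_mem (R.pow_mem h.lr.ec.hx _) (R.pow_mem h.lr.ec.hy _)) hc)
    h.un.ba

/-- The poles of the difference of the gauges. -/
theorem Gd.root (h : Gd p W R T x y Dx Dy cx cy a b f N) (hr : Pb R cx cy x y r)
    (hf : N * (f - r ^ p + r) ∈ R) : N * r ^ p ∈ R := by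
  have hx0 := h.lr.ec.x0
  have hy0 := h.lr.ec.y0
  have h1 : x ^ a * y ^ b * (r ^ p - r) ∈ R := by
    have h2 : x ^ a * y ^ b * (r ^ p - r) = x ^ a * y ^ b * f -
        x ^ a * y ^ b / N * (N * (f - r ^ p + r)) := by
      have := h.un.a0
      field_simp
      ring
    rw [h2]
    exact R.sub_mem h.hu (R.mul_mem h.un.ba hf)
  obtain ⟨k, l, -, -, hkl⟩ := hr
  have h3 := as_root h.lr ⟨k, l, hkl⟩ h1
  have h4 : N * r ^ p = N / (x ^ a * y ^ b) * (x ^ (a % p) * y ^ (b % p) *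
      (x ^ (a / p) * y ^ (b / p) * r) ^ p) := by
    have e1 : x ^ a = x ^ (a % p) * (x ^ (a / p)) ^ p := by
      rw [← pow_mul, ← pow_add, mul_comm (a / p), Nat.mod_add_div]
    have e2 : y ^ b = y ^ (b % p) * (y ^ (b / p)) ^ p := by
      rw [← pow_mul, ← pow_add, mul_comm (b / p), Nat.mod_add_div]
    have e3 : x ^ (a % p) * y ^ (b % p) * (x ^ (a / p) * y ^ (b / p) * r) ^ p =
        x ^ a * y ^ b * r ^ p := by
      rw [e1, e2, mul_pow, mul_pow]; ring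
    rw [e3]
    field_simp
  rw [h4]
  exact R.mul_mem h.un.ab (R.mul_mem (R.mul_mem (R.pow_mem h.lr.ec.hx _)
    (R.pow_mem h.lr.ec.hy _)) (R.pow_mem h3 _))

end Gd

section Chart

variable {p : ℕ} [hp : Fact p.Prime] {F : Type} [Field F] [CharP F p] {s : Finset F}
  {A : Type} [DecidableEq A] {t : A → ValuationSubring F → F} {G : Finset F} {f : F}
  {W W' : ValuationSubring F}

namespace AC

/-- The denominator. -/
def N (K : AC p s t f G) : F := K.C.x ^ K.a * K.C.y ^ K.b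

theorem N0 (K : AC p s t f G) : K.N ≠ 0 :=
  mul_ne_zero (pow_ne_zero _ K.C.ec.x0) (pow_ne_zero _ K.C.ec.y0)

theorem N_mem (K : AC p s t f G) : K.N ∈ K.C.B :=
  K.C.B.mul_mem (K.C.B.pow_mem K.C.ec.hx _) (K.C.B.pow_mem K.C.ec.hy _)

theorem N_fn (K : AC p s t f G) : K.N * K.fn ∈ K.C.B := K.hu

/-- The local data of a good chart at a closed point. -/
theorem exists_gd (hs : ∀ g ∈ s, g ≠ 0) (K : AC p s t f G) (hg : K.Good) (hW' : Vle W' K.C.B)
    (hclo : Clo p W' K.C.B) : ∃ (x y : F) (cx cy : Option A) (a b : ℕ),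
      Gd p W' (Lc s W') (fun c => t c W') x y K.C.Dx K.C.Dy cx cy a b K.fn K.N := by
  classical
  have hLc : Lc s W' = vl W' K.C.B := K.C.Lc_eq hs hW'
  have hne : ∃ g ∈ s, g ≠ 0 := ⟨K.C.g, K.C.hg, hs _ K.C.hg⟩
  obtain ⟨x, cx, hfx⟩ := exists_hf hW' hclo K.C.ec.hx K.C.cx
  have h1 := (fr_of (W' := W') K.C).hf hW' hne K.C.lc hfx
  obtain ⟨y, cy, hfy⟩ := exists_hf hW' hclo K.C.ec.hy K.C.cy
  have hFr := (h1.swap.hf hW' hne K.C.lc hfy).swap
  obtain ⟨d, hd, hd1, hecd, hcold⟩ := (hFr.ec.and hFr.col).exists hW'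
  have hvl := vl_adj_inv hW' hd hd1
  have hWd : Vle W' (adj K.C.B d⁻¹) := (vle_adj_inv hd (ne_of_one hd1)).mpr ⟨hW', hd1⟩
  have hclod : Clo p W' (adj K.C.B d⁻¹) := by
    obtain ⟨n, hn, h1⟩ := hclo.vl hW'
    rw [← hvl] at h1
    exact ⟨n, hn, fun b hb => h1 b (le_vl hb)⟩
  have hLr := Lr.of hecd (K.C.fg.adj _) hWd hclod hfx.v hfy.v
  rw [hvl, ← hLc] at hLr
  have hR : K.C.B ≤ Lc s W' := K.C.lc W' hW'
  set R := Lc s W' with hRd
  have hlu : ∀ z ∈ K.C.B, z ≠ 0 → W'.valuation z = 1 → IsU R z := fun z hz hz0 hz1 =>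
    ⟨hz0, hR hz, by rw [hLc]; exact inv_mem_vl hz hz1⟩
  -- one coordinate
  have key : ∀ (X X' Y : F) (cX cX' cY : Option A) (DX DY : Derivation ℤ F F) (i j : ℕ),
      Hf p W' X cX X' cX' → X ∈ K.C.B → X ≠ 0 → Y ∈ R → (cX = none → i = 0) →
      (1 : F) ∈ LA R X Y DX DY cX cY i j K.fn → X ^ i * Y ^ j * K.fn ∈ R →
      ∃ i', (cX' = none → i' = 0) ∧ (1 : F) ∈ LA R X' Y DX DY cX' cY i' j K.fn ∧
        X' ^ i' * Y ^ j * K.fn ∈ R ∧ Un R (X ^ i) (X' ^ i') := by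
    intro X X' Y cX cX' cY DX DY i j hf hX hX0 hY i0 h1 h2
    rcases hf.alt with ⟨rfl, rfl, -⟩ | ⟨rfl, -, h3⟩
    · exact ⟨i, i0, h1, h2, Un.refl (pow_ne_zero _ hX0)⟩
    · refine ⟨0, fun _ => rfl, ?_, ?_, ?_⟩
      · rw [LA_none X]
        rcases h3 with h3 | h3
        · rw [h3, i0 h3] at h1
          exact h1
        · exact LA_unit (hlu X hX hX0 h3) h1
      · rw [pow_zero, one_mul]
        rcases h3 with h3 | h3
        · rw [i0 h3, pow_zero, one_mul] at h2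
          exact h2
        · have h4 := (hlu X hX hX0 h3).pow i
          have h5 := R.mul_mem h4.2.2 h2
          have h6 := h4.1
          have h7 : (X ^ i)⁻¹ * (X ^ i * Y ^ j * K.fn) = Y ^ j * K.fn := by field_simp
          rwa [h7] at h5
      · rw [pow_zero]
        rcases h3 with h3 | h3
        · rw [i0 h3, pow_zero]
          exact Un.refl one_ne_zero
        · have h4 := (hlu X hX hX0 h3).pow i
          exact Un.of_unit h4.2.1 h4.2.2 h4.1
  have hgR : (1 : F) ∈ LA R K.C.x K.C.y K.C.Dx K.C.Dy K.C.cx K.C.cy K.a K.b K.fn :=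
    LA_mono hR hg
  obtain ⟨a, ha0, hga, hua, hUa⟩ := key K.C.x x K.C.y K.C.cx cx K.C.cy K.C.Dx K.C.Dy K.a K.b hfx
    K.C.ec.hx K.C.ec.x0 (hR K.C.ec.hy) K.a0 hgR (hR K.hu)
  obtain ⟨b, hb0, hgb, hub, hUb⟩ := key K.C.y y x K.C.cy cy cx K.C.Dy K.C.Dx K.b a hfy
    K.C.ec.hy K.C.ec.y0 hLr.ec.hx K.b0 (by rw [LA_swap]; exact hga) (by
      rwa [mul_comm (K.C.y ^ K.b)])
  rw [LA_swap] at hgb
  exact ⟨x, y, cx, cy, a, b, hLr, fun c => hcold c W' hWd, ha0, hb0,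
    by rwa [mul_comm (y ^ b)] at hub, hgb, hUa.mul hUb⟩

/-- The denominator of another chart. -/
theorem N_mn (K : AC p s t f G) (hW' : Vle W' K.C.B) {x y : F} {cx cy : Option A} (hx0 : x ≠ 0)
    (hy0 : y ≠ 0) (hm : ∀ a, Mn (Lc s W') cx cy x y (t a W')) : Mn (Lc s W') cx cy x y K.N := by
  refine Mn.change hx0 hy0 (K.C.lc W' hW') (fun a ha => T.cx_mn K.C hW' hm ha)
    (fun a ha => T.cy_mn K.C hW' hm ha) (B := K.C.B) ⟨K.a, K.b, fun e => by rw [K.a0 e]; rfl,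
    fun e => by rw [K.b0 e]; rfl, 1, K.C.B.one_mem, ?_, one_ne_zero, by
      rw [mul_one, zpow_natCast, zpow_natCast]; rfl⟩
  rw [inv_one]; exact K.C.B.one_mem

/-- The gauge of another chart. -/
theorem q_pb (K : AC p s t f G) (hW' : Vle W' K.C.B) {x y : F} {cx cy : Option A} (hx0 : x ≠ 0)
    (hy0 : y ≠ 0) (hx : x ∈ Lc s W') (hy : y ∈ Lc s W')
    (hm : ∀ a, Mn (Lc s W') cx cy x y (t a W')) : Pb (Lc s W') cx cy x y K.q := by
  obtain ⟨i, j, hi, hj, h1⟩ := K.pq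
  have h2 : Mn (Lc s W') cx cy x y (K.C.x ^ i * K.C.y ^ j) := by
    refine Mn.change hx0 hy0 (K.C.lc W' hW') (fun a ha => T.cx_mn K.C hW' hm ha)
      (fun a ha => T.cy_mn K.C hW' hm ha) (B := K.C.B) ⟨i, j, fun e => by rw [hi e]; rfl,
      fun e => by rw [hj e]; rfl, 1, K.C.B.one_mem, ?_, one_ne_zero, by
        rw [mul_one, zpow_natCast, zpow_natCast]⟩
    rw [inv_one]; exact K.C.B.one_mem
  have h3 := h2.ne hx0 hy0
  have h4 : K.q = (K.C.x ^ i * K.C.y ^ j)⁻¹ * (K.C.x ^ i * K.C.y ^ j * K.q) := by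
    rw [inv_mul_cancel_left₀ h3]
  rw [h4]
  exact (h2.inv.pb hx hy hx0 hy0).mul (Pb.of_mem (K.C.lc W' hW' h1))

/-- **The comparison of good charts.** -/
theorem cmp (hs : ∀ g ∈ s, g ≠ 0) (K K' : AC p s t f G) (hW : Vle W K.C.B) (hW₁ : Vle W K'.C.B)
    (hg : K.Good) (hg' : K'.Good) : Un (Lc s W) K.N K'.N ∧ K.N * (K'.q - K.q) ^ p ∈ Lc s W := by
  classical
  obtain ⟨E, hE⟩ := K.C.fg
  obtain ⟨E₁, hE₁⟩ := K'.C.fg
  set B₂ : Subring F := Subring.closure ((E ∪ E₁ : Finset F) : Set F) with hB₂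
  have hle : K.C.B ≤ B₂ := by
    rw [hE]
    apply Subring.closure_mono
    rw [Finset.coe_union]
    exact Set.subset_union_left
  have hle₁ : K'.C.B ≤ B₂ := by
    rw [hE₁]
    apply Subring.closure_mono
    rw [Finset.coe_union]
    exact Set.subset_union_right
  have hW₂ : Vle W B₂ := by
    rw [hB₂]
    refine vle_closure.mpr fun e he => ?_
    rw [Finset.mem_coe, Finset.mem_union] at he
    rcases he with he | he
    · exact hW e (by rw [hE]; exact Subring.subset_closure he)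
    · exact hW₁ e (by rw [hE₁]; exact Subring.subset_closure he)
  obtain ⟨W', hW', hclo, hsp⟩ := exists_clo (p := p) ⟨_, hB₂⟩ hW₂
  have hcl : ∀ {B : Subring F}, B ≤ B₂ → Clo p W' B := by
    intro B hB
    obtain ⟨n, hn, h1⟩ := hclo
    exact ⟨n, hn, fun b hb => h1 b (hB hb)⟩
  have hz1 : Gz W W' K.C.B := ⟨hW, hW'.mono hle, fun b hb h => hsp b (hle hb) h⟩
  have hz2 : Gz W W' K'.C.B := ⟨hW₁, hW'.mono hle₁, fun b hb h => hsp b (hle₁ hb) h⟩
  -- one direction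
  have key : ∀ K₁ K₂ : AC p s t f G, Vle W' K₁.C.B → Vle W' K₂.C.B → Clo p W' K₁.C.B → K₁.Good →
      K₂.N / K₁.N ∈ Lc s W' ∧ (K₁.N / K₂.N ∈ Lc s W' → K₁.N * (K₂.q - K₁.q) ^ p ∈ Lc s W') := by
    intro K₁ K₂ h₁ h₂ hc₁ hg₁
    obtain ⟨x, y, cx, cy, a, b, hgd⟩ := K₁.exists_gd hs hg₁ h₁ hc₁
    have hx0 := hgd.lr.ec.x0
    have hy0 := hgd.lr.ec.y0
    have hxR := hgd.lr.ec.hx
    have hyR := hgd.lr.ec.hy
    have hm : ∀ a, Mn (Lc s W') cx cy x y (t a W') := fun a =>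
      Mn.of_un (hgd.col a) (Mn.tc hx0 hy0 a)
    have hr : Pb (Lc s W') cx cy x y (K₂.q - K₁.q) :=
      (K₂.q_pb h₂ hx0 hy0 hxR hyR hm).sub hxR hyR (K₁.q_pb h₁ hx0 hy0 hxR hyR hm)
    have hfn : K₁.fn - (K₂.q - K₁.q) ^ p + (K₂.q - K₁.q) = K₂.fn := by
      rw [fn, fn, sub_pow_char]; ring
    have h2 : K₂.N * K₂.fn ∈ Lc s W' := K₂.C.lc W' h₂ K₂.N_fn
    refine ⟨hgd.le (K₂.C.lc W' h₂ K₂.N_mem) (K₂.N_mn h₂ hx0 hy0 hm) hr (by rwa [hfn]),
      fun h3 => hgd.root hr ?_⟩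
    rw [hfn]
    have h4 : K₁.N * K₂.fn = K₁.N / K₂.N * (K₂.N * K₂.fn) := by
      have := K₂.N0
      field_simp
    rw [h4]
    exact Subring.mul_mem _ h3 h2
  have k1 := key K K' hz1.le' hz2.le' (hcl hle) hg
  have k2 := key K' K hz2.le' hz1.le' (hcl hle₁) hg'
  have hsp' := T.Lc_sp hs K.C hz1
  exact ⟨⟨K.N0, K'.N0, hsp' k2.1, hsp' k1.1⟩, hsp' (k1.2 k2.1)⟩

end AC

end Chart

end Pool.Agent.H96.X
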