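import Pool.Agent.H96.X.Stp

/-!
# The descent
-/

set_option autoImplicit false
set_option linter.unusedSectionVars false

namespace Pool.Agent.H96.X

open Pool.Agent.H96.S Pool.Agent.H96.VL
open scoped Pointwise

section Descent

variable {p : ℕ} [hp : Fact p.Prime] {F : Type} [Field F] [CharP F p] [DecidableEq F] {s : Finset F}
  {A : Type} [DecidableEq A] {t : A → ValuationSubring F → F} {f : F} {G : Finset F}
  {W W₀ W₁ : ValuationSubring F} {c : Finset F} {N : ℕ}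

/-- The state of the descent. -/
def Hn (p : ℕ) {F : Type} [Field F] (s : Finset F) {A : Type} [DecidableEq A]
    (t : A → ValuationSubring F → F) (f : F) (G : Finset F) (o : ℕ ×ₗ ℕ) (m : ℕ) : Prop :=
  ∃ l : List (AC p s t f G), l.length ≤ m ∧ (∀ K ∈ l, ∃ W₀, K.Pd W₀ o) ∧
    ∀ W, ∃ K : AC p s t f G, Vle W K.C.B ∧
      (K.Good ∨ (∃ W₀ o', o' < o ∧ K.Pd W₀ o') ∨ K ∈ l)

/-- The list of the blowing up. -/
theorem exists_list (hs : ∀ g ∈ s, g ≠ 0) (hcn : Cn s W₀ c N) {x₀ y₀ : F} {cx₀ cy₀ : Option A}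
    {o : ℕ ×ₗ ℕ} (l : List (AC p s t f G)) (hl : ∀ K ∈ l, ∃ W₁, K.Pd W₁ o) :
    ∃ l' : List (AC p (s * c) (tb t s W₀ x₀ y₀ cx₀ cy₀) f G), l'.length ≤ l.length ∧
      (∀ K ∈ l', ∃ W₁, K.Pd W₁ o) ∧ ∀ K ∈ l, ∀ W, Vle W K.C.B → W.valuation K.C.x < 1 →
        W.valuation K.C.y < 1 → Lc s W ≠ Lc s W₀ → ∃ K' ∈ l', Vle W K'.C.B := by
  induction l with
  | nil => exact ⟨[], le_rfl, fun C hC => absurd hC List.not_mem_nil,
      fun C hC => absurd hC List.not_mem_nil⟩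
  | cons C l ih =>
    obtain ⟨l', h1, h2, h3⟩ := ih fun C' hC' => hl C' (List.mem_cons_of_mem _ hC')
    obtain ⟨W₁, hPd⟩ := hl C List.mem_cons_self
    by_cases hne : Lc s W₁ = Lc s W₀
    · refine ⟨l', h1.trans (by simp), h2, fun C' hC' W hW hx hy hWne => ?_⟩
      rcases List.mem_cons.mp hC' with rfl | hC'
      · exact absurd ((hPd.centred hs hW hx hy).trans hne) hWne
      · exact h3 C' hC' W hW hx hy hWne
    · obtain ⟨C₁, h4, -, d, hd, hd1, h5, h6⟩ := C.exists_rc (x₀ := x₀) (y₀ := y₀)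
        (cx₀ := cx₀) (cy₀ := cy₀) hs hcn hPd.pt.le hne
      refine ⟨C₁ :: l', by simpa using h1, fun C' hC' => ?_, fun C' hC' W hW hx hy hWne => ?_⟩
      · rcases List.mem_cons.mp hC' with rfl | hC'
        · exact ⟨W₁, h6 W₁ o hd1 hPd⟩
        · exact h2 C' hC'
      · rcases List.mem_cons.mp hC' with rfl | hC'
        · exact ⟨C₁, List.mem_cons_self, h5 W hW ((hPd.pt.one_iff hW hx hy hd).mpr hd1)⟩
        · obtain ⟨C₂, h7, h8⟩ := h3 C' hC' W hW hx hy hWne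
          exact ⟨C₂, List.mem_cons_of_mem _ h7, h8⟩

/-- The blowing up of one point. -/
theorem Hn.blow (hs : ∀ g ∈ s, g ≠ 0) {o : ℕ ×ₗ ℕ} {m : ℕ} (C₀ : AC p s t f G)
    (l : List (AC p s t f G)) (hl : l.length ≤ m) (hC₀ : C₀.Pd W₀ o) (hng : ¬ C₀.Good)
    (hlP : ∀ K ∈ l, ∃ W₀, K.Pd W₀ o)
    (hcov : ∀ W, ∃ K : AC p s t f G, Vle W K.C.B ∧
      (K.Good ∨ (∃ W₀ o', o' < o ∧ K.Pd W₀ o') ∨ K ∈ C₀ :: l)) :
    ∃ c : Finset F, (∀ g ∈ c, g ≠ 0) ∧
      Hn p (s * c) (tb t s W₀ C₀.C.x C₀.C.y C₀.C.cx C₀.C.cy) f G o m := by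
  have hclo : Clo p W₀ (Lc s W₀) := by
    rw [C₀.C.Lc_eq hs hC₀.pt.le]
    exact hC₀.pt.clo.vl hC₀.pt.le
  obtain ⟨c', N, hcn'⟩ := exists_cen hs hclo
  have hcn : Cn s W₀ (c'.erase 0) N := Cn.erase hs hcn'
  have hc0 : ∀ g ∈ c'.erase 0, g ≠ 0 := fun g hg => Finset.ne_of_mem_erase hg
  refine ⟨c'.erase 0, hc0, ?_⟩
  obtain ⟨l', h1, h2, h3⟩ := exists_list (x₀ := C₀.C.x) (y₀ := C₀.C.y) (cx₀ := C₀.C.cx)
    (cy₀ := C₀.C.cy) hs hcn l hlP
  refine ⟨l', h1.trans hl, h2, fun W => ?_⟩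
  by_cases hW : Lc s W = Lc s W₀
  · obtain ⟨C', W', o', h4, h5, h6⟩ := C₀.at_centre hs hc0 hcn hC₀ hng hW
    exact ⟨C', h5, Or.inr (Or.inl ⟨W', o', h4, h6⟩)⟩
  -- away from the centre
  have hgood : ∀ K : AC p s t f G, Vle W K.C.B → K.Good →
      ∃ K' : AC p (s * c'.erase 0) (tb t s W₀ C₀.C.x C₀.C.y C₀.C.cx C₀.C.cy) f G, Vle W K'.C.B ∧
        (K'.Good ∨ (∃ W₀ o', o' < o ∧ K'.Pd W₀ o') ∨ K' ∈ l') := by
    intro C hCW hC
    obtain ⟨C', h4, h5, -⟩ := C.exists_rc (x₀ := C₀.C.x) (y₀ := C₀.C.y) (cx₀ := C₀.C.cx)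
      (cy₀ := C₀.C.cy) hs hcn hCW hW
    exact ⟨C', h4, Or.inl (h5 hC)⟩
  obtain ⟨C, hCW, hC⟩ := hcov W
  rcases hC with hC | ⟨W₁, o', ho', hC⟩ | hC
  · exact hgood C hCW hC
  · by_cases hxy : W.valuation C.C.x < 1 ∧ W.valuation C.C.y < 1
    · obtain ⟨C', h4, -, d, hd, hd1, -, h6⟩ := C.exists_rc (x₀ := C₀.C.x) (y₀ := C₀.C.y)
        (cx₀ := C₀.C.cx) (cy₀ := C₀.C.cy) hs hcn hCW hW
      exact ⟨C', h4, Or.inr (Or.inl ⟨W₁, o', ho', h6 W₁ o'
        ((hC.pt.one_iff hCW hxy.1 hxy.2 hd).mp hd1) hC⟩)⟩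
    · obtain ⟨C', h4, h5⟩ := C.exists_good_of hs hC hCW hxy
      exact hgood C' h4 h5
  · obtain ⟨W₁, hPd⟩ : ∃ W₁, C.Pd W₁ o := by
      rcases List.mem_cons.mp hC with rfl | hC
      · exact ⟨W₀, hC₀⟩
      · exact hlP C hC
    by_cases hxy : W.valuation C.C.x < 1 ∧ W.valuation C.C.y < 1
    · rcases List.mem_cons.mp hC with rfl | hC
      · exact absurd (hC₀.centred hs hCW hxy.1 hxy.2) hW
      · obtain ⟨C', h4, h5⟩ := h3 C hC W hCW hxy.1 hxy.2 hW
        exact ⟨C', h5, Or.inr (Or.inr h4)⟩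
    · obtain ⟨C', h4, h5⟩ := C.exists_good_of hs hPd hCW hxy
      exact hgood C' h4 h5

/-- Reduction of the bound. -/
theorem Hn.compact {P : AC p s t f G → (ℕ ×ₗ ℕ) → Prop}
    (hcov : ∀ W, ∃ K : AC p s t f G, Vle W K.C.B ∧ (K.Good ∨ ∃ W₀ o', P K o' ∧ K.Pd W₀ o')) :
    (∀ W, ∃ K : AC p s t f G, Vle W K.C.B ∧ K.Good) ∨
      ∃ K o' m, P K o' ∧ Hn p s t f G o' m := by
  classical
  have hfg : ∀ K : AC p s t f G, ∃ E : Finset F, K.C.B = Subring.closure E := fun K => K.C.fg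
  choose E hE using hfg
  set ι := {K : AC p s t f G // K.Good ∨ ∃ W₀ o', P K o' ∧ K.Pd W₀ o'} with hι
  obtain ⟨T, hT⟩ := qc (fun i : ι => E i.1) (fun W => by
    obtain ⟨K, h1, h2⟩ := hcov W
    refine ⟨⟨K, h2⟩, fun e he => (W.valuation_le_one_iff e).mp (h1 e ?_)⟩
    rw [hE K]
    exact Subring.subset_closure he)
  have h0 : ∀ i : {i : ι // ¬ i.1.Good}, ∃ o', P i.1.1 o' ∧ ∃ W₀, i.1.1.Pd W₀ o' := fun i => by
    obtain ⟨W₀, o', h1, h2⟩ := i.1.2.resolve_left i.2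
    exact ⟨o', h1, W₀, h2⟩
  choose ν hν1 hν2 using h0
  set T' := T.subtype fun i => ¬ i.1.Good with hT'
  rcases T'.eq_empty_or_nonempty with h1 | h1
  · left
    intro W
    obtain ⟨i, hi, hW⟩ := hT W
    refine ⟨i.1, ?_, ?_⟩
    · rw [hE i.1]
      exact vle_closure.mpr fun e he => (W.valuation_le_one_iff e).mpr (hW e he)
    · by_contra hg
      have h2 : (⟨i, hg⟩ : {i : ι // ¬ i.1.Good}) ∈ T' := by
        rw [hT', Finset.mem_subtype]
        exact hi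
      rw [h1] at h2
      exact absurd h2 (Finset.notMem_empty _)
  · right
    obtain ⟨i₀, hi₀, hmax⟩ := T'.exists_max_image ν h1
    refine ⟨i₀.1.1, ν i₀, T'.card, hν1 i₀, T'.toList.map fun i => i.1.1, by simp, fun K hK => ?_,
      fun W => ?_⟩
    · rw [List.mem_map] at hK
      obtain ⟨i, hi, rfl⟩ := hK
      obtain ⟨W₀, h2⟩ := hν2 i
      exact ⟨W₀, h2.mono (hmax i (Finset.mem_toList.mp hi))⟩
    · obtain ⟨i, hi, hW⟩ := hT W
      refine ⟨i.1, ?_, ?_⟩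
      · rw [hE i.1]
        exact vle_closure.mpr fun e he => (W.valuation_le_one_iff e).mpr (hW e he)
      · by_cases hg : i.1.Good
        · exact Or.inl hg
        · right; right
          rw [List.mem_map]
          refine ⟨⟨i, hg⟩, ?_, rfl⟩
          rw [Finset.mem_toList, hT', Finset.mem_subtype]
          exact hi

theorem mul_one_set (s : Finset F) : s * {1} = s := by
  rw [Finset.mul_singleton]
  simp

/-- **The descent.** -/
theorem descent (o : ℕ ×ₗ ℕ) : ∀ (m : ℕ) (s : Finset F) (A : Type)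
    (_ : DecidableEq A) (_ : Finite A) (t : A → ValuationSubring F → F), (∀ g ∈ s, g ≠ 0) →
    Hn p s t f G o m → ∃ (c : Finset F) (A' : Type) (_ : DecidableEq A') (_ : Finite A')
      (t' : A' → ValuationSubring F → F), (∀ g ∈ c, g ≠ 0) ∧
      ∀ W, ∃ K : AC p (s * c) t' f G, Vle W K.C.B ∧ K.Good := by
  induction o using WellFoundedLT.induction with
  | _ o iho =>
    intro m
    induction m with
    | zero =>
      intro s A _ hA t hs h
      obtain ⟨l, hl, -, hcov⟩ := h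
      have hl0 : l = [] := List.length_eq_zero_iff.mp (Nat.le_zero.mp hl)
      subst hl0
      rcases Hn.compact (P := fun _ o' => o' < o) (fun W => by
        obtain ⟨K, h1, h2⟩ := hcov W
        refine ⟨K, h1, ?_⟩
        rcases h2 with h2 | h2 | h2
        · exact Or.inl h2
        · exact Or.inr h2
        · exact absurd h2 List.not_mem_nil) with h1 | ⟨-, o', m, h1, h2⟩
      · refine ⟨{1}, A, inferInstance, hA, t, fun g hg => ?_, ?_⟩
        · rw [Finset.mem_singleton.mp hg]; exact one_ne_zero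
        · rw [mul_one_set]
          exact h1
      · exact iho o' h1 m s A _ hA t hs h2
    | succ m ihm =>
      intro s A _ hA t hs h
      obtain ⟨l, hl, hlP, hcov⟩ := h
      cases l with
      | nil => exact ihm s A _ hA t hs ⟨[], Nat.zero_le _, hlP, hcov⟩
      | cons C₀ l =>
        have hl' : l.length ≤ m := by simpa using hl
        have hlP' : ∀ K ∈ l, ∃ W₀, K.Pd W₀ o := fun K hK => hlP K (List.mem_cons_of_mem _ hK)
        by_cases hg : C₀.Good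
        · refine ihm s A _ hA t hs ⟨l, hl', hlP', fun W => ?_⟩
          obtain ⟨C, h1, h2⟩ := hcov W
          refine ⟨C, h1, ?_⟩
          rcases h2 with h2 | h2 | h2
          · exact Or.inl h2
          · exact Or.inr (Or.inl h2)
          · rcases List.mem_cons.mp h2 with rfl | h2
            · exact Or.inl hg
            · exact Or.inr (Or.inr h2)
        · obtain ⟨W₀, hC₀⟩ := hlP C₀ List.mem_cons_self
          obtain ⟨c, hc0, hc⟩ := Hn.blow hs C₀ l hl' hC₀ hg hlP' hcov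
          have hs' : ∀ g ∈ s * c, g ≠ 0 := by
            intro g hg'
            obtain ⟨a, ha, b, hb, rfl⟩ := Finset.mem_mul.mp hg'
            exact mul_ne_zero (hs a ha) (hc0 b hb)
          obtain ⟨c', A', i1, i2, t', h1, h2⟩ := ihm (s * c) (Option A) inferInstance
            inferInstance _ hs' hc
          refine ⟨c * c', A', i1, i2, t', fun g hg' => ?_, ?_⟩
          · obtain ⟨a, ha, b, hb, rfl⟩ := Finset.mem_mul.mp hg'
            exact mul_ne_zero (hc0 a ha) (h1 b hb)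
          · rw [← mul_assoc]
            exact h2

/-- **The descent, from pointed charts.** -/
theorem descent' [Finite A] (hs : ∀ g ∈ s, g ≠ 0)
    (h : ∀ W, ∃ K : AC p s t f G, Vle W K.C.B ∧ ∃ W₀ o, K.Pd W₀ o) :
    ∃ (c : Finset F) (A' : Type) (_ : DecidableEq A') (_ : Finite A')
      (t' : A' → ValuationSubring F → F), (∀ g ∈ c, g ≠ 0) ∧
      ∀ W, ∃ K : AC p (s * c) t' f G, Vle W K.C.B ∧ K.Good := by
  rcases Hn.compact (P := fun _ _ => True) (fun W => by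
    obtain ⟨K, h1, W₀, o, h2⟩ := h W
    exact ⟨K, h1, Or.inr ⟨W₀, o, trivial, h2⟩⟩) with h1 | ⟨-, o, m, -, h2⟩
  · refine ⟨{1}, A, inferInstance, inferInstance, t, fun g hg => ?_, ?_⟩
    · rw [Finset.mem_singleton.mp hg]; exact one_ne_zero
    · rw [mul_one_set]
      exact h1
  · exact descent o m s A inferInstance inferInstance t hs h2

end Descent

end Pool.Agent.H96.X
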