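import Pool.Agent.H96.X.AC

/-!
# The blowing up of a point of a geometric chart
-/

set_option autoImplicit false
set_option linter.unusedSectionVars false

namespace Pool.Agent.H96.X

open Pool.Agent.H96.S Pool.Agent.H96.VL
open scoped Pointwise

section Vl

variable {F : Type} [Field F] {W : ValuationSubring F} {B : Subring F} {τ : F}

/-- Localization before and after the adjunction. -/
theorem vl_adj_vl (hB : Vle W B) (ht : W.valuation τ ≤ 1) :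
    vl W (adj (vl W B) τ) = vl W (adj B τ) := by
  have hW : Vle W (adj B τ) := vle_adj.mpr ⟨hB, ht⟩
  apply le_antisymm
  · refine vl_le (vlocal_vl hW) (adj_le ?_ (le_vl mem_adj))
    exact vl_mono le_adj
  · refine vl_mono (adj_le (le_vl.trans le_adj) mem_adj)

end Vl

section Geo

variable {p : ℕ} [hp : Fact p.Prime] {F : Type} [Field F] [CharP F p] [DecidableEq F] {s : Finset F}
  {A : Type} [DecidableEq A] {t : A → ValuationSubring F → F} {G : Finset F}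
  {W W₀ : ValuationSubring F} {c : Finset F} {N : ℕ}

/-- **The blowing up of a point of a geometric chart.** -/
theorem geo_step (C : Chart p s t 1 1 G ∅) (hal : C.al = 0) (hbe : C.be = 0) (hs : ∀ g ∈ s, g ≠ 0)
    (hcn : Cn s W₀ c N) {n : ℕ} (h : C.Pd W₀ n) (hW : Lc s W = Lc s W₀)
    (ht : W.valuation (C.y / C.x) ≤ 1) {x₀ y₀ : F} {cx₀ cy₀ : Option A}
    (hE : ∀ W₁, (∃ g ∈ s * c, g ≠ 0) → Vle W₁ C.Sb → Un (Lc (s * c) W₁) (eW s W₀ x₀ y₀ W₁) C.x)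
    (hcc : ∀ b, (cx₀ = some b ∨ cy₀ = some b) ↔ (C.cx = some b ∨ C.cy = some b)) :
    ∃ (C₁ : Chart p (s * c) (tb t s W₀ x₀ y₀ cx₀ cy₀) 1 1 G ∅) (W' : ValuationSubring F),
      C₁.al = 0 ∧ C₁.be = 0 ∧ Gz W W' C₁.B ∧ Pt p W' C₁.B C₁.x C₁.y ∧ C.Sb ≤ C₁.B ∧
      vl W' C₁.B = vl W' C.Sb ∧ C₁.x = C.x ∧ C₁.y ∈ C.Sb ∧ C₁.Dx = C.Dx + (C.y / C.x) • C.Dy ∧
      C₁.Dy = C.x • C.Dy ∧ C₁.cx = some none ∧ Vle W' C.Sb ∧ W'.valuation C.x < 1 ∧
      W'.valuation C.y < 1 ∧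
      ((C₁.cy = C.cy.map some ∧ C.cy.isSome = true ∧ C₁.y = C.y / C.x ∧
          W'.valuation (C.y / C.x) < 1) ∨
        (C₁.cy = none ∧ (C.cy = none ∨ W'.valuation (C.y / C.x) = 1))) := by
  classical
  obtain ⟨hB, hx, hy⟩ := h.of_eq hs hW
  have hx0 := C.ec.x0
  have hy0 := C.ec.y0
  set τ := C.y / C.x with hτ
  have hyt : C.y = C.x * τ := C.yxt
  set S := C.Sb with hS
  have hBS : C.B ≤ S := le_adj
  have hτS : τ ∈ S := mem_adj
  -- the closed centre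
  have hWS : Vle W S := vle_adj.mpr ⟨hB, ht⟩
  obtain ⟨W', hW'S, hclo', hsp⟩ := exists_clo (p := p) (C.fg.adj τ) hWS
  have hx' : W'.valuation C.x < 1 := hsp _ (hBS C.ec.hx) hx
  have hy' : W'.valuation C.y < 1 := hsp _ (hBS C.ec.hy) hy
  have hW'0 : Lc s W' = Lc s W₀ := h.centred hs (hW'S.mono hBS) hx' hy'
  have hτ' : W'.valuation τ ≤ 1 := hW'S _ hτS
  -- the coordinate
  obtain ⟨y', cy', hy'S, hy'v, hec, E₀, hE₀, hK, hfl⟩ : ∃ (y' : F) (cy' : Option (Option A)),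
      y' ∈ S ∧ W'.valuation y' < 1 ∧ EC p S C.x y' (C.Dx + τ • C.Dy) (C.x • C.Dy) ∧
      ∃ E₀ : Finset F, (∀ e ∈ E₀, e ∈ vl W' S) ∧
        (∀ B' : Subring F, S ≤ B' → (∀ e ∈ E₀, e ∈ B') → K1 B' τ y' C.cy cy' C.be 0) ∧
        ((cy' = C.cy.map some ∧ C.cy.isSome = true ∧ y' = τ ∧ W'.valuation τ < 1) ∨
        (cy' = none ∧ (C.cy = none ∨ W'.valuation τ = 1))) := by
    by_cases hA : C.cy.isSome = true ∧ W'.valuation τ < 1
    · exact ⟨τ, C.cy.map some, hτS, hA.2, C.ec.blow, ∅, fun e he =>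
        absurd he (Finset.notMem_empty e), fun B' _ _ => Or.inl ⟨rfl, rfl, hbe.symm, hA.1⟩,
        Or.inl ⟨rfl, hA.1, rfl, hA.2⟩⟩
    · obtain ⟨k, hk, hq⟩ := hclo'
      have h1 : τ ^ p ^ (k - 1) ∈ S := S.pow_mem hτS _
      have h2 : (τ ^ p ^ (k - 1)) ^ p = τ ^ p ^ k := by
        rw [← pow_mul, ← pow_succ]
        congr 2
        omega
      have hy'v : W'.valuation (τ - (τ ^ p ^ (k - 1)) ^ p) < 1 := by
        rw [h2, ← Valuation.map_neg, neg_sub]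
        exact hq τ hτS
      have hτ0 : τ ≠ 0 := div_ne_zero hy0 hx0
      by_cases hcs : C.cy.isSome = true
      · have hτ1 : W'.valuation τ = 1 := le_antisymm hτ' (not_lt.mp fun h3 => hA ⟨hcs, h3⟩)
        refine ⟨τ - (τ ^ p ^ (k - 1)) ^ p, none, S.sub_mem hτS (S.pow_mem h1 _), hy'v,
          (C.ec.blow.swap.sub_pow h1).swap, {τ⁻¹}, fun e he => ?_, fun B' hB' hE => ?_,
          Or.inr ⟨rfl, Or.inr hτ1⟩⟩
        · rw [Finset.mem_singleton.mp he]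
          exact inv_mem_vl hτS hτ1
        · exact Or.inr ⟨rfl, rfl, Or.inr ⟨hτ0, hB' hτS, hE _ (Finset.mem_singleton_self _)⟩⟩
      · have hcn' : C.cy = none := by
          cases hc : C.cy with
          | none => rfl
          | some b => rw [hc] at hcs; exact absurd rfl hcs
        exact ⟨τ - (τ ^ p ^ (k - 1)) ^ p, none, S.sub_mem hτS (S.pow_mem h1 _), hy'v,
          (C.ec.blow.swap.sub_pow h1).swap, ∅, fun e he => absurd he (Finset.notMem_empty e),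
          fun B' hB' hE => Or.inr ⟨rfl, rfl, Or.inl ⟨hcn', C.be0 hcn'⟩⟩,
          Or.inr ⟨rfl, Or.inl hcn'⟩⟩
  -- the localization
  obtain ⟨E₁, hE₁, hpt⟩ := hec.exists_pt (C.fg.adj τ) hW'S hclo' hx' hy'v
  have hg0 := hs _ C.hg
  obtain ⟨hG, hLcb⟩ := h.Lc_blow hs hcn hW'0 hτ'
  have hle1 : vl W' (adj (Lc s W') (C.y / C.x)) ≤ vl W' S := by
    refine vl_le (vlocal_vl hW'S) (adj_le ?_ (le_vl hτS))
    rw [C.Lc_eq hs (hW'S.mono hBS)]
    exact vl_mono hBS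
  have hG' := hG.mono hle1
  have hloc : VLocal W' (vl W' S) := vlocal_vl hW'S
  obtain ⟨a, ha, ha0, hva, -⟩ := hG'.exists_eq hloc
  have hG2 := hG'.of_max hloc ha fun a' ha' => by rw [hva]; exact hG'.val_le hloc ha'
  obtain ⟨d, hd, hd1, hden⟩ := exists_den hW'S (E₀ ∪ (E₁ ∪ c.image (· / a))) (by
    intro e he
    rcases Finset.mem_union.mp he with he | he
    · exact hE₀ e he
    rcases Finset.mem_union.mp he with he | he
    · exact hE₁ e he
    · obtain ⟨a', ha', rfl⟩ := Finset.mem_image.mp he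
      exact hG2.mem a' ha')
  have hd0 : d ≠ 0 := ne_of_one hd1
  have hall : ∀ e ∈ E₀ ∪ (E₁ ∪ c.image (· / a)), e ∈ adj S d⁻¹ := fun e he =>
    adj_inv_of hd0 (hden e he)
  have hK' := hK (adj S d⁻¹) le_adj fun e he => hall e (Finset.mem_union_left _ he)
  have hpt' := hpt d hd hd1 fun e he => hall e (Finset.mem_union_right _ (Finset.mem_union_left _ he))
  have hca : ∀ a' ∈ c, a' / a ∈ adj S d⁻¹ := fun a' ha' => hall _ (Finset.mem_union_right _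
    (Finset.mem_union_right _ (Finset.mem_image.mpr ⟨a', ha', rfl⟩)))
  have hsc : ∃ g ∈ s * c, g ≠ 0 := ⟨_, Finset.mul_mem_mul C.hg ha, mul_ne_zero hg0 ha0⟩
  have huS : (1 : F) * 1 / (C.x ^ C.al * C.y ^ C.be) / C.x ^ 0 ∈ C.Sb := by
    rw [hal, hbe, zpow_zero, zpow_zero, pow_zero, one_mul, div_one, div_one]
    exact Subring.one_mem _
  have hvS : (wX C.x C.cx.isSome * (fl C.cx C.x * C.Dx 1 / (C.x ^ C.al * C.y ^ C.be)) +
      wX C.x C.cy.isSome * cond C.cy.isSome 1 (C.y / C.x) * (fl C.cy C.y * C.Dy 1 /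
        (C.x ^ C.al * C.y ^ C.be))) / C.x ^ 0 ∈ C.Sb := by
    rw [Derivation.map_one_eq_zero, Derivation.map_one_eq_zero, mul_zero, mul_zero, zero_div,
      mul_zero, mul_zero, add_zero, zero_div]
    exact Subring.zero_mem _
  have hwS : wX C.x C.cy.isSome * (fl C.cy C.y * C.Dy 1 / (C.x ^ C.al * C.y ^ C.be)) / C.x ^ 0 ∈
      C.Sb := by
    rw [Derivation.map_one_eq_zero, mul_zero, zero_div, mul_zero, zero_div]
    exact Subring.zero_mem _
  set C' := C.blc hs hcn h (fun W₁ hW₁ => hE W₁ hsc hW₁) hcc hd hd0 ha ha0 hca hK'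
    (hec.adj_inv hd hd0) 0 huS hvS hwS with hC'
  have hgz : Gz W W' S := ⟨hWS, hW'S, hsp⟩
  refine ⟨C', W', ?_, rfl, hgz.adj hd hd1, hpt', le_adj, vl_adj_inv hW'S hd hd1, rfl, hy'S, rfl,
    rfl, rfl, hW'S, hx', hy', hfl⟩
  show C.al + C.be + ((0 : ℕ) : ℤ) = 0
  rw [hal, hbe]
  rfl

end Geo

end Pool.Agent.H96.X
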