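import Pool.Agent.H96.X.Des
import Pool.Agent.H96.T.Cmp

/-!
# The initial pointed charts
-/

set_option autoImplicit false
set_option linter.unusedSectionVars false

namespace Pool.Agent.H96.X

open Pool.Agent.H96.S Pool.Agent.H96.VL
open scoped Pointwise

section Geo

variable {p : ℕ} [hp : Fact p.Prime] {F : Type} [Field F] [CharP F p] {s : Finset F}
  {A : Type} [DecidableEq A] {t : A → ValuationSubring F → F} {ε h₀ : F} {G₀ G : Finset F}
  {P₀ : Finset (F × F)} {W W' : ValuationSubring F} {x y : F} {Dx Dy : Derivation ℤ F F}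
  {cx cy : Option A}

/-- The frame of a chart. -/
theorem fr_of (C : Chart p s t ε h₀ G₀ P₀) :
    Fr p W' C.B s t C.x C.y C.Dx C.Dy C.cx C.cy where
  hx := C.ec.hx
  hy := C.ec.hy
  cxy := C.cxy
  ec := FinD.of fun _ hd hd1 => C.ec.adj_inv hd (ne_of_one hd1)
  col := FinD.of fun _ _ _ a W hW => C.col a W (hW.mono le_adj)

/-- The geometric chart of a frame. -/
theorem exists_geo (hs : ∀ g ∈ s, g ≠ 0) (C₀ : Chart p s t ε h₀ G₀ P₀) (hW : Gz W W' C₀.B)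
    (hclo : Clo p W' C₀.B) (hFr : Fr p W' C₀.B s t x y Dx Dy cx cy) (hx : W'.valuation x < 1)
    (hy : W'.valuation y < 1) (hG : ∀ h ∈ G, Mn (vl W' C₀.B) cx cy x y h) :
    ∃ C₁ : Chart p s t 1 1 G ∅, C₁.al = 0 ∧ C₁.be = 0 ∧ Gz W W' C₁.B ∧ Pt p W' C₁.B C₁.x C₁.y ∧
      vl W' C₁.B = vl W' C₀.B ∧ C₁.x = x ∧ C₁.y = y ∧ C₁.Dx = Dx ∧ C₁.Dy = Dy ∧ C₁.cx = cx ∧
      C₁.cy = cy := by
  classical
  have hW' := hW.le'
  have hne : ∃ g ∈ s, g ≠ 0 := ⟨C₀.g, C₀.hg, hs _ C₀.hg⟩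
  obtain ⟨d, hd, hd1, hecd, hcold⟩ := (hFr.ec.and hFr.col).exists hW'
  have hd0 := ne_of_one hd1
  have hvl := vl_adj_inv hW' hd hd1
  have hWd : Vle W' (adj C₀.B d⁻¹) := (vle_adj_inv hd hd0).mpr ⟨hW', hd1⟩
  have hclod : Clo p W' (adj C₀.B d⁻¹) := by
    obtain ⟨n, hn, h1⟩ := hclo.vl hW'
    rw [← hvl] at h1
    exact ⟨n, hn, fun b hb => h1 b (le_vl hb)⟩
  set B₁ := adj C₀.B d⁻¹ with hB₁
  obtain ⟨E₁, hE₁, hpt⟩ := hecd.exists_pt (C₀.fg.adj _) hWd hclod hx hy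
  rw [← hvl] at hG
  obtain ⟨E₂, hE₂, hall⟩ := FinP.all G fun h hh => FinP.mn (hG h hh)
  obtain ⟨d₁, hd₁, hd₁1, hden₁⟩ := exists_den hWd (E₁ ∪ E₂) (by
    intro e he
    rcases Finset.mem_union.mp he with he | he
    · exact hE₁ e he
    · exact hE₂ e he)
  have hd₁0 : d₁ ≠ 0 := ne_of_one hd₁1
  have hE2 : ∀ e ∈ E₁ ∪ E₂, e ∈ adj B₁ d₁⁻¹ := fun e he => adj_inv_of hd₁0 (hden₁ e he)
  have hmn := hall (adj B₁ d₁⁻¹) fun e he => hE2 e (Finset.mem_union_right _ he)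
  have hpt2 := hpt d₁ hd₁ hd₁1 fun e he => hE2 e (Finset.mem_union_left _ he)
  have h1 : (1 : F) * 1 / (x ^ (0 : ℤ) * y ^ (0 : ℤ)) = 1 := by
    rw [zpow_zero, zpow_zero]; norm_num
  let C : Chart p s t 1 1 G ∅ :=
    { B := adj B₁ d₁⁻¹
      g := C₀.g
      x := x
      y := y
      Dx := Dx
      Dy := Dy
      cx := cx
      cy := cy
      al := 0
      be := 0
      fg := (C₀.fg.adj _).adj _
      hg := C₀.hg
      hAs := C₀.hAs.trans (le_adj.trans le_adj)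
      lc := by
        intro W hW
        obtain ⟨h1, h2⟩ := (vle_adj_inv hd₁ hd₁0).mp hW
        obtain ⟨h3, h4⟩ := (vle_adj_inv hd hd0).mp h1
        have h5 := C₀.lc W h3
        have h6 : B₁ ≤ Lc s W := adj_le h5 ((lst_Lc hne W).loc.inv d (h5 hd) h4)
        exact adj_le h6 ((lst_Lc hne W).loc.inv d₁ (h6 hd₁) h2)
      ec := hecd.adj_inv hd₁ hd₁0
      cxy := hFr.cxy
      col := fun a W hW => hcold a W (hW.mono le_adj)
      al0 := fun _ => rfl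
      be0 := fun _ => rfl
      hu := by rw [h1]; exact Subring.one_mem _
      hv := by
        rw [Derivation.map_one_eq_zero, mul_zero, zero_div]
        exact Subring.zero_mem _
      hw := by
        rw [Derivation.map_one_eq_zero, mul_zero, zero_div]
        exact Subring.zero_mem _
      mn := hmn
      jc := fun ab hab => absurd hab (Finset.notMem_empty ab) }
  exact ⟨C, rfl, rfl, (hW.adj hd hd1).adj hd₁ hd₁1, hpt2,
    (vl_adj_inv hWd hd₁ hd₁1).trans hvl, rfl, rfl, rfl, rfl, rfl, rfl⟩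

/-- Recentring. -/
theorem exists_rec (hs : ∀ g ∈ s, g ≠ 0) (C : Chart p s t ε h₀ G₀ P₀) (hW' : Vle W' C.B)
    (hclo : Clo p W' C.B) : ∃ (x y : F) (cx cy : Option A),
      Fr p W' C.B s t x y C.Dx C.Dy cx cy ∧ W'.valuation x < 1 ∧ W'.valuation y < 1 := by
  have hne : ∃ g ∈ s, g ≠ 0 := ⟨C.g, C.hg, hs _ C.hg⟩
  obtain ⟨x', cx', hfx⟩ := exists_hf hW' hclo C.ec.hx C.cx
  have h1 := (fr_of (W' := W') C).hf hW' hne C.lc hfx
  obtain ⟨y', cy', hfy⟩ := exists_hf hW' hclo C.ec.hy C.cy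
  have h2 := (h1.swap.hf hW' hne C.lc hfy).swap
  exact ⟨x', y', cx', cy', h2, hfx.v, hfy.v⟩

end Geo

section Ms

variable {p : ℕ} [hp : Fact p.Prime] {F : Type} [Field F] [CharP F p] {W : ValuationSubring F}
  {R : Subring F} {x y f : F} {Dx Dy : Derivation ℤ F F} {A : Type} {cx cy : Option A}

/-- **The initial measure.** -/
theorem exists_ms (h : Lr p W R x y Dx Dy) (hf : Pb R cx cy x y f) :
    ∃ r, Pb R cx cy x y r ∧ ∃ a b nx ny, (cx = none → a = 0) ∧ (cy = none → b = 0) ∧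
      Ms p W R x y Dx Dy (f - r ^ p + r) a b nx ny := by
  classical
  obtain ⟨i, j, hi, hj, hf⟩ := hf
  have hx0 := h.ec.x0
  have hy0 := h.ec.y0
  obtain ⟨r, hr, hbf⟩ := exists_best h.ec (i + j) i j f le_rfl hf
  have hrp : x ^ i * y ^ j * (f - r ^ p + r) ∈ R := by
    have h1 : x ^ i * y ^ j * (f - r ^ p + r) = x ^ i * y ^ j * f -
        x ^ (i - p * (i / p)) * y ^ (j - p * (j / p)) * (x ^ (i / p) * y ^ (j / p) * r) ^ p +
        x ^ (i - i / p) * y ^ (j - j / p) * (x ^ (i / p) * y ^ (j / p) * r) := by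
      have e1 : x ^ i = x ^ (i - p * (i / p)) * (x ^ (i / p)) ^ p := by
        rw [← pow_mul, ← pow_add]
        congr 1
        have := Nat.div_mul_le_self i p
        rw [mul_comm p]
        omega
      have e2 : y ^ j = y ^ (j - p * (j / p)) * (y ^ (j / p)) ^ p := by
        rw [← pow_mul, ← pow_add]
        congr 1
        have := Nat.div_mul_le_self j p
        rw [mul_comm p]
        omega
      have e3 : x ^ i = x ^ (i - i / p) * x ^ (i / p) := by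
        rw [← pow_add]
        congr 1
        have := Nat.div_le_self i p
        omega
      have e4 : y ^ j = y ^ (j - j / p) * y ^ (j / p) := by
        rw [← pow_add]
        congr 1
        have := Nat.div_le_self j p
        omega
      have e5 : x ^ i * y ^ j * r ^ p = x ^ (i - p * (i / p)) * y ^ (j - p * (j / p)) *
          (x ^ (i / p) * y ^ (j / p) * r) ^ p := by
        rw [mul_pow, mul_pow]
        conv_lhs => rw [e1, e2]
        ring
      have e6 : x ^ i * y ^ j * r = x ^ (i - i / p) * y ^ (j - j / p) *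
          (x ^ (i / p) * y ^ (j / p) * r) := by
        conv_lhs => rw [e3, e4]
        ring
      rw [mul_add, mul_sub, e5, e6]
    rw [h1]
    exact R.add_mem (R.sub_mem hf (R.mul_mem (R.mul_mem (R.pow_mem h.ec.hx _)
      (R.pow_mem h.ec.hy _)) (R.pow_mem hr _))) (R.mul_mem (R.mul_mem (R.pow_mem h.ec.hx _)
      (R.pow_mem h.ec.hy _)) hr)
  set w := f - r ^ p + r with hw
  -- the least exponents
  have h1 : ∃ a, x ^ a * y ^ j * w ∈ R := ⟨i, hrp⟩
  obtain ⟨a, ha, hamin⟩ : ∃ a, x ^ a * y ^ j * w ∈ R ∧ ∀ a', x ^ a' * y ^ j * w ∈ R → a ≤ a' :=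
    ⟨Nat.find h1, Nat.find_spec h1, fun a' ha' => Nat.find_min' h1 ha'⟩
  have h2 : ∃ b, x ^ a * y ^ b * w ∈ R := ⟨j, ha⟩
  obtain ⟨b, hb, hbmin⟩ : ∃ b, x ^ a * y ^ b * w ∈ R ∧ ∀ b', x ^ a * y ^ b' * w ∈ R → b ≤ b' :=
    ⟨Nat.find h2, Nat.find_spec h2, fun b' hb' => Nat.find_min' h2 hb'⟩
  have hbj : b ≤ j := hbmin j ha
  have hai : a ≤ i := hamin i hrp
  have hox : 0 < a → ¬ Mul R x (x ^ a * y ^ b * w) := by
    rintro ha0 ⟨v, hv, h3⟩
    have h4 : x ^ (a - 1) * y ^ j * w ∈ R := by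
      have h5 : x ^ a = x * x ^ (a - 1) := by
        rw [← pow_succ']
        congr 1
        omega
      have h6 : x ^ (a - 1) * y ^ b * w = v := by
        apply mul_left_cancel₀ hx0
        rw [← h3, h5]; ring
      have h7 : x ^ (a - 1) * y ^ j * w = y ^ (j - b) * v := by
        have h8 : y ^ j = y ^ (j - b) * y ^ b := by
          rw [← pow_add]
          congr 1
          omega
        rw [h8, ← h6]; ring
      rw [h7]
      exact R.mul_mem (R.pow_mem h.ec.hy _) hv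
    have h5 := hamin _ h4
    omega
  have hoy : 0 < b → ¬ Mul R y (x ^ a * y ^ b * w) := by
    rintro hb0 ⟨v, hv, h3⟩
    have h4 : x ^ a * y ^ (b - 1) * w ∈ R := by
      have h5 : y ^ b = y * y ^ (b - 1) := by
        rw [← pow_succ']
        congr 1
        omega
      have h6 : x ^ a * y ^ (b - 1) * w = v := by
        apply mul_left_cancel₀ hy0
        rw [← h3, h5]; ring
      rw [h6]
      exact hv
    have h5 := hbmin _ h4
    omega
  have h3 : ∃ nx, 0 < a → ∃ s, IsU R s ∧ Mul R x (x ^ a * y ^ b * w - y ^ nx * s) := by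
    by_cases ha0 : 0 < a
    · obtain ⟨m, s, hs, h4⟩ := h.dvr hb (hox ha0)
      exact ⟨m, fun _ => ⟨s, hs, h4⟩⟩
    · exact ⟨0, fun h5 => absurd h5 ha0⟩
  have h4 : ∃ ny, 0 < b → ∃ s, IsU R s ∧ Mul R y (x ^ a * y ^ b * w - x ^ ny * s) := by
    by_cases hb0 : 0 < b
    · obtain ⟨m, s, hs, h4⟩ := h.swap.dvr hb (hoy hb0)
      exact ⟨m, fun _ => ⟨s, hs, h4⟩⟩
    · exact ⟨0, fun h5 => absurd h5 hb0⟩
  obtain ⟨nx, hnx⟩ := h3
  obtain ⟨ny, hny⟩ := h4
  refine ⟨r, ⟨i / p, j / p, fun h5 => by rw [hi h5, Nat.zero_div], fun h5 => by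
    rw [hj h5, Nat.zero_div], hr⟩, a, b, nx, ny, fun h5 => ?_, fun h5 => ?_,
    ⟨h, hbf, hb, hnx, hny⟩⟩
  · have := hi h5
    omega
  · have := hj h5
    omega

end Ms

section Init

variable {p : ℕ} [hp : Fact p.Prime] {F : Type} [Field F] [CharP F p] {s : Finset F}
  {A : Type} [DecidableEq A] {t : A → ValuationSubring F → F} {ε h₀ : F} {G₀ G : Finset F}
  {P₀ : Finset (F × F)} {f : F}

/-- **The initial pointed charts.** -/
theorem init_chart (hs : ∀ g ∈ s, g ≠ 0) (hG : ∀ g ∈ G, g ∈ G₀) (hf : f ∈ G₀)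
    (W : ValuationSubring F) (C : Chart p s t ε h₀ G₀ P₀) (hWC : Vle W C.B) :
    ∃ K : AC p s t f G, Vle W K.C.B ∧ ∃ W₀ o, K.Pd W₀ o := by
  classical
  obtain ⟨W', hW', hclo, hsp⟩ := exists_clo (p := p) C.fg hWC
  obtain ⟨x, y, cx, cy, hFr, hx, hy⟩ := exists_rec hs C hW' hclo
  have hLc : Lc s W' = vl W' C.B := C.Lc_eq hs hW'
  obtain ⟨d, hd, hd1, hecd, hcold⟩ := (hFr.ec.and hFr.col).exists hW'
  have hvl := vl_adj_inv hW' hd hd1
  have hWd : Vle W' (adj C.B d⁻¹) := (vle_adj_inv hd (ne_of_one hd1)).mpr ⟨hW', hd1⟩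
  have hclod : Clo p W' (adj C.B d⁻¹) := by
    obtain ⟨n, hn, h1⟩ := hclo.vl hW'
    rw [← hvl] at h1
    exact ⟨n, hn, fun b hb => h1 b (le_vl hb)⟩
  have hLr := Lr.of hecd (C.fg.adj _) hWd hclod hx hy
  rw [hvl] at hLr
  have hx0 := hLr.ec.x0
  have hy0 := hLr.ec.y0
  have hm : ∀ a, Mn (Lc s W') cx cy x y (t a W') := fun a =>
    Mn.of_un (hcold a W' hWd) (Mn.tc hx0 hy0 a)
  have hmn : ∀ h ∈ G₀, Mn (vl W' C.B) cx cy x y h := by
    intro h hh
    rw [← hLc]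
    exact Mn.change hx0 hy0 (C.lc W' hW') (fun a ha => T.cx_mn C hW' hm ha)
      (fun a ha => T.cy_mn C hW' hm ha) (C.mn h hh)
  obtain ⟨C₁, hal, hbe, hgz, hpt, hvl₁, hx₁, hy₁, hDx₁, hDy₁, hcx₁, hcy₁⟩ :=
    exists_geo (G := G) hs C ⟨hWC, hW', hsp⟩ hclo hFr hx hy fun h hh => hmn h (hG h hh)
  obtain ⟨r, hr, a, b, nx, ny, a0, b0, hms⟩ := exists_ms hLr
    ((hmn f hf).pb hLr.ec.hx hLr.ec.hy hx0 hy0)
  rw [← hvl₁, ← hx₁, ← hy₁, ← hcx₁, ← hcy₁] at hr
  rw [← hcx₁] at a0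
  rw [← hcy₁] at b0
  rw [← hvl₁, ← hx₁, ← hy₁, ← hDx₁, ← hDy₁] at hms
  obtain ⟨K, h1, h2⟩ := exists_ac hs C₁ hal hbe hgz hpt hr a0 b0 hms
  exact ⟨K, h1, W', _, h2⟩

end Init

end Pool.Agent.H96.X
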