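import Pool.Agent.H96.X.Bf
import Pool.Agent.H96.S.Fc

/-!
# Local data of Artin-Schreier functions at closed points
-/

set_option autoImplicit false
set_option linter.unusedSectionVars false

namespace Pool.Agent.H96.X

open Pool.Agent.H96.S Pool.Agent.H96.VL

/-- The function `f` is in best form, with poles of orders `a` and `b`, at the closed point, and
`nx` and `ny` are the orders of its leading terms. -/
structure Ms (p : ℕ) {F : Type} [Field F] (W : ValuationSubring F) (R : Subring F) (x y : F)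
    (Dx Dy : Derivation ℤ F F) (f : F) (a b nx ny : ℕ) : Prop where
  lr : Lr p W R x y Dx Dy
  bf : ∃ c ∈ R, pr p x y Dx Dy f = c ^ p
  hu : x ^ a * y ^ b * f ∈ R
  ox : 0 < a → ∃ s, IsU R s ∧ Mul R x (x ^ a * y ^ b * f - y ^ nx * s)
  oy : 0 < b → ∃ s, IsU R s ∧ Mul R y (x ^ a * y ^ b * f - x ^ ny * s)

section Ms

variable {p : ℕ} [hp : Fact p.Prime] {F : Type} [Field F] [CharP F p] {W : ValuationSubring F}
  {R : Subring F} {x y : F} {Dx Dy : Derivation ℤ F F} {f : F} {a b nx ny : ℕ}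

theorem Mul.lt (hR : VLocal W R) (hx : W.valuation x < 1) {w : F} (h : Mul R x w) :
    W.valuation w < 1 := by
  obtain ⟨r, hr, rfl⟩ := h
  rw [map_mul]
  exact (mul_le_mul' le_rfl (hR.le r hr)).trans_lt (by rw [mul_one]; exact hx)

theorem IsU.val (hR : VLocal W R) {s : F} (hs : IsU R s) : W.valuation s = 1 := by
  refine le_antisymm (hR.le s hs.2.1) ?_
  have h1 := hR.le _ hs.2.2
  rw [map_inv₀] at h1
  have h2 : 0 < W.valuation s := by rw [Valuation.pos_iff]; exact hs.1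
  exact (inv_le_one₀ h2).mp h1

theorem lr_not_x (h : Lr p W R x y Dx Dy) {n : ℕ} {s : F} (hs : IsU R s) :
    ¬ Mul R x (y ^ n * s) := by
  intro h1
  apply h.not_x n
  have h2 := h1.smul hs.2.2
  have h3 : s⁻¹ * (y ^ n * s) = y ^ n := by
    have := hs.1
    field_simp
  rwa [h3] at h2

theorem Ms.swap (h : Ms p W R x y Dx Dy f a b nx ny) : Ms p W R y x Dy Dx f b a ny nx := by
  have h1 : y ^ b * x ^ a * f = x ^ a * y ^ b * f := by ring
  refine ⟨h.lr.swap, ?_, by rw [h1]; exact h.hu, fun hb => by rw [h1]; exact h.oy hb,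
    fun ha => by rw [h1]; exact h.ox ha⟩
  obtain ⟨c, hc, h2⟩ := h.bf
  -- the two projections agree
  have h4 : pr p y x Dy Dx f = pr p x y Dx Dy f := by
    have h5 := h.lr.ec.top.mon_closure (h.lr.ec.top.pb f trivial)
    clear h2 hc h1
    have hec := h.lr.ec
    clear h
    induction h5 using AddSubgroup.closure_induction with
    | mem m hm =>
      obtain ⟨e, -, i, j, rfl⟩ := hm
      rw [hec.pr_mon e i j, mul_comm (x ^ i), hec.swap.pr_mon e j i]
      ring
    | zero => rw [map_zero, map_zero]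
    | add u v _ _ hu hv => rw [map_add, map_add, hu, hv]
    | neg u _ hu => rw [map_neg, map_neg, hu]
  exact ⟨c, hc, by rw [h4]; exact h2⟩

/-- **The orders of the leading terms of best forms.** -/
theorem Ms.bfn (h : Ms p W R x y Dx Dy f a b nx ny) (ha : 0 < a) (hpa : p ∣ a) :
    (nx : F) ≠ (b : F) := by
  intro hnb
  obtain ⟨c, hc, hbf⟩ := h.bf
  obtain ⟨s, hs, hox⟩ := h.ox ha
  have hec := h.lr.ec
  have hx0 := hec.x0
  have hy0 := hec.y0
  obtain ⟨v, hv, h1⟩ := hox
  -- the difference is divisible by `p`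
  obtain ⟨k, hk⟩ : (p : ℤ) ∣ (nx : ℤ) - (b : ℤ) := by
    rw [← CharP.intCast_eq_zero_iff F p]
    push_cast
    rw [hnb, sub_self]
  obtain ⟨l, hl⟩ := hpa
  have e1 : pr p x y Dx Dy (x ^ a * f) = x ^ a * c ^ p := by
    rw [hl, mul_comm p l, pow_mul, pr_pow_mul, hbf]
  have e2 : x ^ a * f = y ^ ((nx : ℤ) - b) * s + x ^ (1 : ℤ) * y ^ (-(b : ℤ)) * v := by
    have h3 : x ^ a * y ^ b * f = y ^ nx * s + x * v := by rw [← h1]; ring
    have h2 : x ^ a * f = (y ^ nx * s + x * v) * y ^ (-(b : ℤ)) := by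
      rw [← h3, zpow_neg, zpow_natCast]
      field_simp
    rw [h2, zpow_sub₀ hy0, zpow_one, zpow_natCast, zpow_natCast, zpow_neg, zpow_natCast]
    field_simp
  have e3 : pr p x y Dx Dy (y ^ ((nx : ℤ) - b) * s) = y ^ ((nx : ℤ) - b) * pr p x y Dx Dy s := by
    rw [hk, mul_comm (p : ℤ) k, zpow_mul, zpow_natCast, pr_pow_mul]
  obtain ⟨v', hv', e4⟩ := pr_mul hec (i := 1) (j := -(b : ℤ)) (w := x ^ (1 : ℤ) * y ^ (-(b : ℤ)) * v)
    ⟨v, hv, rfl⟩
  rw [e2, map_add, e3, e4] at e1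
  obtain ⟨r, hr, r', hr', e5⟩ := pr_sub hec hs.2.1
  have hu : IsU R (pr p x y Dx Dy s) := by
    refine h.lr.isU (pr_mem' hec hs.2.1) ?_
    have h2 : W.valuation (x * r + y * r') < 1 := h.lr.pt.lt (mem_mm.mpr ⟨r, hr, r', hr', rfl⟩)
    have h3 := IsU.val h.lr.loc hs
    rw [e5, sub_sub, W.valuation.map_sub_eq_of_lt_left (by rw [h3]; exact h2), h3]
  apply lr_not_x h.lr (n := nx) hu
  refine ⟨x ^ (a - 1) * y ^ b * c ^ p - v', R.sub_mem (R.mul_mem (R.mul_mem (R.pow_mem hec.hx _)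
    (R.pow_mem hec.hy _)) (R.pow_mem hc _)) hv', ?_⟩
  have h5 := congrArg (fun t => t * y ^ b) e1
  beta_reduce at h5
  have h6 : x ^ a = x * x ^ (a - 1) := by rw [← pow_succ']; congr 1; omega
  rw [h6, zpow_sub₀ hy0, zpow_one, zpow_natCast, zpow_natCast, zpow_neg, zpow_natCast] at h5
  field_simp at h5
  rw [mul_sub]
  linear_combination h5

/-- The logarithmic derivatives. -/
def lv {A : Type} (cx : Option A) (x : F) (Dx : Derivation ℤ F F) (m f : F) : F :=
  fl cx x * Dx f * m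

variable {A : Type} {cx cy : Option A}

theorem natCast_cases (p : ℕ) [hp : Fact p.Prime] [CharP F p] (R : Subring F) (n : ℕ) : (n : F) = 0 ∨ IsU R (n : F) := by
  by_cases h : p ∣ n
  · left; exact (CharP.cast_eq_zero_iff F p n).mpr h
  · right
    have h0 : (n : F) ≠ 0 := fun h0 => h ((CharP.cast_eq_zero_iff F p n).mp h0)
    refine ⟨h0, natCast_mem _ _, ?_⟩
    have h1 := cast_pow_sub_one (F := F) (p := p) n h
    have hp2 := hp.out.two_le
    obtain ⟨q, hq⟩ : ∃ q, p - 1 = q + 1 := ⟨p - 2, by omega⟩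
    rw [hq, pow_succ] at h1
    rw [← eq_inv_of_mul_eq_one_left h1]
    exact R.pow_mem (natCast_mem _ _) _

/-- The first logarithmic derivative at a pole. -/
theorem lv_pole (hec : EC p R x y Dx Dy) (hcx : cx ≠ none) :
    lv cx x Dx (x ^ a * y ^ b) f = x * Dx (x ^ a * y ^ b * f) - a * (x ^ a * y ^ b * f) := by
  have hfl : fl cx x = x := by
    obtain ⟨e, he⟩ := Option.ne_none_iff_exists'.mp hcx
    rw [he]; rfl
  have h2 : Dx (y ^ b) = 0 := by rw [Derivation.leibniz_pow, hec.xy, smul_zero, smul_zero]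
  have h3 : x * Dx (x ^ a) = a * x ^ a := by
    rw [Derivation.leibniz_pow, hec.xx, nsmul_eq_mul, smul_eq_mul, mul_one]
    rcases Nat.eq_zero_or_pos a with rfl | ha
    · simp
    · have h6 : x ^ a = x * x ^ (a - 1) := by rw [← pow_succ']; congr 1; omega
      rw [h6]; ring
  rw [lv, hfl, Derivation.leibniz, Derivation.leibniz, h2, smul_zero, zero_add,
    smul_eq_mul, smul_eq_mul, smul_eq_mul]
  linear_combination (-(y ^ b * f)) * h3

theorem lv_none (hec : EC p R x y Dx Dy) (hcx : cx = none) (ha : a = 0) :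
    lv cx x Dx (x ^ a * y ^ b) f = Dx (x ^ a * y ^ b * f) := by
  have h2 : Dx (y ^ b) = 0 := by rw [Derivation.leibniz_pow, hec.xy, smul_zero, smul_zero]
  rw [lv, hcx, ha, pow_zero, one_mul, Derivation.leibniz, h2, smul_zero, add_zero, smul_eq_mul]
  show 1 * Dx f * y ^ b = _
  ring

theorem lv_mem (hec : EC p R x y Dx Dy) (a0 : cx = none → a = 0)
    (hu : x ^ a * y ^ b * f ∈ R) : lv cx x Dx (x ^ a * y ^ b) f ∈ R := by
  by_cases hcx : cx = none
  · rw [lv_none hec hcx (a0 hcx)]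
    exact hec.dx _ hu
  · rw [lv_pole hec hcx]
    exact R.sub_mem (R.mul_mem hec.hx (hec.dx _ hu)) (R.mul_mem (natCast_mem _ _) hu)

/-- An element of the ideal with a known leading term. -/
theorem Ms.exists_lead (h : Ms p W R x y Dx Dy f a b nx ny) (ha : 0 < a) (a0 : cx = none → a = 0)
    (b0 : cy = none → b = 0) : ∃ e, (e = lv cx x Dx (x ^ a * y ^ b) f ∨
      e = lv cy y Dy (x ^ a * y ^ b) f) ∧ ∃ (k : ℕ) (s : F), IsU R s ∧ Mul R x (e - y ^ k * s) := by
  have hec := h.lr.ec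
  have hcx : cx ≠ none := fun h0 => by rw [a0 h0] at ha; exact lt_irrefl _ ha
  obtain ⟨s, hs, hox⟩ := h.ox ha
  obtain ⟨v, hv, hv1⟩ := id hox
  have hux : x ^ a * y ^ b * f = y ^ nx * s + x * v := by rw [← hv1]; ring
  rcases natCast_cases p R a with h1 | h1
  · -- the exponent is divisible by `p`
    have hpa : p ∣ a := (CharP.cast_eq_zero_iff F p a).mp h1
    have hn := h.bfn ha hpa
    have hdiff : ∀ d : F, d ≠ 0 → (∃ i : ℤ, d = i) → IsU R (d * s + y * Dy s) := by
      rintro d hd ⟨i, rfl⟩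
      refine h.lr.isU (R.add_mem (R.mul_mem (intCast_mem _ _) hs.2.1) (R.mul_mem hec.hy
        (hec.dy s hs.2.1))) ?_
      have h2 : W.valuation (i : F) = 1 := by
        obtain ⟨j, hj⟩ : ∃ j : ℕ, (i : F) = (j : F) := by
          refine ⟨(i : ZMod p).val, ?_⟩
          have h3 : (((i : ZMod p).val : ℤ) : F) = (i : F) := by
            rw [CharP.intCast_eq_intCast F p]
            rw [← ZMod.intCast_eq_intCast_iff]
            push_cast
            rw [ZMod.natCast_zmod_val]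
          rw [← h3]
          push_cast
          rfl
        rcases natCast_cases p R j with h3 | h3
        · rw [← hj] at h3; exact absurd h3 hd
        · rw [← hj] at h3; exact IsU.val h.lr.loc h3
      have h4 : W.valuation (y * Dy s) < 1 := by
        rw [map_mul]
        exact (mul_le_mul' le_rfl (h.lr.loc.le _ (hec.dy s hs.2.1))).trans_lt (by
          rw [mul_one]; exact h.lr.pt.vy)
      have h5 : W.valuation ((i : F) * s) = 1 := by
        rw [map_mul, h2, IsU.val h.lr.loc hs, one_mul]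
      rw [W.valuation.map_add_eq_of_lt_left (by rw [h5]; exact h4), h5]
    have hDu : Dy (x ^ a * y ^ b * f) = nx * y ^ (nx - 1) * s + y ^ nx * Dy s + x * Dy v := by
      rw [hux, map_add, Derivation.leibniz, Derivation.leibniz, Derivation.leibniz_pow, hec.yy,
        hec.yx, smul_zero, add_zero, nsmul_eq_mul, smul_eq_mul, smul_eq_mul, smul_eq_mul,
        smul_eq_mul, mul_one]
      ring
    refine ⟨_, Or.inr rfl, ?_⟩
    by_cases hcy : cy = none
    · have hb := b0 hcy
      rw [hb, Nat.cast_zero] at hn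
      have hnx : nx ≠ 0 := by
        rintro rfl
        exact hn Nat.cast_zero
      have h2 := lv_none (f := f) hec.swap (b := a) hcy hb
      have h3 : y ^ b * x ^ a = x ^ a * y ^ b := by ring
      rw [h3] at h2
      refine ⟨nx - 1, nx * s + y * Dy s, hdiff _ hn ⟨nx, by push_cast; rfl⟩, Dy v,
        hec.dy v hv, ?_⟩
      rw [h2, hDu]
      have h4 : y ^ nx = y * y ^ (nx - 1) := by rw [← pow_succ']; congr 1; omega
      rw [h4]; ring
    · have h2 := lv_pole (f := f) (a := b) (b := a) hec.swap hcy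
      have h3 : y ^ b * x ^ a = x ^ a * y ^ b := by ring
      rw [h3] at h2
      refine ⟨nx, (nx - b) * s + y * Dy s, hdiff _ (sub_ne_zero.mpr hn) ⟨(nx : ℤ) - b, by
        push_cast; rfl⟩, y * Dy v - b * v, R.sub_mem (R.mul_mem hec.hy (hec.dy v hv))
        (R.mul_mem (natCast_mem _ _) hv), ?_⟩
      rw [h2, hDu, hux]
      have h4 : y * (nx * y ^ (nx - 1)) = (nx : F) * y ^ nx := by
        rcases Nat.eq_zero_or_pos nx with h0 | h0
        · rw [h0]; simp
        · have h6 : y ^ nx = y * y ^ (nx - 1) := by rw [← pow_succ']; congr 1; omega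
          rw [h6]; ring
      linear_combination s * h4
  · refine ⟨_, Or.inl rfl, nx, -(a * s), ?_, Dx (x ^ a * y ^ b * f) - a * v,
      R.sub_mem (hec.dx _ h.hu) (R.mul_mem (natCast_mem _ _) hv), ?_⟩
    · have h2 := h1.mul hs
      exact ⟨neg_ne_zero.mpr h2.1, R.neg_mem h2.2.1, by rw [inv_neg]; exact R.neg_mem h2.2.2⟩
    · rw [lv_pole hec hcx]
      linear_combination (-(a : F)) * hux

/-- Powers in ideals. -/
theorem pw_mem {L : AddSubgroup F} (hL : Idl R L) (hx : x ∈ R) (hy : y ∈ R)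
    (hab : x ^ a * y ^ b ∈ L) {e : F} (he : e ∈ L) {k : ℕ} {s : F} (hs : IsU R s)
    (h : Mul R x (e - y ^ k * s)) : y ^ (k * a + b) ∈ L := by
  obtain ⟨v, hv, h1⟩ := h
  have he' : e ∈ R := hL.le he
  -- modulo `e`
  have h2 : ∀ n : ℕ, (y ^ k * s) ^ n - (-(x * v)) ^ n ∈ L := by
    intro n
    induction n with
    | zero => rw [pow_zero, pow_zero, sub_self]; exact L.zero_mem
    | succ n ih =>
      have h3 : (y ^ k * s) ^ (n + 1) - (-(x * v)) ^ (n + 1) =
          (y ^ k * s) * ((y ^ k * s) ^ n - (-(x * v)) ^ n) + (-(x * v)) ^ n * e := by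
        have h4 : e = y ^ k * s + x * v := by rw [← h1]; ring
        rw [h4, pow_succ, pow_succ]; ring
      rw [h3]
      exact L.add_mem (hL.mul _ (R.mul_mem (R.pow_mem hy _) hs.2.1) _ ih)
        (hL.mul _ (R.pow_mem (R.neg_mem (R.mul_mem hx hv)) _) _ he)
  have h3 := hL.mul (y ^ b * (s⁻¹) ^ a) (R.mul_mem (R.pow_mem hy _) (R.pow_mem hs.2.2 _)) _ (h2 a)
  have h4 := hL.mul ((-v) ^ a * (s⁻¹) ^ a) (R.mul_mem (R.pow_mem (R.neg_mem hv) _)
    (R.pow_mem hs.2.2 _)) _ hab
  have h5 : y ^ (k * a + b) = y ^ b * (s⁻¹) ^ a * ((y ^ k * s) ^ a - (-(x * v)) ^ a) +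
      (-v) ^ a * (s⁻¹) ^ a * (x ^ a * y ^ b) := by
    have hs0 := hs.1
    have h6 : (-(x * v)) ^ a = (-v) ^ a * x ^ a := by rw [← mul_pow]; congr 1; ring
    rw [h6, mul_pow, pow_add, pow_mul, inv_pow]
    field_simp
    ring
  rw [h5]
  exact L.add_mem h3 h4

/-- The ideal of a function. -/
def LA {F : Type} [Field F] {A : Type} (R : Subring F) (x y : F) (Dx Dy : Derivation ℤ F F)
    (cx cy : Option A) (a b : ℕ) (f : F) : AddSubgroup F :=
  L3 R (x ^ a * y ^ b) (lv cx x Dx (x ^ a * y ^ b) f) (lv cy y Dy (x ^ a * y ^ b) f)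

theorem LA_swap : LA R y x Dy Dx cy cx b a f = LA R x y Dx Dy cx cy a b f := by
  rw [LA, LA, mul_comm (y ^ b), L3_swap]

theorem LA_idl (hec : EC p R x y Dx Dy) (a0 : cx = none → a = 0) (b0 : cy = none → b = 0)
    (hu : x ^ a * y ^ b * f ∈ R) : Idl R (LA R x y Dx Dy cx cy a b f) := by
  refine Idl.L3 (R.mul_mem (R.pow_mem hec.hx _) (R.pow_mem hec.hy _)) (lv_mem hec a0 hu) ?_
  have h1 := lv_mem (f := f) (a := b) (b := a) hec.swap b0 (by
    have h3 : y ^ b * x ^ a * f = x ^ a * y ^ b * f := by ring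
    rw [h3]; exact hu)
  rwa [mul_comm (y ^ b)] at h1

/-- The power of the second coordinate. -/
theorem Ms.pow_y (h : Ms p W R x y Dx Dy f a b nx ny) (a0 : cx = none → a = 0)
    (b0 : cy = none → b = 0) : ∃ m : ℕ, y ^ m ∈ LA R x y Dx Dy cx cy a b f := by
  have hL := LA_idl h.lr.ec a0 b0 h.hu
  rcases Nat.eq_zero_or_pos a with ha | ha
  · refine ⟨b, ?_⟩
    have h1 : x ^ a * y ^ b = y ^ b := by rw [ha, pow_zero, one_mul]
    rw [← h1]
    exact L3_u
  · obtain ⟨e, he, k, s, hs, h1⟩ := h.exists_lead ha a0 b0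
    refine ⟨_, pw_mem hL h.lr.ec.hx h.lr.ec.hy L3_u (e := e) ?_ hs h1⟩
    rcases he with rfl | rfl
    · exact L3_v
    · exact L3_w

/-- **Powers of the coordinates.** -/
theorem Ms.pow_mem (h : Ms p W R x y Dx Dy f a b nx ny) (a0 : cx = none → a = 0)
    (b0 : cy = none → b = 0) : ∃ m : ℕ, x ^ m ∈ LA R x y Dx Dy cx cy a b f ∧
      y ^ m ∈ LA R x y Dx Dy cx cy a b f := by
  have hL := LA_idl h.lr.ec a0 b0 h.hu
  obtain ⟨m₁, h1⟩ := h.pow_y a0 b0
  obtain ⟨m₂, h2⟩ := h.swap.pow_y b0 a0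
  rw [LA_swap] at h2
  refine ⟨m₁ + m₂, ?_, ?_⟩
  · rw [pow_add]
    exact hL.mul _ (R.pow_mem h.lr.ec.hx _) _ h2
  · rw [add_comm, pow_add]
    exact hL.mul _ (R.pow_mem h.lr.ec.hy _) _ h1

/-- The leading term at a unit. -/
theorem Ms.nx_zero (h : Ms p W R x y Dx Dy f a b nx ny) (ha : 0 < a)
    (hu : W.valuation (x ^ a * y ^ b * f) = 1) : nx = 0 := by
  by_contra h0
  obtain ⟨s, hs, h1⟩ := h.ox ha
  have h2 := Mul.lt h.lr.loc h.lr.pt.vx h1
  have h3 : W.valuation (y ^ nx * s) < 1 := by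
    rw [map_mul, IsU.val h.lr.loc hs, mul_one, map_pow]
    exact pow_lt_one₀ zero_le h.lr.pt.vy h0
  have h4 : W.valuation (x ^ a * y ^ b * f) < 1 := by
    have h5 : x ^ a * y ^ b * f = (x ^ a * y ^ b * f - y ^ nx * s) + y ^ nx * s := by ring
    rw [h5]
    exact W.valuation.map_add_lt h2 h3
  rw [hu] at h4
  exact lt_irrefl _ h4

/-- At a pole one of the logarithmic derivatives is a unit if the numerator is. -/
theorem Ms.unit_x (h : Ms p W R x y Dx Dy f a b nx ny) (ha : 0 < a) (a0 : cx = none → a = 0)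
    (b0 : cy = none → b = 0) (hu : W.valuation (x ^ a * y ^ b * f) = 1) :
    W.valuation (lv cx x Dx (x ^ a * y ^ b) f) = 1 ∨
      W.valuation (lv cy y Dy (x ^ a * y ^ b) f) = 1 := by
  have hec := h.lr.ec
  have hloc := h.lr.loc
  have hcx : cx ≠ none := fun h0 => by rw [a0 h0] at ha; exact lt_irrefl _ ha
  have key : ∀ {z : F} {D : Derivation ℤ F F} {n : ℕ}, W.valuation z < 1 → (∀ r ∈ R, D r ∈ R) →
      IsU R (n : F) → W.valuation (z * D (x ^ a * y ^ b * f) - n * (x ^ a * y ^ b * f)) = 1 := by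
    intro z D n hz hD hn
    have h1 : W.valuation ((n : F) * (x ^ a * y ^ b * f)) = 1 := by
      rw [map_mul, hu, mul_one, IsU.val hloc hn]
    have h2 : W.valuation (z * D (x ^ a * y ^ b * f)) < 1 := by
      rw [map_mul]
      exact (mul_le_mul' le_rfl (hloc.le _ (hD _ h.hu))).trans_lt (by rw [mul_one]; exact hz)
    rw [← neg_sub, Valuation.map_neg, W.valuation.map_sub_eq_of_lt_left (by rw [h1]; exact h2), h1]
  rcases natCast_cases p R a with h1 | h1
  · right
    have hpa : p ∣ a := (CharP.cast_eq_zero_iff F p a).mp h1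
    have hn := h.bfn ha hpa
    rw [h.nx_zero ha hu, Nat.cast_zero] at hn
    have hb : b ≠ 0 := by
      rintro rfl
      exact hn Nat.cast_zero.symm
    have hcy : cy ≠ none := fun h0 => hb (b0 h0)
    have h2 := lv_pole (f := f) (a := b) (b := a) hec.swap hcy
    have h3 : y ^ b * x ^ a = x ^ a * y ^ b := by ring
    rw [h3] at h2
    rw [h2]
    rcases natCast_cases p R b with h4 | h4
    · exact absurd h4.symm hn
    · exact key h.lr.pt.vy hec.dy h4
  · left
    rw [lv_pole hec hcx]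
    exact key h.lr.pt.vx hec.dx h1

/-- **Not clean points.** -/
theorem Ms.small (h : Ms p W R x y Dx Dy f a b nx ny) (hab : 0 < a ∨ 0 < b)
    (a0 : cx = none → a = 0) (b0 : cy = none → b = 0)
    (hv : W.valuation (lv cx x Dx (x ^ a * y ^ b) f) < 1)
    (hw : W.valuation (lv cy y Dy (x ^ a * y ^ b) f) < 1) :
    W.valuation (x ^ a * y ^ b * f) < 1 := by
  refine lt_of_le_of_ne (h.lr.loc.le _ h.hu) fun hu => ?_
  rcases hab with ha | hb
  · rcases h.unit_x ha a0 b0 hu with h1 | h1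
    · exact hv.ne h1
    · exact hw.ne h1
  · have e : y ^ b * x ^ a = x ^ a * y ^ b := by ring
    have h1 := h.swap.unit_x hb b0 a0 (by rw [e]; exact hu)
    rw [e] at h1
    rcases h1 with h1 | h1
    · exact hw.ne h1
    · exact hv.ne h1

end Ms

end Pool.Agent.H96.X
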