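import Pool.Agent.H96.X.Ms
import Pool.Agent.H96.W.Rel

/-!
# The exceptional curve
-/

set_option autoImplicit false
set_option linter.unusedSectionVars false

namespace Pool.Agent.H96.X

open Polynomial IsLocalRing Pool.Agent.H96.S Pool.Agent.H96.VL Pool.Agent.H96.Reg
  Pool.Agent.H96.W

/-- The restriction to the exceptional curve. -/
structure Ph {F : Type} [Field F] (W : ValuationSubring F) (R : Subring F) (x t : F)
    (D : Derivation ℤ F F) (ph : F → (ResidueField W)[X]) : Prop where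
  add : ∀ a ∈ adj R t, ∀ b ∈ adj R t, ph (a + b) = ph a + ph b
  mul : ∀ a ∈ adj R t, ∀ b ∈ adj R t, ph (a * b) = ph a * ph b
  co : ∀ c ∈ R, ph c = C (resv W c)
  pt : ph t = X
  zero : ∀ s ∈ adj R t, ph s = 0 ↔ Mul (adj R t) x s
  ev : ∀ s ∈ adj R t, (ph s).eval (resv W t) = resv W s
  der : ∀ s ∈ adj R t, D s ∈ adj R t ∧ ph (D s) = derivative (ph s)

section Phi

variable {p : ℕ} [hp : Fact p.Prime] {F : Type} [Field F] [CharP F p] {W : ValuationSubring F}
  {R : Subring F} {x y : F} {Dx Dy : Derivation ℤ F F}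

/-- The residue map. -/
noncomputable def res (W : ValuationSubring F) (R : Subring F) (hR : Vle W R) :
    R →+* ResidueField W where
  toFun b := resv W b
  map_one' := resv_one
  map_zero' := resv_zero
  map_add' a b := resv_add (hR a a.2) (hR b b.2)
  map_mul' a b := resv_mul (hR a a.2) (hR b b.2)

/-- The evaluation. -/
noncomputable def evR (R : Subring F) (t : F) : R[X] →+* adj R t :=
  Polynomial.eval₂RingHom (Subring.inclusion le_adj) ⟨t, mem_adj⟩

theorem evR_coe (t : F) (P : R[X]) : ((evR R t P : adj R t) : F) =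
    ∑ i ∈ Finset.range (P.natDegree + 1), (P.coeff i : F) * t ^ i := by
  have h1 : evR R t P = ∑ i ∈ Finset.range (P.natDegree + 1),
      (Subring.inclusion le_adj (P.coeff i)) * (⟨t, mem_adj⟩ : adj R t) ^ i :=
    Polynomial.eval₂_eq_sum_range _ _
  rw [h1]
  show (adj R t).subtype _ = _
  rw [map_sum]
  rfl

theorem evR_surj (t : F) : Function.Surjective (evR R t) := by
  rintro ⟨w, hw⟩
  obtain ⟨m, c, hc, rfl⟩ := mem_adj_iff.mp hw
  refine ⟨∑ i ∈ Finset.range m, Polynomial.C (⟨c i, hc i⟩ : R) * Polynomial.X ^ i, ?_⟩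
  apply Subtype.ext
  rw [map_sum]
  show (adj R t).subtype _ = _
  rw [map_sum]
  refine Finset.sum_congr rfl fun i _ => ?_
  rw [map_mul, map_pow, map_mul, map_pow, evR]
  simp only [Polynomial.coe_eval₂RingHom, Polynomial.eval₂_C, Polynomial.eval₂_X]
  rfl

variable (h : EC p R x y Dx Dy) (hP : Pt p W R x y) (ht : W.valuation (y / x) ≤ 1)

include h hP ht

theorem evR_ker : RingHom.ker (evR R (y / x)) ≤
    RingHom.ker (Polynomial.mapRingHom (res W R hP.le)) := by
  intro P hP'
  rw [RingHom.mem_ker] at hP' ⊢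
  have h1 := evR_coe (y / x) P
  rw [hP'] at h1
  have h2 := h.f1 hP ht (P.natDegree + 1) (fun i => (P.coeff i : F)) (fun i => (P.coeff i).2)
    ⟨0, Subring.zero_mem _, by rw [← h1]; simp⟩
  rw [Polynomial.coe_mapRingHom]
  ext i
  rw [Polynomial.coeff_map, Polynomial.coeff_zero]
  rcases Nat.lt_or_ge i (P.natDegree + 1) with h3 | h3
  · exact (resv_eq_zero_iff (hP.le _ (P.coeff i).2)).mpr (h2 i h3)
  · rw [Polynomial.coeff_eq_zero_of_natDegree_lt (by omega), map_zero]

/-- **The restriction to the exceptional curve.** -/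
theorem exists_ph : ∃ ph : F → (ResidueField W)[X], Ph W R x (y / x) (x • Dy) ph := by
  classical
  have hx0 := h.x0
  let φ : adj R (y / x) →+* (ResidueField W)[X] :=
    (evR R (y / x)).liftOfRightInverse (Function.surjInv (evR_surj _))
      (Function.rightInverse_surjInv (evR_surj _))
      ⟨Polynomial.mapRingHom (res W R hP.le), evR_ker h hP ht⟩
  have hφ : ∀ P, φ (evR R (y / x) P) = Polynomial.map (res W R hP.le) P := fun P =>
    RingHom.liftOfRightInverse_comp_apply _ _ _ _ _
  have hφ0 : ∀ s : adj R (y / x), φ s = 0 ↔ Mul (adj R (y / x)) x (s : F) := by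
    intro s
    obtain ⟨P, rfl⟩ := evR_surj (y / x) s
    rw [hφ]
    constructor
    · intro h1
      have h2 : ∀ i, ∃ a ∈ R, ∃ b ∈ R, (P.coeff i : F) = x * a + y * b := by
        intro i
        have h3 := congrArg (fun Q => Polynomial.coeff Q i) h1
        simp only [Polynomial.coeff_map, Polynomial.coeff_zero] at h3
        exact hP.max _ (P.coeff i).2 ((resv_eq_zero_iff (hP.le _ (P.coeff i).2)).mp h3)
      choose a ha b hb hab using h2
      refine ⟨∑ i ∈ Finset.range (P.natDegree + 1), (a i + (y / x) * b i) * (y / x) ^ i,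
        Subring.sum_mem _ fun i _ => Subring.mul_mem _ (Subring.add_mem _ (le_adj (ha i))
          (Subring.mul_mem _ mem_adj (le_adj (hb i)))) (Subring.pow_mem _ mem_adj _), ?_⟩
      rw [evR_coe, Finset.mul_sum]
      refine Finset.sum_congr rfl fun i _ => ?_
      rw [hab]
      field_simp
    · intro h1
      rw [evR_coe] at h1
      have h2 := h.f1 hP ht (P.natDegree + 1) (fun i => (P.coeff i : F))
        (fun i => (P.coeff i).2) h1
      ext i
      rw [Polynomial.coeff_map, Polynomial.coeff_zero]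
      rcases Nat.lt_or_ge i (P.natDegree + 1) with h3 | h3
      · exact (resv_eq_zero_iff (hP.le _ (P.coeff i).2)).mpr (h2 i h3)
      · rw [Polynomial.coeff_eq_zero_of_natDegree_lt (by omega), map_zero]
  let ph : F → (ResidueField W)[X] := fun s => if hs : s ∈ adj R (y / x) then φ ⟨s, hs⟩ else 0
  have hph : ∀ {s : F} (hs : s ∈ adj R (y / x)), ph s = φ ⟨s, hs⟩ := fun hs => dif_pos hs
  have hco : ∀ c ∈ R, ph c = C (resv W c) := by
    intro c hc
    rw [hph (le_adj hc)]
    have h1 : (⟨c, le_adj hc⟩ : adj R (y / x)) = evR R (y / x) (Polynomial.C ⟨c, hc⟩) := by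
      rw [evR, Polynomial.coe_eval₂RingHom, Polynomial.eval₂_C]
      rfl
    rw [h1, hφ, Polynomial.map_C]
    rfl
  have ht1 : ph (y / x) = X := by
    rw [hph mem_adj]
    have h1 : (⟨y / x, mem_adj⟩ : adj R (y / x)) = evR R (y / x) Polynomial.X := by
      rw [evR, Polynomial.coe_eval₂RingHom, Polynomial.eval₂_X]
    rw [h1, hφ, Polynomial.map_X]
  have hadd : ∀ a ∈ adj R (y / x), ∀ b ∈ adj R (y / x), ph (a + b) = ph a + ph b := by
    intro a ha b hb
    rw [hph ha, hph hb, hph (Subring.add_mem _ ha hb), ← map_add]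
    rfl
  have hmul : ∀ a ∈ adj R (y / x), ∀ b ∈ adj R (y / x), ph (a * b) = ph a * ph b := by
    intro a ha b hb
    rw [hph ha, hph hb, hph (Subring.mul_mem _ ha hb), ← map_mul]
    rfl
  have hzero : ∀ s ∈ adj R (y / x), ph s = 0 ↔ Mul (adj R (y / x)) x s := fun s hs => by
    rw [hph hs]; exact hφ0 _
  have hle : Vle W (adj R (y / x)) := vle_adj.mpr ⟨hP.le, ht⟩
  refine ⟨ph, hadd, hmul, hco, ht1, hzero, fun s hs => ?_, fun s hs => ?_⟩
  · -- evaluation
    rw [adj] at hs
    induction hs using Subring.closure_induction with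
    | mem s hs =>
      rcases hs with hs | hs
      · rw [hco s hs, Polynomial.eval_C]
      · rw [Set.mem_singleton_iff.mp hs, ht1, Polynomial.eval_X]
    | zero =>
      have h1 := hco 0 R.zero_mem
      rw [h1, Polynomial.eval_C]
    | one =>
      have h1 := hco 1 R.one_mem
      rw [h1, Polynomial.eval_C]
    | add a b ha hb iha ihb =>
      rw [hadd a ha b hb, Polynomial.eval_add, iha, ihb, resv_add (hle a ha) (hle b hb)]
    | neg a ha iha =>
      have h1 : ph (-a) = -ph a := by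
        have h2 := hadd a ha (-a) (Subring.neg_mem _ ha)
        rw [add_neg_cancel, hco 0 R.zero_mem, resv_zero, map_zero] at h2
        exact (neg_eq_of_add_eq_zero_right h2.symm).symm
      have h2 : resv W (-a) = -resv W a := by
        have h3 := resv_add (hle a ha) (hle (-a) (Subring.neg_mem _ ha))
        rw [add_neg_cancel, resv_zero] at h3
        exact (neg_eq_of_add_eq_zero_right h3.symm).symm
      rw [h1, h2, Polynomial.eval_neg, iha]
    | mul a b ha hb iha ihb =>
      rw [hmul a ha b hb, Polynomial.eval_mul, iha, ihb, resv_mul (hle a ha) (hle b hb)]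
  · -- derivations
    rw [adj] at hs
    have hxS : x ∈ adj R (y / x) := le_adj h.hx
    induction hs using Subring.closure_induction with
    | mem s hs =>
      rcases hs with hs | hs
      · have h1 : (x • Dy) s = x * Dy s := rfl
        have h2 : x * Dy s ∈ R := R.mul_mem h.hx (h.dy s hs)
        refine ⟨by rw [h1]; exact le_adj h2, ?_⟩
        rw [h1, hco _ h2, hco s hs, derivative_C]
        have h3 : W.valuation (x * Dy s) < 1 := by
          rw [map_mul]
          exact (mul_le_mul' le_rfl (hP.le _ (h.dy s hs))).trans_lt (by rw [mul_one]; exact hP.vx)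
        rw [(resv_eq_zero_iff (hP.le _ h2)).mpr h3, map_zero]
      · rw [Set.mem_singleton_iff.mp hs]
        have h1 : (x • Dy) (y / x) = 1 := h.blow.yy
        rw [h1]
        refine ⟨Subring.one_mem _, ?_⟩
        rw [ht1, derivative_X, hco 1 R.one_mem, resv_one, map_one]
    | zero =>
      rw [map_zero]
      refine ⟨Subring.zero_mem _, ?_⟩
      rw [hco 0 R.zero_mem, derivative_C, resv_zero, map_zero]
    | one =>
      have h1 : (x • Dy) 1 = 0 := (x • Dy).map_one_eq_zero
      rw [h1]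
      refine ⟨Subring.zero_mem _, ?_⟩
      rw [hco 0 R.zero_mem, hco 1 R.one_mem, derivative_C, resv_zero, map_zero]
    | add a b ha hb iha ihb =>
      rw [map_add, hadd a ha b hb, derivative_add]
      exact ⟨Subring.add_mem _ iha.1 ihb.1, by rw [hadd _ iha.1 _ ihb.1, iha.2, ihb.2]⟩
    | neg a ha iha =>
      have h1 : ∀ b ∈ adj R (y / x), ph (-b) = -ph b := by
        intro b hb
        have h2 := hadd b hb (-b) (Subring.neg_mem _ hb)
        rw [add_neg_cancel, hco 0 R.zero_mem, resv_zero, map_zero] at h2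
        exact (neg_eq_of_add_eq_zero_right h2.symm).symm
      rw [map_neg, h1 a ha, derivative_neg]
      exact ⟨Subring.neg_mem _ iha.1, by rw [h1 _ iha.1, iha.2]⟩
    | mul a b ha hb iha ihb =>
      rw [Derivation.leibniz, smul_eq_mul, smul_eq_mul, hmul a ha b hb, derivative_mul]
      refine ⟨Subring.add_mem _ (Subring.mul_mem _ ha ihb.1) (Subring.mul_mem _ hb iha.1), ?_⟩
      rw [hadd _ (Subring.mul_mem _ ha ihb.1) _ (Subring.mul_mem _ hb iha.1), hmul _ ha _ ihb.1,
        hmul _ hb _ iha.1, iha.2, ihb.2]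
      ring

end Phi

section Use

variable {p : ℕ} [hp : Fact p.Prime] {F : Type} [Field F] {W : ValuationSubring F}
  {R : Subring F} {x t : F} {D : Derivation ℤ F F} {ph : F → (ResidueField W)[X]}

namespace Ph

variable (h : Ph W R x t D ph)

include h

theorem sum {m : ℕ} {c : ℕ → F} (hc : ∀ i, c i ∈ R) :
    ph (∑ i ∈ Finset.range m, c i * t ^ i) = ∑ i ∈ Finset.range m, C (resv W (c i)) * X ^ i := by
  have hpow : ∀ i : ℕ, ph (t ^ i) = X ^ i := by
    intro i
    induction i with
    | zero => rw [pow_zero, pow_zero, h.co 1 R.one_mem, resv_one, map_one]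
    | succ i ih => rw [pow_succ, pow_succ, h.mul _ (Subring.pow_mem _ mem_adj _) _ mem_adj, ih, h.pt]
  induction m with
  | zero =>
    rw [Finset.sum_range_zero, Finset.sum_range_zero, h.co 0 R.zero_mem, resv_zero, map_zero]
  | succ m ih =>
    rw [Finset.sum_range_succ, Finset.sum_range_succ, h.add _ (Subring.sum_mem _ fun i _ =>
      Subring.mul_mem _ (le_adj (hc i)) (Subring.pow_mem _ mem_adj _)) _
      (Subring.mul_mem _ (le_adj (hc m)) (Subring.pow_mem _ mem_adj _)), ih,
      h.mul _ (le_adj (hc m)) _ (Subring.pow_mem _ mem_adj _), hpow, h.co _ (hc m)]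

/-- Elements vanishing at the point. -/
theorem dvd (hW : Vle W (adj R t)) {s : F} (hs : s ∈ adj R t) :
    X - C (resv W t) ∣ ph s ↔ W.valuation s < 1 := by
  rw [dvd_iff_isRoot, IsRoot, h.ev s hs, resv_eq_zero_iff (hW s hs)]

/-- **The order at a point of the exceptional curve.** -/
theorem le_deg (hW : Vle W (adj R t)) (hxv : W.valuation x < 1) (hx : x ∈ adj R t) {g z : F}
    (hg : g ∈ adj R t) (hz : z ∈ adj R t) (hzv : W.valuation z < 1) (h0 : ph g ≠ 0) {n : ℕ} {s : F}
    (hs : s ∈ vl W (adj R t)) (hgs : Mul (vl W (adj R t)) x (g - z ^ n * s)) :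
    n ≤ (ph g).natDegree := by
  classical
  obtain ⟨v, hv, h1⟩ := hgs
  obtain ⟨s₁, hs₁, d₁, hd₁, hd₁1, rfl⟩ := mem_vl.mp hs
  obtain ⟨v₁, hv₁, d₂, hd₂, hd₂1, rfl⟩ := mem_vl.mp hv
  have hd₁0 : d₁ ≠ 0 := by
    rintro rfl
    rw [map_zero] at hd₁1
    exact zero_ne_one hd₁1
  have hd₂0 : d₂ ≠ 0 := by
    rintro rfl
    rw [map_zero] at hd₂1
    exact zero_ne_one hd₂1
  have h2 : d₁ * d₂ * g = z ^ n * (s₁ * d₂) + x * (v₁ * d₁) := by
    have h3 : g = z ^ n * (s₁ / d₁) + x * (v₁ / d₂) := by rw [← h1]; ring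
    rw [h3]
    field_simp
  have hd : d₁ * d₂ ∈ adj R t := Subring.mul_mem _ hd₁ hd₂
  have hm1 : s₁ * d₂ ∈ adj R t := Subring.mul_mem _ hs₁ hd₂
  have hm2 : v₁ * d₁ ∈ adj R t := Subring.mul_mem _ hv₁ hd₁
  have hzn : ∀ n : ℕ, ph (z ^ n) = ph z ^ n := by
    intro i
    induction i with
    | zero => rw [pow_zero, pow_zero, h.co 1 R.one_mem, resv_one, map_one]
    | succ i ih => rw [pow_succ, pow_succ, h.mul _ (Subring.pow_mem _ hz _) _ hz, ih]
  have hx1 : ph x = 0 := (h.zero x hx).mpr ⟨1, Subring.one_mem _, by rw [mul_one]⟩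
  have h3 : ph (d₁ * d₂) * ph g = ph z ^ n * ph (s₁ * d₂) := by
    rw [← h.mul _ hd _ hg, h2, h.add _ (Subring.mul_mem _ (Subring.pow_mem _ hz _) hm1) _
      (Subring.mul_mem _ hx hm2), h.mul _ (Subring.pow_mem _ hz _) _ hm1, h.mul _ hx _ hm2, hx1,
      zero_mul, add_zero, hzn]
  have hdz : X - C (resv W t) ∣ ph z := (h.dvd hW hz).mpr hzv
  have hdd : ¬ X - C (resv W t) ∣ ph (d₁ * d₂) := by
    rw [h.dvd hW hd, map_mul, hd₁1, hd₂1, mul_one]
    exact lt_irrefl _
  have h4 : (X - C (resv W t)) ^ n ∣ ph (d₁ * d₂) * ph g := by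
    rw [h3]
    exact (pow_dvd_pow_of_dvd hdz n).mul_right _
  have h5 : (X - C (resv W t)) ^ n ∣ ph g :=
    (prime_X_sub_C (resv W t)).pow_dvd_of_dvd_mul_left n hdd h4
  have h6 := natDegree_le_of_dvd h5 h0
  rwa [natDegree_pow, natDegree_X_sub_C, mul_one] at h6

/-- Elements divisible by `x` in the local ring. -/
theorem zero_of_mul (hW : Vle W (adj R t)) (hx : x ∈ adj R t) {g : F}
    (hg : g ∈ adj R t) (hgs : Mul (vl W (adj R t)) x g) : ph g = 0 := by
  obtain ⟨v, hv, h1⟩ := hgs
  obtain ⟨v₁, hv₁, d₂, hd₂, hd₂1, rfl⟩ := mem_vl.mp hv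
  have hd₂0 : d₂ ≠ 0 := by
    rintro rfl
    rw [map_zero] at hd₂1
    exact zero_ne_one hd₂1
  have h2 : d₂ * g = x * v₁ := by
    rw [h1]
    field_simp
  have h3 : ph (d₂ * g) = 0 :=
    (h.zero _ (Subring.mul_mem _ hd₂ hg)).mpr ⟨v₁, hv₁, h2⟩
  rw [h.mul _ hd₂ _ hg] at h3
  refine (mul_eq_zero.mp h3).resolve_left fun h4 => ?_
  have h5 : W.valuation d₂ < 1 := (h.dvd hW hd₂).mp (by rw [h4]; exact dvd_zero _)
  rw [hd₂1] at h5
  exact lt_irrefl _ h5

end Ph

end Use

end Pool.Agent.H96.X
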