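import Pool.Agent.H96.X.Sfl

/-!
# The data of a surface for an Artin-Schreier function
-/

set_option autoImplicit false
set_option linter.unusedSectionVars false

namespace Pool.Agent.H96.X

open Pool.Agent.H96.S Pool.Agent.H96.VL Pool.Agent.H96.W
open scoped Pointwise

section Cover

variable {p : ℕ} [hp : Fact p.Prime] {F : Type} [Field F] [CharP F p] {s : Finset F} {A : Type}
  [DecidableEq A] {t : A → ValuationSubring F → F} {f : F} {G : Finset F}

/-- **Finite covers by good charts.** -/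
theorem exists_cover (hs : ∀ g ∈ s, g ≠ 0)
    (H : ∀ W, ∃ K : AC p s t f G, Vle W K.C.B ∧ K.Good) :
    ∃ (J : Type) (_ : Finite J) (K : J → AC p s t f G) (c : J → F), (∀ j, (K j).Good) ∧
      Cov (fun j => (K j).C.B) c ∧ ∀ W, ∃ j, Vle W (K j).C.B := by
  classical
  -- the shrunk charts
  have h1 : ∀ W : ValuationSubring F, ∃ (K : AC p s t f G) (d : F), Vle W K.C.B ∧ K.Good ∧
      d ∈ As s K.C.g ∧ d ≠ 0 ∧ K.C.B = adj (As s K.C.g) d⁻¹ := by
    intro W
    obtain ⟨K, hW, hg⟩ := H W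
    have hne : ∃ g ∈ s, g ≠ 0 := ⟨K.C.g, K.C.hg, hs _ K.C.hg⟩
    have hWA : Vle W (As s K.C.g) := hW.mono K.C.hAs
    obtain ⟨E, hE⟩ := K.C.fg
    have hvl : K.C.B ≤ vl W (As s K.C.g) := by
      have h2 := K.C.lc W hW
      rwa [Pool.Agent.H96.S.Lc_eq K.C.hg (hs _ K.C.hg) ((vle_As (hs _ K.C.hg)).mp hWA)] at h2
    obtain ⟨d, hd, hd1, hdE⟩ := exists_den hWA E fun e he => hvl (by
      rw [hE]; exact Subring.subset_closure he)
    have hd0 : d ≠ 0 := ne_of_one hd1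
    refine ⟨K.shrink (K.C.hAs hd) hd0 hne, d, (K.vle_shrink (K.C.hAs hd) hd0 hne).mpr ⟨hW, hd1⟩,
      K.L_shrink (K.C.hAs hd) hd0 hne hg, hd, hd0, ?_⟩
    show adj K.C.B d⁻¹ = adj (As s K.C.g) d⁻¹
    apply le_antisymm
    · refine adj_le ?_ mem_adj
      rw [hE, Subring.closure_le]
      exact fun e he => adj_inv_of hd0 (hdE e he)
    · exact adj_le (K.C.hAs.trans le_adj) mem_adj
  choose K d hW hg hd hd0 hB using h1
  have hfg : ∀ W, ∃ E : Finset F, (K W).C.B = Subring.closure E := fun W => (K W).C.fg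
  choose E hE using hfg
  obtain ⟨T, hT⟩ := qc E (fun W => ⟨W, fun e he => (W.valuation_le_one_iff e).mp (hW W e (by
    rw [hE]; exact Subring.subset_closure he))⟩)
  have hall : ∀ W, ∃ j : T, Vle W (K j).C.B := by
    intro W
    obtain ⟨i, hi, h2⟩ := hT W
    refine ⟨⟨i, hi⟩, ?_⟩
    rw [hE, vle_closure]
    exact fun a ha => (W.valuation_le_one_iff a).mpr (h2 a ha)
  -- the exponent
  have hhom : ∀ j : T, ∃ n : ℕ, ∀ N, n ≤ N → ∀ g' ∈ s, g' ≠ 0 →
      ((K j).C.g / g') ^ N * d j ∈ As s g' := by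
    intro j
    obtain ⟨n, hn⟩ := exists_hom (hs _ (K j).C.hg) (hd j)
    exact ⟨n, fun N hN g' hg' h0 => hn N hN g' hg' h0 (K j).C.hg⟩
  choose n hn using hhom
  set N := Finset.univ.sup n with hN
  have hnN : ∀ j, n j ≤ N := fun j => Finset.le_sup (Finset.mem_univ j)
  refine ⟨T, inferInstance, fun j => K j, fun j => (K j).C.g ^ (N + 1) * d j, fun j => hg j, ?_,
    hall⟩
  have hg0 : ∀ j : T, (K j).C.g ≠ 0 := fun j => hs _ (K j).C.hg
  have hrat : ∀ j l : T, (K l).C.g ^ (N + 1) * d l / ((K j).C.g ^ (N + 1) * d j) =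
      ((K l).C.g / (K j).C.g) ^ (N + 1) * d l * (d j)⁻¹ := by
    intro j l
    have h2 := hg0 j
    have h3 := hd0 (j : ValuationSubring F)
    rw [div_pow]
    field_simp
  refine ⟨fun j => mul_ne_zero (pow_ne_zero _ (hg0 j)) (hd0 j), fun j l => ?_,
    fun j l W hW hv => ?_⟩
  · show _ ∈ (K j).C.B
    rw [hrat, hB]
    exact Subring.mul_mem _ (le_adj (hn l _ ((hnN l).trans (Nat.le_succ _)) _ (K j).C.hg (hg0 j)))
      mem_adj
  · show Vle W (K l).C.B
    rw [hB] at hW ⊢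
    have hW' := (vle_adj_inv (hd j) (hd0 j)).mp hW
    obtain ⟨hWA, hdj⟩ := hW'
    rw [hrat, map_mul, map_inv₀, hdj, inv_one, mul_one] at hv
    have h2 : ((K l).C.g / (K j).C.g) ^ (N + 1) * d l =
        ((K l).C.g / (K j).C.g) ^ N * d l * ((K l).C.g / (K j).C.g) := by rw [pow_succ]; ring
    have h3 : W.valuation (((K l).C.g / (K j).C.g) ^ N * d l) ≤ 1 :=
      hWA _ (hn l _ (hnN l) _ (K j).C.hg (hg0 j))
    have h4 : W.valuation ((K l).C.g / (K j).C.g) ≤ 1 := hWA _ (mem_As (K l).C.hg)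
    have h5 : W.valuation ((K l).C.g / (K j).C.g) = 1 := by
      refine le_antisymm h4 ?_
      rw [← hv, h2, map_mul]
      exact mul_le_of_le_one_left' h3
    have h6 : W.valuation (K l).C.g = W.valuation (K j).C.g := by
      have h7 : 0 < W.valuation (K j).C.g := by rw [Valuation.pos_iff]; exact hg0 j
      rw [map_div₀, div_eq_one_iff_eq h7.ne'] at h5
      exact h5
    have h7 : Vle W (As s (K l).C.g) := by
      rw [vle_As (hg0 l), h6]
      exact (vle_As (hg0 j)).mp hWA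
    refine (vle_adj_inv (hd l) (hd0 l)).mpr ⟨h7, ?_⟩
    rw [map_mul, map_pow, h5, one_pow, one_mul] at hv
    exact hv

end Cover

section Bt

variable {p : ℕ} [hp : Fact p.Prime] {F : Type} [Field F] [CharP F p] {s : Finset F} {A : Type}
  [DecidableEq A] {t : A → ValuationSubring F → F} {f : F} {G : Finset F}

namespace AC

variable (K : AC p s t f G)

/-- The cutoff of a chart. -/
def bt (K : AC p s t f G) : F := K.C.x ^ (-((K.a / p : ℕ) : ℤ)) * K.C.y ^ (-((K.b / p : ℕ) : ℤ))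

theorem bt0 : K.bt ≠ 0 := mul_ne_zero (zpow_ne_zero _ K.C.ec.x0) (zpow_ne_zero _ K.C.ec.y0)

theorem bt_pow : K.N * K.bt ^ p = K.C.x ^ (K.a % p) * K.C.y ^ (K.b % p) := by
  have hx0 := K.C.ec.x0
  have hy0 := K.C.ec.y0
  have h1 : ∀ {z : F} {a : ℕ}, z ≠ 0 → z ^ a * (z ^ (-((a / p : ℕ) : ℤ))) ^ p = z ^ (a % p) := by
    intro z a hz
    rw [zpow_neg, zpow_natCast, inv_pow, ← pow_mul]
    have h2 : z ^ a = z ^ (a % p) * z ^ (a / p * p) := by
      rw [← pow_add, mul_comm (a / p), Nat.mod_add_div]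
    rw [h2, mul_inv_cancel_right₀ (pow_ne_zero _ hz)]
  rw [N, bt, mul_pow, ← h1 hx0, ← h1 hy0]
  ring

/-- Divisibility by the cutoff. -/
theorem div_bt {W : ValuationSubring F} {w : F} (hw : K.N * w ^ p ∈ vl W K.C.B) :
    w / K.bt ∈ vl W K.C.B := by
  have hec : EC p (vl W K.C.B) K.C.x K.C.y K.C.Dx K.C.Dy := K.C.ec.vl
  refine hec.root (Nat.mod_lt K.a hp.out.pos) (Nat.mod_lt K.b hp.out.pos) ?_
  have h2 : K.C.x ^ (K.a % p) * K.C.y ^ (K.b % p) * (w / K.bt) ^ p = K.N * w ^ p := by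
    have h3 := pow_ne_zero p K.bt0
    rw [← K.bt_pow, div_pow]
    field_simp
  rw [h2]
  exact hw

end AC

end Bt

section Main

variable {p : ℕ} [hp : Fact p.Prime] {F : Type} [Field F] [Algebra (ZMod p) F] [CharP F p]
  {s : Finset F} {A : Type} [Fintype A] [DecidableEq A] {t : A → ValuationSubring F → F} {f : F}
  {G : Finset F} {J : Type} {r M : ℕ} {h : Fin r → F} {c q : J → F} {T : A → Finset F}
  {S : Finset F} {W : ValuationSubring F}

/-- The local data of a good chart. -/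
theorem exists_fl_ac (K : AC p s t f G) (hg : K.Good) (hW : Vle W K.C.B) {κx κy : Fin r → ℤ}
    (κx0 : ∀ c, K.C.cx = none → κx c = 0) (κy0 : ∀ c, K.C.cy = none → κy c = 0)
    (MX : (K.a : ℤ) ≤ M ∧ ∀ c, |κx c| ≤ M) (MY : (K.b : ℤ) ≤ M ∧ ∀ c, |κy c| ≤ M) {j : J}
    (hq : q j = K.q) (hcj : c j ≠ 0)
    (eqh : ∀ d, ∃ w ∈ K.C.B, w⁻¹ ∈ K.C.B ∧ w ≠ 0 ∧ h d = K.C.x ^ κx d * K.C.y ^ κy d * w)
    (crat : ∀ l, c l / c j ∈ K.C.B)
    (gT : ∀ a, Gen K.C.B (T a) (tc K.C.cx K.C.cy K.C.x K.C.y a * c j))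
    (gS : Gen K.C.B S (c j * K.bt))
    (qd : ∀ l, c l / c j * (q j - q l) / K.bt ∈ K.C.B) :
    ∃ L : FL p true true 2 r M f h c q T S W, L.R = vl W K.C.B := by
  classical
  have hx0 := K.C.ec.x0
  have hy0 := K.C.ec.y0
  have hbt : K.bt = K.C.x ^ (-((K.a / p : ℕ) : ℤ)) * K.C.y ^ (-((K.b / p : ℕ) : ℤ)) := rfl
  have hfn : f - q j ^ p + q j = K.fn := by rw [hq]; rfl
  have hle : ∀ a : ℕ, (-(a : ℤ)) ≤ p * (-((a / p : ℕ) : ℤ)) := by
    intro a
    have h1 : ((p * (a / p) : ℕ) : ℤ) ≤ (a : ℤ) := by exact_mod_cast Nat.mul_div_le a p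
    push_cast at h1 ⊢
    linarith
  have hM1 : ∀ {a : ℕ}, (a : ℤ) ≤ M → |(-(a : ℤ))| ≤ M := by
    intro a ha
    rw [abs_neg, abs_of_nonneg (by positivity)]
    exact ha
  have hM2 : ∀ {a : ℕ}, (a : ℤ) ≤ M → |(-((a / p : ℕ) : ℤ))| ≤ M := by
    intro a ha
    refine hM1 (le_trans ?_ ha)
    exact_mod_cast Nat.div_le_self a p
  have hN : K.C.x ^ (-(K.a : ℤ)) * K.C.y ^ (-(K.b : ℤ)) = K.N⁻¹ := by
    rw [AC.N, zpow_neg, zpow_neg, zpow_natCast, zpow_natCast, mul_inv]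
  have hN' : K.C.y ^ (-(K.b : ℤ)) * K.C.x ^ (-(K.a : ℤ)) = K.N⁻¹ := by rw [mul_comm]; exact hN
  have hN0 := K.N0
  have hNB := K.N_mem
  have hu := K.N_fn
  have hfnN : K.fn = K.N⁻¹ * (K.N * K.fn) := by rw [inv_mul_cancel_left₀ hN0]
  have eqh' : ∀ d, ∃ v ∈ vl W K.C.B, W.valuation v = 1 ∧ h d = v * (K.C.x ^ κx d * K.C.y ^ κy d) := by
    intro d
    obtain ⟨w, hw, hw', hw0, h1⟩ := eqh d
    obtain ⟨h2, h3⟩ := mn_unt (A := A) (cx := none) (cy := none) (x := K.C.x) (y := K.C.y)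
      (g := w) (i := 0) (j := 0) hW hw hw' hw0
    exact ⟨w, h2, h3, by rw [h1]; ring⟩
  obtain ⟨E, hE⟩ := K.C.fg
  have hec := K.C.ec.vl (W := W)
  have hloc : VLocal W (vl W K.C.B) := vlocal_vl hW
  have hgT : ∀ a, Gen (vl W K.C.B) (T a) (tc K.C.cx K.C.cy K.C.x K.C.y a * c j) :=
    fun a => (gT a).mono le_vl
  have hgS : Gen (vl W K.C.B) S (c j * K.bt) := gS.mono le_vl
  have hqd : ∀ l, c l / c j * (q j - q l) / K.bt ∈ vl W K.C.B := fun l => le_vl (qd l)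
  have hcr : ∀ l, c l / c j ∈ vl W K.C.B := fun l => le_vl (crat l)
  have hb1 : W.valuation K.N ≤ 1 := hW _ hNB
  by_cases hNu : W.valuation K.N = 1
  · -- the unramified case
    have hbtU : Unt W (vl W K.C.B) K.bt := by
      have h1 : ∀ {z : F} {a : ℕ}, z ∈ K.C.B → z ≠ 0 → (0 < a → W.valuation z = 1) →
          Unt W (vl W K.C.B) (z ^ (-((a / p : ℕ) : ℤ))) := by
        intro z a hz hz0 hza
        rcases Nat.eq_zero_or_pos a with rfl | ha
        · rw [Nat.zero_div, Nat.cast_zero, neg_zero, zpow_zero]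
          exact Unt.one
        · exact Unt.zpow hloc ⟨le_vl hz, hza ha⟩ _
      have h2 : W.valuation (K.C.x ^ K.a) ≤ 1 := hW _ (K.C.B.pow_mem K.C.ec.hx _)
      have h3 : W.valuation (K.C.y ^ K.b) ≤ 1 := hW _ (K.C.B.pow_mem K.C.ec.hy _)
      have hN1 : W.valuation (K.C.x ^ K.a) * W.valuation (K.C.y ^ K.b) = 1 := by
        rw [← map_mul]; exact hNu
      have h4 : W.valuation (K.C.x ^ K.a) = 1 := by
        refine le_antisymm h2 ?_
        rw [← hN1]
        exact mul_le_of_le_one_right' h3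
      have h5 : W.valuation (K.C.y ^ K.b) = 1 := by rwa [h4, one_mul] at hN1
      have h6 : ∀ {z : F} {a : ℕ}, z ∈ K.C.B → W.valuation (z ^ a) = 1 → 0 < a →
          W.valuation z = 1 := by
        intro z a hz h1 ha
        refine le_antisymm (hW z hz) (not_lt.mp fun h7 => ?_)
        rw [map_pow] at h1
        exact absurd h1 (pow_lt_one₀ zero_le h7 (by omega)).ne
      exact (h1 K.C.ec.hx hx0 (h6 K.C.ec.hx h4)).mul (h1 K.C.ec.hy hy0 (h6 K.C.ec.hy h5))
    have hfnR : K.fn ∈ vl W K.C.B := by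
      rw [hfnN]
      exact Subring.mul_mem _ (inv_mem_vl hNB hNu) (le_vl hu)
    rw [hE] at hW hec hbtU hfnR eqh' hcr hgT hgS hqd ⊢
    exact exists_fl_un hW hec K.C.cxy κx0 κy0 MX.2 MY.2 hcj hfnR hfn hbtU eqh' hcr hgT hgS hqd
  · have hNl : W.valuation K.N < 1 := lt_of_le_of_ne hb1 hNu
    have hpole : 1 < W.valuation K.N⁻¹ := by
      rw [map_inv₀]
      have h1 : 0 < W.valuation K.N := by rw [Valuation.pos_iff]; exact hN0
      exact (one_lt_inv₀ h1).mpr hNl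
    -- one of the two derivatives is a unit
    obtain ⟨b₀, hb₀, b₁, hb₁, b₂, hb₂, h1⟩ := mem_I3.mp (show (1 : F) ∈ K.L from hg)
    have hvx : lv K.C.cx K.C.x K.C.Dx K.N K.fn ∈ K.C.B := lv_mem K.C.ec K.a0 K.hu
    have hvy : lv K.C.cy K.C.y K.C.Dy K.N K.fn ∈ K.C.B := by
      have h2 := lv_mem K.C.ec.swap (cx := K.C.cy) (a := K.b) (b := K.a) (f := K.fn) K.b0 (by
        rw [mul_comm (K.C.y ^ K.b)]; exact K.hu)
      rwa [mul_comm (K.C.y ^ K.b)] at h2
    have hlv : ∀ e : F, e / K.N⁻¹ = e * K.N := fun e => by rw [div_inv_eq_mul]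
    have huR : K.N * K.fn ∈ vl W K.C.B := le_vl hu
    by_cases hv : W.valuation (lv K.C.cx K.C.x K.C.Dx K.N K.fn) = 1
    · rw [hbt] at hgS hqd
      rw [hE] at hW hec huR eqh' hcr hgT hgS hqd ⊢
      refine exists_fl_as hW hec K.C.cxy (al := -(K.a : ℤ)) (be := -(K.b : ℤ))
        (a' := -((K.a / p : ℕ) : ℤ)) (b' := -((K.b / p : ℕ) : ℤ))
        (fun e => by rw [K.a0 e]; rfl) (fun e => by rw [K.b0 e]; rfl)
        (fun e => by rw [K.a0 e, Nat.zero_div]; rfl) (fun e => by rw [K.b0 e, Nat.zero_div]; rfl)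
        κx0 κy0 huR (hle _) (hle _) ⟨hM1 MX.1, hM2 MX.1, MX.2⟩ ⟨hM1 MY.1, hM2 MY.1, MY.2⟩ hfn
        ?_ ?_ ?_ eqh' hcr hgT hgS hqd
      · rw [hN]; exact hfnN
      · rw [hN, hlv]; exact hv
      · rw [hN]; exact hpole
    · have hv' : W.valuation (lv K.C.cy K.C.y K.C.Dy K.N K.fn) = 1 := by
        refine le_antisymm (hW _ hvy) (not_lt.mp fun h2 => ?_)
        have h3 := lt_of_le_of_ne (hW _ hvx) hv
        have h4 : W.valuation (1 : F) < 1 := by
          rw [h1]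
          refine W.valuation.map_add_lt (W.valuation.map_add_lt ?_ ?_) ?_
          · rw [map_mul]
            exact (mul_le_mul' le_rfl (hW _ hb₀)).trans_lt (by rw [mul_one]; exact hNl)
          · rw [map_mul]
            exact (mul_le_mul' le_rfl (hW _ hb₁)).trans_lt (by rw [mul_one]; exact h3)
          · rw [map_mul]
            exact (mul_le_mul' le_rfl (hW _ hb₂)).trans_lt (by rw [mul_one]; exact h2)
        rw [map_one] at h4
        exact lt_irrefl _ h4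
      rw [hbt, mul_comm (K.C.x ^ _)] at hgS hqd
      have eqh'' : ∀ d, ∃ v ∈ vl W K.C.B, W.valuation v = 1 ∧
          h d = v * (K.C.y ^ κy d * K.C.x ^ κx d) := by
        intro d
        obtain ⟨v, h2, h3, h4⟩ := eqh' d
        exact ⟨v, h2, h3, by rw [h4]; ring⟩
      have hgT' : ∀ a, Gen (vl W K.C.B) (T a) (tc K.C.cy K.C.cx K.C.y K.C.x a * c j) := fun a => by
        rw [tc_swap]; exact hgT a
      rw [hE] at hW hec huR eqh'' hcr hgT' hgS hqd ⊢
      refine exists_fl_as hW hec.swap (fun a ha hb => K.C.cxy a hb ha) (al := -(K.b : ℤ))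
        (be := -(K.a : ℤ)) (a' := -((K.b / p : ℕ) : ℤ)) (b' := -((K.a / p : ℕ) : ℤ))
        (fun e => by rw [K.b0 e]; rfl) (fun e => by rw [K.a0 e]; rfl)
        (fun e => by rw [K.b0 e, Nat.zero_div]; rfl) (fun e => by rw [K.a0 e, Nat.zero_div]; rfl)
        κy0 κx0 huR (hle _) (hle _) ⟨hM1 MY.1, hM2 MY.1, MY.2⟩ ⟨hM1 MX.1, hM2 MX.1, MX.2⟩ hfn
        ?_ ?_ ?_ eqh'' hcr hgT' hgS hqd
      · rw [hN']; exact hfnN
      · rw [hN', hlv]; exact hv'
      · rw [hN']; exact hpole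

/-- The colours on two charts. -/
theorem tc_div_ac (hs : ∀ g ∈ s, g ≠ 0) (K K' : AC p s t f G)
    (hW : Vle W K.C.B) (hW' : Vle W K'.C.B) (a : A) :
    tc K'.C.cx K'.C.cy K'.C.x K'.C.y a / tc K.C.cx K.C.cy K.C.x K.C.y a ∈ vl W K.C.B := by
  have h1 := (K.C.col a W hW).symm.trans (K'.C.col a W hW')
  rw [← K.C.Lc_eq hs hW]
  exact h1.ba

/-- **The data of a surface for an Artin-Schreier function.** -/
theorem exists_fd_as (hs : ∀ g ∈ s, g ≠ 0)
    (H : ∀ W, ∃ K : AC p s t f G, Vle W K.C.B ∧ K.Good) {r : ℕ} (h : Fin r → F)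
    (hh : ∀ c, h c ∈ G) : ∃ (J : Type) (_ : Finite J) (M : ℕ), ∀ M', M ≤ M' →
      Nonempty (FD p true true F A J 2 r M' f h) := by
  classical
  obtain ⟨J, i3, K, c₀, hgood, hcov, hall⟩ := exists_cover hs H
  have i4 := Fintype.ofFinite J
  -- the exponent
  obtain ⟨n, hn⟩ := hcov.exists_pow (ι := A ⊕ Bool)
    (Sum.elim (fun a j l => tc (K l).C.cx (K l).C.cy (K l).C.x (K l).C.y a /
      tc (K j).C.cx (K j).C.cy (K j).C.x (K j).C.y a) fun b => cond b
        (fun j l => (K l).bt / (K j).bt) fun j l => ((K j).q - (K l).q) / (K j).bt) (by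
    rintro (a | _ | _) j l W hW hW'
    · exact tc_div_ac hs (K j) (K l) hW hW' a
    · -- the gauges
      refine (K j).div_bt ?_
      obtain ⟨-, h1⟩ := AC.cmp hs (K j) (K l) hW hW' (hgood j) (hgood l)
      rw [(K j).C.Lc_eq hs hW] at h1
      have h2 : (K j).N * ((K j).q - (K l).q) ^ p = -((K j).N * ((K l).q - (K j).q) ^ p) := by
        rw [sub_pow_char, sub_pow_char]; ring
      rw [h2]
      exact Subring.neg_mem _ h1
    · -- the cutoffs
      refine (K j).div_bt ?_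
      obtain ⟨hN, -⟩ := AC.cmp hs (K j) (K l) hW hW' (hgood j) (hgood l)
      rw [(K j).C.Lc_eq hs hW] at hN
      have h1 : (K j).N * (K l).bt ^ p = (K j).N / (K l).N *
          ((K l).C.x ^ ((K l).a % p) * (K l).C.y ^ ((K l).b % p)) := by
        rw [← (K l).bt_pow]
        have := (K l).N0
        field_simp
      rw [h1]
      have hx := (K l).C.lc W hW' (K l).C.ec.hx
      have hy := (K l).C.lc W hW' (K l).C.ec.hy
      rw [(K j).C.Lc_eq hs hW] at hx hy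
      exact Subring.mul_mem _ hN.ab (Subring.mul_mem _ (Subring.pow_mem _ hx _)
        (Subring.pow_mem _ hy _)))
  set m := max n 1 with hm
  have hm0 : m ≠ 0 := by
    have := le_max_right n 1
    omega
  have hn' := hn m (le_max_left _ _)
  set c : J → F := fun j => c₀ j ^ m with hc
  have hcov' : Cov (fun j => (K j).C.B) c := hcov.pow hm0
  have hT : ∀ (a : A) j l, c l / c j * (tc (K l).C.cx (K l).C.cy (K l).C.x (K l).C.y a /
      tc (K j).C.cx (K j).C.cy (K j).C.x (K j).C.y a) ∈ (K j).C.B := by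
    intro a j l
    have h1 := hn' (Sum.inl a) j l
    rw [div_pow] at h1
    exact h1
  have hS : ∀ j l, c l / c j * ((K l).bt / (K j).bt) ∈ (K j).C.B := by
    intro j l
    have h1 := hn' (Sum.inr true) j l
    rw [div_pow] at h1
    exact h1
  have hQ : ∀ j l, c l / c j * ((K j).q - (K l).q) / (K j).bt ∈ (K j).C.B := by
    intro j l
    have h1 := hn' (Sum.inr false) j l
    rw [div_pow] at h1
    rw [mul_div_assoc]
    exact h1
  -- the exponents of the Kummer functions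
  choose κx κy κx0 κy0 w hw hw' hw0 hwe using fun (j : J) (d : Fin r) => (K j).C.mn (h d) (hh d)
  obtain ⟨M₁, hM₁⟩ := exists_bound fun j : J => ((K j).a : ℤ)
  obtain ⟨M₂, hM₂⟩ := exists_bound fun j : J => ((K j).b : ℤ)
  obtain ⟨M₅, hM₅⟩ := exists_bound fun x : J × Fin r => κx x.1 x.2
  obtain ⟨M₆, hM₆⟩ := exists_bound fun x : J × Fin r => κy x.1 x.2
  refine ⟨J, i3, M₁ + M₂ + M₅ + M₆, fun M' hM' => ⟨?_⟩⟩
  have hb : ∀ {z : ℤ} {m : ℕ}, |z| ≤ m → m ≤ M₁ + M₂ + M₅ + M₆ → |z| ≤ M' :=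
    fun h1 h2 => h1.trans (by exact_mod_cast h2.trans hM')
  refine ⟨c, hcov'.c0, fun j => (K j).q, fun a => Finset.univ.image fun l =>
    c l * tc (K l).C.cx (K l).C.cy (K l).C.x (K l).C.y a,
    Finset.univ.image fun l => c l * (K l).bt, {s}, fun s' hs' => ?_, fun W => ?_⟩
  · rw [Finset.mem_singleton] at hs'
    obtain ⟨j, -⟩ := hall ⊤
    rw [hs']
    exact ⟨(K j).C.g, (K j).C.hg, hs _ (K j).C.hg⟩
  obtain ⟨j, hW⟩ := hall W
  have hne : ∃ g ∈ s, g ≠ 0 := ⟨(K j).C.g, (K j).C.hg, hs _ (K j).C.hg⟩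
  have gT : ∀ a, Gen (K j).C.B (Finset.univ.image fun l =>
      c l * tc (K l).C.cx (K l).C.cy (K l).C.x (K l).C.y a)
      (tc (K j).C.cx (K j).C.cy (K j).C.x (K j).C.y a * c j) := by
    intro a
    rw [mul_comm]
    exact gen_sec (B := fun j => (K j).C.B)
      (e := fun l => tc (K l).C.cx (K l).C.cy (K l).C.x (K l).C.y a)
      hcov'.c0 (fun l => tc_ne (K l).C.ec.x0 (K l).C.ec.y0 a) (hT a) j
  have gS : Gen (K j).C.B (Finset.univ.image fun l => c l * (K l).bt) (c j * (K j).bt) :=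
    gen_sec (B := fun j => (K j).C.B) (e := fun l => (K l).bt) hcov'.c0 (fun l => (K l).bt0) hS j
  obtain ⟨L, hL⟩ := exists_fl_ac (M := M') (q := fun j => (K j).q) (c := c) (h := h) (j := j)
    (K j) (hgood j) hW (κx0 j) (κy0 j)
    ⟨(le_abs_self _).trans (hb (hM₁ j) (by omega)), fun d => hb (hM₅ (j, d)) (by omega)⟩
    ⟨(le_abs_self _).trans (hb (hM₂ j) (by omega)), fun d => hb (hM₆ (j, d)) (by omega)⟩ rfl
    (hcov'.c0 j) (fun d => ⟨w j d, hw j d, hw' j d, hw0 j d, hwe j d⟩) (hcov'.rat j) gT gS (hQ j)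
  have hlst := lst_Lc hne W
  rw [(K j).C.Lc_eq hs hW] at hlst
  refine ⟨L, fun s' hs' => ?_, fun R' hR' hP => ?_⟩
  · rw [Finset.mem_singleton] at hs'
    rw [hs', hL]
    exact hlst.pr
  · rw [hL]
    exact hlst.min R' hR' (hP s (Finset.mem_singleton_self _))

end Main

end Pool.Agent.H96.X
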