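import Pool.Agent.H96.X.Geo

/-!
# The drop of the measure at the centre
-/

set_option autoImplicit false
set_option linter.unusedSectionVars false

namespace Pool.Agent.H96.X

open Pool.Agent.H96.S Pool.Agent.H96.VL
open scoped Pointwise

section Step

variable {p : ℕ} [hp : Fact p.Prime] {F : Type} [Field F] [CharP F p] [DecidableEq F] {s : Finset F}
  {A : Type} [DecidableEq A] {t : A → ValuationSubring F → F} {f : F} {G : Finset F}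
  {W W₀ : ValuationSubring F} {c : Finset F} {N : ℕ}

/-- **The drop of the measure.** -/
theorem AC.step (K : AC p s t f G) (hs : ∀ g ∈ s, g ≠ 0) (hc0 : ∀ g ∈ c, g ≠ 0)
    (hcn : Cn s W₀ c N) {o : ℕ ×ₗ ℕ} (h : K.Pd W₀ o) (hng : ¬ K.Good) (hW : Lc s W = Lc s W₀)
    (ht : W.valuation (K.C.y / K.C.x) ≤ 1) {x₀ y₀ : F} {cx₀ cy₀ : Option A}
    (hE : ∀ W₁, (∃ g ∈ s * c, g ≠ 0) → Vle W₁ K.C.Sb →
      Un (Lc (s * c) W₁) (eW s W₀ x₀ y₀ W₁) K.C.x)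
    (hcc : ∀ b, (cx₀ = some b ∨ cy₀ = some b) ↔ (K.C.cx = some b ∨ K.C.cy = some b)) :
    ∃ (K' : AC p (s * c) (tb t s W₀ x₀ y₀ cx₀ cy₀) f G) (W' : ValuationSubring F) (o' : ℕ ×ₗ ℕ),
      o' < o ∧ Vle W K'.C.B ∧ K'.Pd W' o' := by
  classical
  obtain ⟨nx, ny, hms, hψ⟩ := h.ms
  obtain ⟨m₀, hxm, hym⟩ := h.m
  obtain ⟨C₁, W', hal₁, hbe₁, hgz, hpt₁, hSb, hvl, hx₁, hy₁S, hDx₁, hDy₁, hcx₁, hW'S, hx', hy',
    hcase⟩ := geo_step K.C K.al0 K.be0 hs hcn h.geo hW ht hE hcc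
  have hx0 := K.C.ec.x0
  have hy0 := K.C.ec.y0
  have hW'B : Vle W' K.C.B := hW'S.mono le_adj
  have hpt' : Pt p W' K.C.B K.C.x K.C.y := h.pt.transfer hW'B hx' hy'
  have hRR : vl W' K.C.B = vl W₀ K.C.B := h.pt.vl_eq hW'B hx' hy'
  have hms' : Ms p W' (vl W' K.C.B) K.C.x K.C.y K.C.Dx K.C.Dy K.fn K.a K.b nx ny := by
    have h1 := Lr.of K.C.ec K.C.fg hW'B hpt'.clo hx' hy'
    rw [hRR] at h1 ⊢
    exact ⟨h1, hms.bf, hms.hu, hms.ox, hms.oy⟩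
  have hab : 0 < K.a ∨ 0 < K.b := by
    by_contra hcon
    push Not at hcon
    exact hng (one_LA (Nat.le_zero.mp hcon.1) (Nat.le_zero.mp hcon.2))
  have hLm : K.L ≤ mm K.C.B K.C.x K.C.y := hpt'.le_mm K.C.ec.hx K.C.ec.hy K.idl hxm hym hng
  have hvm : W'.valuation (lv K.C.cx K.C.x K.C.Dx (K.C.x ^ K.a * K.C.y ^ K.b) K.fn) < 1 :=
    hpt'.lt (hLm (mem_I3.mpr ⟨0, K.C.B.zero_mem, 1, K.C.B.one_mem, 0, K.C.B.zero_mem, by ring⟩))
  have hwm : W'.valuation (lv K.C.cy K.C.y K.C.Dy (K.C.x ^ K.a * K.C.y ^ K.b) K.fn) < 1 :=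
    hpt'.lt (hLm (mem_I3.mpr ⟨0, K.C.B.zero_mem, 0, K.C.B.zero_mem, 1, K.C.B.one_mem, by ring⟩))
  have hum := hms'.small hab K.a0 K.b0 hvm hwm
  obtain ⟨μ, hμ, hμx, hμy, hPw, hPw'⟩ := hms'.exists_mu hab hum
  obtain ⟨k, hk⟩ : ∃ k, k = min μ (K.a + K.b) := ⟨_, rfl⟩
  have hs' : ∀ g ∈ s * c, g ≠ 0 := by
    intro g hg'
    obtain ⟨a, ha, b, hb, rfl⟩ := Finset.mem_mul.mp hg'
    exact mul_ne_zero (hs a ha) (hc0 b hb)
  have hRS : vl W' (adj (vl W' K.C.B) (K.C.y / K.C.x)) = vl W' C₁.B := by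
    rw [hvl]
    exact vl_adj_vl hW'B (hW'S _ mem_adj)
  have hlr : Lr p W' (vl W' (adj (vl W' K.C.B) (K.C.y / K.C.x))) K.C.x C₁.y
      (K.C.Dx + (K.C.y / K.C.x) • K.C.Dy) (K.C.x • K.C.Dy) := by
    have h1 := Lr.of C₁.ec C₁.fg hgz.le' hpt₁.clo hpt₁.vx hpt₁.vy
    rw [hx₁, hDx₁, hDy₁] at h1
    rw [hRS]
    exact h1
  have hyt : K.C.y = K.C.x * (K.C.y / K.C.x) := K.C.yxt
  have ha₁ : ∀ n : ℕ, C₁.cx = none → n = 0 := fun n h1 => by rw [hcx₁] at h1; cases h1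
  obtain ⟨i, j, hi, hj, hq⟩ := K.pq
  rcases hcase with ⟨hcy₁, hcy, hy₁, hτ⟩ | ⟨hcy₁, hτ⟩
  · -- the origin
    rw [hy₁] at hlr
    obtain ⟨n, hn, hms2⟩ := hms'.t1 hτ hlr hab hμ hμy hPw hPw' hk
    rw [hRS, ← hDx₁, ← hDy₁, ← hy₁, ← hx₁] at hms2
    have hq₁ : Pb (vl W' C₁.B) C₁.cx C₁.cy C₁.x C₁.y K.q := by
      refine ⟨i + j, j, ha₁ _, fun h1 => ?_, ?_⟩
      · rw [hcy₁, map_none_iff] at h1
        exact hj h1
      · have h1 : C₁.x ^ (i + j) * C₁.y ^ j * K.q = K.C.x ^ i * K.C.y ^ j * K.q := by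
          rw [hx₁, hy₁, pow_add, div_pow]
          field_simp
        rw [h1]
        exact le_vl (hSb (le_adj hq))
    obtain ⟨K', hK1, hK2⟩ := exists_ac hs' C₁ hal₁ hbe₁ hgz hpt₁ hq₁ (a := K.a + K.b - k)
      (b := K.b) (nx := n) (ny := ny - k) (ha₁ _) (fun h1 => by
        rw [hcy₁, map_none_iff] at h1
        exact K.b0 h1) hms2
    refine ⟨K', W', _, lt_of_lt_of_le ?_ hψ, hK1, hK2⟩
    have h1 : C₁.cx.isSome = true := by rw [hcx₁]; rfl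
    have h2 : C₁.cy.isSome = true := by rw [hcy₁, Option.isSome_map]; exact hcy
    rw [h1, h2, hcy]
    exact Psi_T1 hab hμ hμx hμy hk hn fun e1 e2 e3 e4 => by
      subst e3
      exact hms'.no_exc e1 e2 e4 hPw hPw'
  · -- the other points
    have htb : K.b = 0 ∨ W'.valuation (K.C.y / K.C.x) = 1 := hτ.imp (fun h1 => K.b0 h1) id
    have hy₁' : C₁.y ∈ adj (vl W' K.C.B) (K.C.y / K.C.x) := by
      have h1 : K.C.Sb ≤ adj (vl W' K.C.B) (K.C.y / K.C.x) := adj_le (le_vl.trans le_adj) mem_adj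
      exact h1 hy₁S
    obtain ⟨r, hr, n, hn, hn', hms2⟩ := hms'.t2 (hW'S _ mem_adj) htb hy₁' hlr hab hμ hPw hPw' hk
    rw [hRS, ← hDx₁, ← hDy₁, ← hx₁] at hms2
    rw [hRS] at hr
    have hq₁ : Pb (vl W' C₁.B) C₁.cx C₁.cy C₁.x C₁.y K.q := by
      refine ⟨i + j, 0, ha₁ _, fun _ => rfl, ?_⟩
      rw [pow_zero, mul_one, hx₁]
      have h0 : K.C.x ^ i * K.C.y ^ j * K.q ∈ vl W' C₁.B := le_vl (hSb (le_adj hq))
      rcases hτ with h1 | h1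
      · rw [hj h1, pow_zero, mul_one] at h0
        rw [hj h1, add_zero]
        exact h0
      · have h2 : (K.C.y / K.C.x)⁻¹ ∈ vl W' C₁.B := inv_mem_vl (hSb mem_adj) h1
        have h3 : K.C.x ^ (i + j) * K.q = (K.C.y / K.C.x)⁻¹ ^ j * (K.C.x ^ i * K.C.y ^ j * K.q) := by
          rw [inv_div, div_pow, pow_add]
          field_simp
        rw [h3]
        exact Subring.mul_mem _ (Subring.pow_mem _ h2 _) h0
    have hr₁ : Pb (vl W' C₁.B) C₁.cx C₁.cy C₁.x C₁.y r := by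
      refine ⟨(K.a + K.b - k) / p, 0, ha₁ _, fun _ => rfl, ?_⟩
      rw [pow_zero, mul_one, hx₁]
      exact hr
    have hx₁R : C₁.x ∈ vl W' C₁.B := le_vl C₁.ec.hx
    have hy₁R : C₁.y ∈ vl W' C₁.B := le_vl C₁.ec.hy
    have hfn : K.fn - r ^ p + r = f - (K.q + r) ^ p + (K.q + r) := by
      rw [AC.fn, add_pow_char]; ring
    rw [hfn] at hms2
    obtain ⟨K', hK1, hK2⟩ := exists_ac hs' C₁ hal₁ hbe₁ hgz hpt₁ (hq₁.add hx₁R hy₁R hr₁)
      (a := K.a + K.b - k) (b := 0) (nx := n) (ny := 0) (ha₁ _) (fun _ => rfl) hms2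
    refine ⟨K', W', _, lt_of_lt_of_le ?_ hψ, hK1, hK2⟩
    have h1 : C₁.cx.isSome = true := by rw [hcx₁]; rfl
    have h2 : C₁.cy.isSome = false := by rw [hcy₁]; rfl
    rw [h1, h2]
    have h3 : ∀ {o : Option A}, o.isSome = false → o = none := by
      intro o ho
      cases o with
      | none => rfl
      | some b => cases ho
    exact Psi_T2 hp.out.two_le hab (fun e => K.a0 (h3 e)) (fun e => K.b0 (h3 e)) hμ hμx hμy hk hn hn'

/-- The charts at the centre. -/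
theorem AC.at_centre (K : AC p s t f G) (hs : ∀ g ∈ s, g ≠ 0) (hc0 : ∀ g ∈ c, g ≠ 0)
    (hcn : Cn s W₀ c N) {o : ℕ ×ₗ ℕ} (h : K.Pd W₀ o) (hng : ¬ K.Good) (hW : Lc s W = Lc s W₀) :
    ∃ (K' : AC p (s * c) (tb t s W₀ K.C.x K.C.y K.C.cx K.C.cy) f G) (W' : ValuationSubring F)
      (o' : ℕ ×ₗ ℕ), o' < o ∧ Vle W K'.C.B ∧ K'.Pd W' o' := by
  have hx0 := K.C.ec.x0
  have hy0 := K.C.ec.y0
  have hyx : 0 < W.valuation (K.C.y / K.C.x) := by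
    rw [Valuation.pos_iff]; exact div_ne_zero hy0 hx0
  by_cases h1 : W.valuation (K.C.y / K.C.x) ≤ 1
  · exact K.step hs hc0 hcn h hng hW h1 (fun W₁ hsc hW₁ => (h.geo.eW_un hs hcn hsc hW₁).1)
      fun b => Iff.rfl
  · have hng' : ¬ K.swap.Good := by
      intro h2
      exact hng (by rw [Good, L_swap] at h2; exact h2)
    have h2 : W.valuation (K.swap.C.y / K.swap.C.x) ≤ 1 := by
      have h3 : K.swap.C.y / K.swap.C.x = (K.C.y / K.C.x)⁻¹ := (inv_div _ _).symm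
      rw [h3, map_inv₀]
      rw [not_le] at h1
      exact inv_le_one_of_one_le₀ h1.le
    exact K.swap.step hs hc0 hcn h.swap hng' hW h2
      (fun W₁ hsc hW₁ => (h.swap.geo.eW_un hs hcn hsc hW₁).2) fun b => or_comm

end Step

end Pool.Agent.H96.X
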