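import Pool.Agent.H96.X.Phi
import Pool.Agent.H96.X.Psi

/-!
# The transition to the points of the exceptional curve
-/

set_option autoImplicit false
set_option linter.unusedSectionVars false

namespace Pool.Agent.H96.X

open Polynomial IsLocalRing Pool.Agent.H96.S Pool.Agent.H96.VL Pool.Agent.H96.Reg
  Pool.Agent.H96.W

section Ord

variable {p : ℕ} [hp : Fact p.Prime] {F : Type} [Field F] [CharP F p] {W : ValuationSubring F}
  {R : Subring F} {x y : F} {Dx Dy : Derivation ℤ F F} {u : F} {n k : ℕ}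

theorem pw_le (h : Lr p W R x y Dx Dy) (hu : Pw R x y k u) {s : F} (hs : IsU R s)
    (hus : Mul R x (u - y ^ n * s)) : k ≤ n := by
  by_contra hcon
  rw [not_le] at hcon
  obtain ⟨g, hg, h1⟩ := hu
  obtain ⟨v, hv, h2⟩ := hus
  have hec := h.ec
  -- modulo `x`
  obtain ⟨r, hr, h3⟩ : Mul R x (u - g k * y ^ k) := by
    rw [h1, Finset.sum_range_succ, Nat.sub_self, pow_zero, one_mul, add_sub_cancel_right]
    refine ⟨∑ i ∈ Finset.range k, g i * (x ^ (k - i - 1) * y ^ i), R.sum_mem fun i _ =>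
      R.mul_mem (hg i) (R.mul_mem (R.pow_mem hec.hx _) (R.pow_mem hec.hy _)), ?_⟩
    rw [Finset.mul_sum]
    refine Finset.sum_congr rfl fun i hi => ?_
    rw [Finset.mem_range] at hi
    have h4 : x ^ (k - i) = x * x ^ (k - i - 1) := by rw [← pow_succ']; congr 1; omega
    rw [h4]; ring
  have h5 : IsU R (s - g k * y ^ (k - n)) := by
    refine h.isU (R.sub_mem hs.2.1 (R.mul_mem (hg k) (R.pow_mem hec.hy _))) ?_
    have h6 : W.valuation (g k * y ^ (k - n)) < 1 := by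
      rw [map_mul, map_pow]
      refine (mul_le_mul' (h.loc.le _ (hg k)) le_rfl).trans_lt ?_
      rw [one_mul]
      exact pow_lt_one₀ zero_le h.pt.vy (by omega)
    have h7 := IsU.val h.loc hs
    rw [W.valuation.map_sub_eq_of_lt_left (by rw [h7]; exact h6), h7]
  apply lr_not_x h (n := n) h5
  refine ⟨r - v, R.sub_mem hr hv, ?_⟩
  have h6 : y ^ k = y ^ n * y ^ (k - n) := by rw [← pow_add]; congr 1; omega
  linear_combination h3 - h2 + g k * h6

/-- The order. -/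
theorem exists_ord (h : Lr p W R x y Dx Dy) (hu : u ∈ R) (hv : W.valuation u < 1) {N : ℕ}
    (hN : ¬ Pw R x y (N + 1) u) : ∃ μ, 1 ≤ μ ∧ μ ≤ N ∧ Pw R x y μ u ∧ ¬ Pw R x y (μ + 1) u := by
  classical
  have hex : ∃ n, ¬ Pw R x y (n + 1) u := ⟨N, hN⟩
  have h1 := Nat.find_spec hex
  have h0 : Nat.find hex ≠ 0 := by
    intro h0
    rw [h0] at h1
    apply h1
    have h2 := (Pw.zero_iff (x := x) (y := y)).mpr R.one_mem
    have h3 := h2.succ (c := u) (h.pt.mem_mm hu hv)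
    rwa [mul_one] at h3
  obtain ⟨m, hm⟩ := Nat.exists_eq_succ_of_ne_zero h0
  have h2 := Nat.find_min hex (m := m) (by rw [hm]; exact Nat.lt_succ_self m)
  rw [not_not] at h2
  refine ⟨Nat.find hex, by omega, Nat.find_min' hex hN, ?_, h1⟩
  rw [hm]
  exact h2

theorem Ms.exists_mu {f : F} {a b nx ny : ℕ} (h : Ms p W R x y Dx Dy f a b nx ny)
    (hab : 0 < a ∨ 0 < b) (hv : W.valuation (x ^ a * y ^ b * f) < 1) :
    ∃ μ, 1 ≤ μ ∧ (0 < a → μ ≤ nx) ∧ (0 < b → μ ≤ ny) ∧ Pw R x y μ (x ^ a * y ^ b * f) ∧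
      ¬ Pw R x y (μ + 1) (x ^ a * y ^ b * f) := by
  have hx : 0 < a → ∀ k, Pw R x y k (x ^ a * y ^ b * f) → k ≤ nx := by
    intro ha k hk
    obtain ⟨s, hs, h1⟩ := h.ox ha
    exact pw_le h.lr hk hs h1
  have hy : 0 < b → ∀ k, Pw R x y k (x ^ a * y ^ b * f) → k ≤ ny := by
    intro hb k hk
    obtain ⟨s, hs, h1⟩ := h.oy hb
    exact pw_le h.lr.swap hk.swap hs h1
  rcases hab with ha | hb
  · obtain ⟨μ, h1, h2, h3, h4⟩ := exists_ord h.lr h.hu hv (N := nx) fun h1 => by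
      have := hx ha _ h1
      omega
    exact ⟨μ, h1, fun _ => h2, fun hb => hy hb μ h3, h3, h4⟩
  · obtain ⟨μ, h1, h2, h3, h4⟩ := exists_ord h.lr h.hu hv (N := ny) fun h1 => by
      have := hy hb _ h1
      omega
    exact ⟨μ, h1, fun ha => hx ha μ h3, fun _ => h2, h3, h4⟩

/-- The leading form. -/
theorem lead {ph : F → (ResidueField W)[X]} (h : EC p R x y Dx Dy) (hP : Pt p W R x y)
    (ht : W.valuation (y / x) ≤ 1) (hph : Ph W R x (y / x) (x • Dy) ph) (hu : u ∈ R)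
    (h1 : Pw R x y k u) (h2 : ¬ Pw R x y (k + 1) u) :
    u / x ^ k ∈ adj R (y / x) ∧ ph (u / x ^ k) ≠ 0 ∧ (ph (u / x ^ k)).natDegree ≤ k := by
  have hx0 := h.x0
  obtain ⟨g, hg, h3⟩ := id h1
  have h4 : u / x ^ k = ∑ i ∈ Finset.range (k + 1), g i * (y / x) ^ i := by
    rw [h3, Finset.sum_div]
    refine Finset.sum_congr rfl fun i hi => ?_
    rw [Finset.mem_range] at hi
    have h5 : x ^ k = x ^ (k - i) * x ^ i := by rw [← pow_add]; congr 1; omega
    rw [h5, div_pow]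
    field_simp
  have hS : u / x ^ k ∈ adj R (y / x) := by
    rw [h4]
    exact Subring.sum_mem _ fun i _ => Subring.mul_mem _ (le_adj (hg i)) (Subring.pow_mem _ mem_adj _)
  refine ⟨hS, fun h5 => h2 ?_, ?_⟩
  · obtain ⟨s, hs, h6⟩ := (hph.zero _ hS).mp h5
    refine h.pw_of_mul hP ht (k + 1) hu ⟨s, hs, ?_⟩
    rw [div_eq_iff (pow_ne_zero _ hx0)] at h6
    rw [h6, pow_succ]; ring
  · rw [h4, hph.sum hg]
    refine natDegree_sum_le_of_forall_le _ _ fun i hi => ?_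
    rw [Finset.mem_range] at hi
    exact (natDegree_C_mul_X_pow_le _ _).trans (by omega)

end Ord

section Bf

variable {p : ℕ} [hp : Fact p.Prime] {F : Type} [Field F] [CharP F p] {W : ValuationSubring F}
  {R : Subring F} {x y : F} {Dx Dy : Derivation ℤ F F} {f : F}

/-- **The leading form of a best form is not a power.** -/
theorem ph_ne {ph : F → (ResidueField W)[X]} (h : EC p R x y Dx Dy)
    (hph : Ph W R x (y / x) (x • Dy) ph) {a' b : ℕ} (ha' : 0 < a') (hpa : p ∣ a')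
    (hbf : ∃ c ∈ R, pr p x y Dx Dy f = c ^ p)
    (hu : x ^ a' * (y / x) ^ b * f ∈ adj R (y / x)) (h0 : ph (x ^ a' * (y / x) ^ b * f) ≠ 0) :
    ph ((y / x) * (x • Dy) (x ^ a' * (y / x) ^ b * f) - b * (x ^ a' * (y / x) ^ b * f)) ≠ 0 := by
  intro h1
  have hx0 := h.x0
  set t := y / x with htd
  have ht0 : t ≠ 0 := div_ne_zero h.y0 hx0
  set S := adj R t with hS
  set D : Derivation ℤ F F := x • Dy with hD
  set u := x ^ a' * t ^ b * f with hu'
  have hb : EC p S x t (Dx + t • Dy) D := h.blow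
  have hp2 := hp.out.two_le
  have hxS : x ∈ S := le_adj h.hx
  obtain ⟨q, hq⟩ : ∃ q, p - 1 = q + 1 := ⟨p - 2, by omega⟩
  have hg : t * D u - b * u ∈ S := S.sub_mem (S.mul_mem mem_adj (hph.der u hu).1)
    (S.mul_mem (natCast_mem _ _) hu)
  obtain ⟨s, hs, h2⟩ := (hph.zero _ hg).mp h1
  -- the function `v`
  set v := x ^ a' * f with hv
  have hvu : v = t ^ (-(b : ℤ)) * u := by
    rw [hv, hu', zpow_neg, zpow_natCast]
    field_simp
  have hNx := mul_zpow_x hb 1 (-(b : ℤ))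
  have hNy := mul_zpow_y hb 1 (-(b : ℤ))
  have e1 : Mul S (x ^ (1 : ℤ) * t ^ (-(b : ℤ))) (th t D v) := by
    refine ⟨s, hs, ?_⟩
    have h3 : D (t ^ (-(b : ℤ))) * t = -(b : F) * t ^ (-(b : ℤ)) := by
      rw [Derivation.leibniz_zpow, hb.yy, smul_eq_mul, zsmul_eq_mul, mul_one, zpow_sub_one₀ ht0]
      push_cast
      field_simp
    rw [th_apply, hvu, Derivation.leibniz, smul_eq_mul, smul_eq_mul, zpow_one]
    linear_combination t ^ (-(b : ℤ)) * h2 + u * h3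
  have e2 : Mul S (x ^ (1 : ℤ) * t ^ (-(b : ℤ))) ((th t D ^ (p - 1)) v) := by
    rw [hq, pow_succ, Module.End.mul_apply]
    exact hb.th_pow_mul hb.hy hb.dy hNy e1 q
  have e3 : Mul S (x ^ (1 : ℤ) * t ^ (-(b : ℤ))) ((th x (Dx + t • Dy) ^ (p - 1)) v) := by
    rw [hq, pow_succ, Module.End.mul_apply]
    refine hb.th_pow_mul hb.hx hb.dx hNx ⟨(Dx + t • Dy) u, hb.dx u hu, ?_⟩ q
    have h3 : (Dx + t • Dy) (t ^ (-(b : ℤ))) = 0 := by
      rw [Derivation.leibniz_zpow, hb.xy, smul_zero, smul_zero]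
    rw [th_apply, hvu, Derivation.leibniz, h3, smul_zero, add_zero, smul_eq_mul, zpow_one]
    ring
  have e4 : Mul S (x ^ (1 : ℤ) * t ^ (-(b : ℤ))) ((th x (Dx + t • Dy) ^ (p - 1))
      (v - (th t D ^ (p - 1)) v)) := by
    rw [map_sub]
    exact e3.sub (hb.th_pow_mul hb.hx hb.dx hNx e2 _)
  obtain ⟨s₁, hs₁, e5⟩ := e2.add e4
  obtain ⟨c, hc, hbf⟩ := hbf
  have e6 : pr p x t (Dx + t • Dy) D v = x ^ a' * c ^ p := by
    rw [pr_blow h, hv]
    obtain ⟨l, hl⟩ := hpa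
    rw [hl, mul_comm p l, pow_mul, pr_pow_mul, hbf]
  have e7 : pr p x t (Dx + t • Dy) D v = v - x ^ (1 : ℤ) * t ^ (-(b : ℤ)) * s₁ := by
    rw [← e5, pr_apply]; ring
  apply h0
  rw [hph.zero u hu]
  refine ⟨x ^ (a' - 1) * t ^ b * c ^ p + s₁, S.add_mem (S.mul_mem (S.mul_mem (S.pow_mem hxS _)
    (S.pow_mem mem_adj _)) (S.pow_mem (le_adj hc) _)) hs₁, ?_⟩
  rw [e6] at e7
  have h6 : x ^ a' = x * x ^ (a' - 1) := by rw [← pow_succ']; congr 1; omega
  have h7 : v = x ^ a' * c ^ p + x * t ^ (-(b : ℤ)) * s₁ := by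
    rw [zpow_one] at e7
    linear_combination -e7
  have h8 : u = t ^ b * v := by
    rw [hu', hv]; ring
  rw [h8, h7, h6, zpow_neg, zpow_natCast]
  field_simp

end Bf

end Pool.Agent.H96.X
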