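import Pool.Agent.H96.X.Trn

/-!
# The data at the points of the exceptional curve
-/

set_option autoImplicit false
set_option linter.unusedSectionVars false

namespace Pool.Agent.H96.X

open Polynomial IsLocalRing Pool.Agent.H96.S Pool.Agent.H96.VL Pool.Agent.H96.Reg
  Pool.Agent.H96.W

section T1

variable {p : ℕ} [hp : Fact p.Prime] {F : Type} [Field F] [CharP F p] {W : ValuationSubring F}
  {R : Subring F} {x y : F} {Dx Dy : Derivation ℤ F F} {f : F} {a b nx ny μ k : ℕ}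

theorem new_u (hx0 : x ≠ 0) (hk : k ≤ a + b) :
    x ^ (a + b - k) * (y / x) ^ b * f = x ^ a * y ^ b * f / x ^ k := by
  have h1 : x ^ (a + b) = x ^ (a + b - k) * x ^ k := by rw [← pow_add]; congr 1; omega
  have h2 : x ^ (a + b - k) = x ^ (a + b) / x ^ k := by
    rw [h1, mul_div_cancel_right₀ _ (pow_ne_zero _ hx0)]
  rw [h2, div_pow, pow_add]
  field_simp

theorem u_mem (h : EC p R x y Dx Dy) {u : F} (hu : Pw R x y μ u) (hk : k ≤ μ) :
    u / x ^ k ∈ adj R (y / x) := by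
  have hx0 := h.x0
  obtain ⟨s, hs, h1⟩ := hu.mul hx0
  have h2 : x ^ μ = x ^ (μ - k) * x ^ k := by rw [← pow_add]; congr 1; omega
  rw [h1, h2]
  have h3 : x ^ (μ - k) * x ^ k * s / x ^ k = x ^ (μ - k) * s := by field_simp
  rw [h3]
  exact Subring.mul_mem _ (Subring.pow_mem _ (le_adj h.hx) _) hs

/-- The data at the point where the exceptional curve meets the second coordinate. -/
theorem Ms.t1 (h : Ms p W R x y Dx Dy f a b nx ny) (ht : W.valuation (y / x) < 1)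
    (hlr : Lr p W (vl W (adj R (y / x))) x (y / x) (Dx + (y / x) • Dy) (x • Dy))
    (hab : 0 < a ∨ 0 < b) (hμ : 1 ≤ μ) (hμy : 0 < b → μ ≤ ny)
    (hPw : Pw R x y μ (x ^ a * y ^ b * f)) (hPw' : ¬ Pw R x y (μ + 1) (x ^ a * y ^ b * f))
    (hk : k = min μ (a + b)) : ∃ n, (0 < a + b - k → n ≤ μ) ∧
      Ms p W (vl W (adj R (y / x))) x (y / x) (Dx + (y / x) • Dy) (x • Dy) f (a + b - k) b n
        (ny - k) := by
  have hec := h.lr.ec
  have hx0 := hec.x0
  have hP := h.lr.pt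
  have hk1 : 1 ≤ k := by omega
  have hkμ : k ≤ μ := by omega
  have hkab : k ≤ a + b := by omega
  set t := y / x with htd
  have hyt : y = x * t := by rw [htd, mul_div_cancel₀ _ hx0]
  set S := adj R t with hS
  set R' := vl W S with hR'
  have hRS : R ≤ S := le_adj
  have hSR : S ≤ R' := le_vl
  have hWS : Vle W S := vle_adj.mpr ⟨hP.le, ht.le⟩
  set u := x ^ a * y ^ b * f with hu
  have hu1 : u / x ^ k ∈ S := u_mem hec hPw hkμ
  have hnew : x ^ (a + b - k) * t ^ b * f = u / x ^ k := new_u hx0 hkab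
  obtain ⟨ph, hph⟩ := exists_ph hec hP ht.le
  obtain ⟨c, hc, hbf⟩ := h.bf
  -- the order on the exceptional curve
  obtain ⟨n, hn, hox⟩ : ∃ n, (0 < a + b - k → n ≤ μ) ∧ (0 < a + b - k → ∃ s, IsU R' s ∧
      Mul R' x (u / x ^ k - t ^ n * s)) := by
    by_cases ha' : 0 < a + b - k
    · have hkμ' : k = μ := by omega
      obtain ⟨h1, h2, h3⟩ := lead hec hP ht.le hph h.hu hPw hPw'
      rw [← hkμ'] at h1 h2 h3
      have h4 : ¬ Mul R' x (u / x ^ k) := fun h5 =>
        h2 (hph.zero_of_mul hWS (hRS hec.hx) h1 h5)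
      obtain ⟨n, s, hs, h5⟩ := hlr.dvr (hSR h1) h4
      refine ⟨n, fun _ => ?_, fun _ => ⟨s, hs, h5⟩⟩
      have h6 := hph.le_deg hWS hP.vx (hRS hec.hx) h1 mem_adj ht h2 hs.2.1 h5
      omega
    · exact ⟨0, fun h1 => absurd h1 ha', fun h1 => absurd h1 ha'⟩
  refine ⟨n, hn, hlr, ⟨c, hSR (hRS hc), by rw [pr_blow hec, hbf]⟩, ?_, fun ha' => ?_, fun hb => ?_⟩
  · rw [hnew]; exact hSR hu1
  · rw [hnew]; exact hox ha'
  · rw [hnew]
    obtain ⟨s, hs, v, hv, h1⟩ := h.oy hb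
    refine ⟨s, hs.mono (hRS.trans hSR), ?_⟩
    have hkn : k ≤ ny := hkμ.trans (hμy hb)
    have hmem : u / x ^ k - x ^ (ny - k) * s ∈ R' := R'.sub_mem (hSR hu1)
      (R'.mul_mem (R'.pow_mem (hSR (hRS hec.hx)) _) (hSR (hRS hs.2.1)))
    refine hlr.swap.mul_cancel (j := k - 1) hmem ⟨v, hSR (hRS hv), ?_⟩
    have h2 : x ^ k = x * x ^ (k - 1) := by rw [← pow_succ']; congr 1; omega
    have h3 : x ^ ny = x ^ k * x ^ (ny - k) := by rw [← pow_add]; congr 1; omega
    apply mul_left_cancel₀ hx0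
    have h4 : x * (x ^ (k - 1) * (u / x ^ k - x ^ (ny - k) * s)) = u - x ^ ny * s := by
      rw [h3, mul_sub, mul_sub, h2]
      field_simp
    rw [h4, h1, hyt]
    ring

/-- The exceptional case of the measure does not occur. -/
theorem Ms.no_exc (h : Ms p W R x y Dx Dy f a b nx ny) (ha : a = 0) (hb : 2 ≤ b)
    (hny : ny = 2) (hPw : Pw R x y 1 (x ^ a * y ^ b * f))
    (hPw' : ¬ Pw R x y 2 (x ^ a * y ^ b * f)) : (b - 1 + b) % p ≠ 1 := by
  intro hmod
  subst ha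
  subst hny
  have hec := h.lr.ec
  have hx0 := hec.x0
  have hy0 := hec.y0
  have hp2 := hp.out.two_le
  obtain ⟨c, hc, hbf⟩ := h.bf
  obtain ⟨s, hs, v, hv, hoy⟩ := h.oy (by omega)
  rw [pow_zero, one_mul] at hPw hPw' hoy
  -- the exponent
  have hdvd : p ∣ 2 * (b - 1) := by
    have h1 : b - 1 + b = 2 * (b - 1) + 1 := by omega
    rw [h1] at hmod
    rcases Nat.lt_or_ge 1 p with h2 | h2
    · have h3 : (2 * (b - 1) + 1) % p = 1 % p := by rw [hmod, Nat.mod_eq_of_lt h2]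
      exact (Nat.modEq_zero_iff_dvd).mp (Nat.ModEq.add_right_cancel' 1 (by
        rw [Nat.ModEq, h3, zero_add]))
    · omega
  have hb1 : p ∣ b - 1 := by
    by_contra hcon
    have h1 : p ∣ 2 := ((hp.out.dvd_mul).mp hdvd).resolve_right hcon
    have h2 : p = 2 := le_antisymm (Nat.le_of_dvd (by norm_num) h1) hp2
    subst h2
    have h3 : 2 ∣ b := by omega
    have h4 := h.swap.bfn (by omega) h3
    apply h4
    rw [Nat.cast_zero]
    exact (CharP.cast_eq_zero_iff F 2 2).mpr dvd_rfl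
  -- the linear form
  obtain ⟨g, hg, hu⟩ := id hPw
  rw [Finset.sum_range_succ, Finset.sum_range_one] at hu
  have hu' : y ^ b * f = g 0 * x + g 1 * y := by
    rw [hu]; ring
  have hg0 : Mul R y (g 0 - x * s) := by
    have h1 : Mul R y (x ^ 1 * (g 0 - x * s)) := by
      refine ⟨v - g 1, R.sub_mem hv (hg 1), ?_⟩
      rw [hu'] at hoy
      linear_combination hoy
    exact h.lr.swap.mul_cancel (R.sub_mem (hg 0) (R.mul_mem hec.hx hs.2.1)) h1
  obtain ⟨w, hw, h1⟩ := hg0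
  have hg0' : g 0 = x * s + y * w := by rw [← h1]; ring
  have hg1 : IsU R (g 1) := by
    refine h.lr.isU (hg 1) (le_antisymm (h.lr.loc.le _ (hg 1)) (not_lt.mp fun h2 => hPw' ?_))
    have e0 : Pw R x y 1 (g 0 * x) := by
      rw [mul_comm]
      have := (Pw.mon (B := R) (x := x) (y := y) (n := 1) (i := 0) (by omega)).smul (hg 0)
      simpa [mul_comm] using this
    have e1 : Pw R x y 2 (g 0 * x) := by
      have h3 : g 0 ∈ mm R x y := mem_mm.mpr ⟨s, hs.2.1, w, hw, hg0'⟩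
      have h4 := (Pw.mon (B := R) (x := x) (y := y) (n := 1) (i := 0) (by omega)).succ h3
      simpa using h4
    have e2 : Pw R x y 2 (g 1 * y) := by
      have h3 : g 1 ∈ mm R x y := h.lr.pt.mem_mm (hg 1) h2
      have h4 := (Pw.mon (B := R) (x := x) (y := y) (n := 1) (i := 1) (by omega)).succ h3
      simpa using h4
    rw [hu']
    exact e1.add e2
  -- the projection
  have e1 : pr p x y Dx Dy (y ^ (b - 1) * f) = y ^ (b - 1) * c ^ p := by
    obtain ⟨l, hl⟩ := hb1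
    rw [hl, mul_comm p l, pow_mul, pr_pow_mul, hbf]
  have e2 : y ^ (b - 1) * f = x ^ (2 : ℤ) * y ^ (-1 : ℤ) * s + x * w + g 1 := by
    have h2 : y ^ b = y * y ^ (b - 1) := by rw [← pow_succ']; congr 1; omega
    rw [h2, hg0'] at hu'
    apply mul_left_cancel₀ hy0
    rw [zpow_neg, zpow_one, zpow_ofNat]
    field_simp
    linear_combination hu'
  obtain ⟨s', hs', e3⟩ := pr_mul hec (i := 2) (j := -1) (w := x ^ (2 : ℤ) * y ^ (-1 : ℤ) * s)
    ⟨s, hs.2.1, rfl⟩
  obtain ⟨w', hw', e4⟩ := pr_mul hec (i := 1) (j := 0) (w := x * w) ⟨w, hw, by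
    rw [zpow_one, zpow_zero, mul_one]⟩
  obtain ⟨r, hr, r', hr', e5⟩ := pr_sub hec (hg 1)
  rw [e2, map_add, map_add, e3, e4, e5, zpow_neg, zpow_one, zpow_ofNat, zpow_one, zpow_zero,
    mul_one] at e1
  have hunit : IsU R (x * w' + (g 1 - x * r - y * r') - y ^ (b - 1) * c ^ p) := by
    refine h.lr.isU (R.sub_mem (R.add_mem (R.mul_mem hec.hx hw') (R.sub_mem (R.sub_mem (hg 1)
      (R.mul_mem hec.hx hr)) (R.mul_mem hec.hy hr'))) (R.mul_mem (R.pow_mem hec.hy _)
      (R.pow_mem hc _))) ?_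
    have h2 : y ^ (b - 1) = y * y ^ (b - 2) := by rw [← pow_succ']; congr 1; omega
    have h3 : x * w' + (g 1 - x * r - y * r') - y ^ (b - 1) * c ^ p =
        g 1 - (x * (r - w') + y * (r' + y ^ (b - 2) * c ^ p)) := by rw [h2]; ring
    have h4 : W.valuation (x * (r - w') + y * (r' + y ^ (b - 2) * c ^ p)) < 1 :=
      h.lr.pt.lt (mem_mm.mpr ⟨_, R.sub_mem hr hw', _, R.add_mem hr' (R.mul_mem (R.pow_mem hec.hy _)
        (R.pow_mem hc _)), rfl⟩)
    have h5 := IsU.val h.lr.loc hg1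
    rw [h3, W.valuation.map_sub_eq_of_lt_left (by rw [h5]; exact h4), h5]
  apply lr_not_x h.lr (n := 1) hunit
  refine ⟨-(x * s'), R.neg_mem (R.mul_mem hec.hx hs'), ?_⟩
  field_simp at e1
  rw [pow_one]
  linear_combination e1

end T1

end Pool.Agent.H96.X
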