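import Pool.Agent.H96.X.Trn2

/-!
# The data at the other points of the exceptional curve
-/

set_option autoImplicit false
set_option linter.unusedSectionVars false

namespace Pool.Agent.H96.X

open Polynomial IsLocalRing Pool.Agent.H96.S Pool.Agent.H96.VL Pool.Agent.H96.Reg
  Pool.Agent.H96.W

section Poly

variable {k : Type} [Field k]

theorem coeff_euler (P : k[X]) (b : k) (i : ℕ) :
    (X * derivative P - C b * P).coeff i = ((i : k) - b) * P.coeff i := by
  rw [coeff_sub, coeff_C_mul]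
  cases i with
  | zero => rw [mul_comm X, coeff_mul_X_zero, Nat.cast_zero]; ring
  | succ i => rw [mul_comm X, coeff_mul_X, coeff_derivative]; push_cast; ring

theorem deg_euler {P : k[X]} {b : k} {μ : ℕ} (hP : P.natDegree ≤ μ) :
    (X * derivative P - C b * P).natDegree ≤ μ := by
  rw [natDegree_le_iff_coeff_eq_zero]
  intro i hi
  rw [coeff_euler, coeff_eq_zero_of_natDegree_lt (by omega), mul_zero]

theorem deg_euler' {P : k[X]} {b : k} {μ : ℕ} (hP : P.natDegree ≤ μ) (hb : (μ : k) = b)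
    (h0 : X * derivative P - C b * P ≠ 0) :
    (X * derivative P - C b * P).natDegree + 1 ≤ μ := by
  by_contra hcon
  have h1 := deg_euler (b := b) hP
  have h2 : (X * derivative P - C b * P).natDegree = μ := by omega
  have h3 : (X * derivative P - C b * P).coeff μ ≠ 0 := by
    rw [← h2]
    exact leadingCoeff_ne_zero.mpr h0
  apply h3
  rw [coeff_euler, hb, sub_self, zero_mul]

end Poly

section T2

variable {p : ℕ} [hp : Fact p.Prime] {F : Type} [Field F] [CharP F p] {W : ValuationSubring F}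
  {R : Subring F} {x y : F} {Dx Dy : Derivation ℤ F F} {f : F} {a b nx ny μ k : ℕ}

theorem resv_natCast (W : ValuationSubring F) (n : ℕ) :
    resv W (n : F) = (n : ResidueField W) := by
  have := resv_intCast W (n : ℤ)
  push_cast at this
  exact this

/-- A derivative of the leading form. -/
theorem exists_g {ph : F → (ResidueField W)[X]} (h : EC p R x y Dx Dy)
    (hph : Ph W R x (y / x) (x • Dy) ph) {a' : ℕ} (ha' : 0 < a') (hpa : p ∣ a')
    (hbf : ∃ c ∈ R, pr p x y Dx Dy f = c ^ p)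
    (hu : x ^ a' * (y / x) ^ b * f ∈ adj R (y / x)) (h0 : ph (x ^ a' * (y / x) ^ b * f) ≠ 0)
    (hdeg : (ph (x ^ a' * (y / x) ^ b * f)).natDegree ≤ μ) :
    ∃ g ∈ adj R (y / x), ph g ≠ 0 ∧ (ph g).natDegree ≤ μ ∧
      ((b : F) = (μ : F) ∨ b = 0 → (ph g).natDegree + 1 ≤ μ) ∧
      ∃ e ∈ adj R (y / x), g = e * (x • Dy) (x ^ a' * f) := by
  have hx0 := h.x0
  have h1 := ph_ne h hph ha' hpa hbf hu h0
  set t := y / x with htd
  have ht0 : t ≠ 0 := div_ne_zero h.y0 hx0
  set S := adj R t with hS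
  set D : Derivation ℤ F F := x • Dy with hD
  set u := x ^ a' * t ^ b * f with hu'
  have hb : EC p S x t (Dx + t • Dy) D := h.blow
  have hg : t * D u - b * u ∈ S := S.sub_mem (S.mul_mem mem_adj (hph.der u hu).1)
    (S.mul_mem (natCast_mem _ _) hu)
  have e1 : ph (t * D u - b * u) = X * derivative (ph u) - C (resv W (b : F)) * ph u := by
    have h2 : t * D u - b * u = t * D u + ((-(b : ℤ) : ℤ) : F) * u := by push_cast; ring
    have h3 : ((-(b : ℤ) : ℤ) : F) ∈ R := intCast_mem _ _
    rw [h2, hph.add _ (S.mul_mem mem_adj (hph.der u hu).1) _ (S.mul_mem (le_adj h3) hu),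
      hph.mul _ mem_adj _ (hph.der u hu).1, hph.pt, (hph.der u hu).2, hph.mul _ (le_adj h3) _ hu,
      hph.co _ h3, resv_intCast, resv_natCast]
    push_cast
    rw [map_neg]
    ring
  rcases Nat.eq_zero_or_pos b with hb0 | hb0
  · refine ⟨D u, (hph.der u hu).1, ?_, ?_, ?_, 1, S.one_mem, ?_⟩
    · rw [(hph.der u hu).2]
      intro h2
      apply h1
      rw [e1, h2, hb0, Nat.cast_zero, resv_zero, map_zero]
      ring
    · rw [(hph.der u hu).2]
      exact (natDegree_derivative_le _).trans (by omega)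
    · intro _
      rw [(hph.der u hu).2]
      have h2 : (ph u).natDegree ≠ 0 := by
        intro h2
        apply h1
        rw [e1, hb0, Nat.cast_zero, resv_zero, map_zero, zero_mul, sub_zero,
          eq_C_of_natDegree_eq_zero h2, derivative_C, mul_zero]
      have := natDegree_derivative_lt h2
      omega
    · rw [one_mul, hu', hb0, pow_zero, mul_one]
  · refine ⟨t * D u - b * u, hg, h1, ?_, ?_, t ^ (b + 1), S.pow_mem mem_adj _, ?_⟩
    · rw [e1]
      exact deg_euler hdeg
    · intro h2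
      have h3 : (b : F) = (μ : F) := h2.resolve_right (by omega)
      rw [e1] at h1 ⊢
      refine deg_euler' hdeg ?_ h1
      rw [h3, resv_natCast]
    · have h2 : D u = b * t ^ (b - 1) * (x ^ a' * f) + t ^ b * D (x ^ a' * f) := by
        have h3 : u = t ^ b * (x ^ a' * f) := by rw [hu']; ring
        rw [h3, Derivation.leibniz, Derivation.leibniz_pow, hb.yy, nsmul_eq_mul, smul_eq_mul,
          smul_eq_mul, smul_eq_mul, mul_one]
        ring
      have h4 : t ^ b = t * t ^ (b - 1) := by rw [← pow_succ']; congr 1; omega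
      rw [h2, hu', pow_succ, h4]
      ring

/-- **The data at the other points.** -/
theorem Ms.t2 (h : Ms p W R x y Dx Dy f a b nx ny) (ht : W.valuation (y / x) ≤ 1)
    (htb : b = 0 ∨ W.valuation (y / x) = 1) {y' : F} (hy' : y' ∈ adj R (y / x))
    (hlr : Lr p W (vl W (adj R (y / x))) x y' (Dx + (y / x) • Dy) (x • Dy))
    (hab : 0 < a ∨ 0 < b) (hμ : 1 ≤ μ)
    (hPw : Pw R x y μ (x ^ a * y ^ b * f)) (hPw' : ¬ Pw R x y (μ + 1) (x ^ a * y ^ b * f))
    (hk : k = min μ (a + b)) : ∃ r, x ^ ((a + b - k) / p) * r ∈ vl W (adj R (y / x)) ∧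
      ∃ n, (0 < a + b - k → n ≤ μ + 1) ∧
      (0 < a + b - k → ¬ p ∣ a + b - k ∨ a = 0 ∨ b = 0 → n ≤ μ) ∧
      Ms p W (vl W (adj R (y / x))) x y' (Dx + (y / x) • Dy) (x • Dy) (f - r ^ p + r)
        (a + b - k) 0 n 0 := by
  have hec := h.lr.ec
  have hx0 := hec.x0
  have hP := h.lr.pt
  have hk1 : 1 ≤ k := by omega
  have hkμ : k ≤ μ := by omega
  have hkab : k ≤ a + b := by omega
  obtain ⟨ph, hph⟩ := exists_ph hec hP ht
  have hnew0 : x ^ (a + b - k) * (y / x) ^ b * f = x ^ a * y ^ b * f / x ^ k := new_u hx0 hkab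
  have hu1 : x ^ a * y ^ b * f / x ^ k ∈ adj R (y / x) := u_mem hec hPw hkμ
  set a' := a + b - k with ha'd
  have hexg : 0 < a' → p ∣ a' → _ := fun ha' hpa => exists_g (b := b) (μ := μ) hec hph ha' hpa h.bf
    (by rw [hnew0]; exact hu1) (by
      have hkμ' : k = μ := by omega
      rw [hnew0, hkμ']
      exact (lead hec hP ht hph h.hu hPw hPw').2.1) (by
      have hkμ' : k = μ := by omega
      rw [hnew0, hkμ']
      exact (lead hec hP ht hph h.hu hPw hPw').2.2)
  have hlead : 0 < a' → ph (x ^ a * y ^ b * f / x ^ k) ≠ 0 ∧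
      (ph (x ^ a * y ^ b * f / x ^ k)).natDegree ≤ μ := by
    intro ha'
    have hkμ' : k = μ := by omega
    rw [hkμ']
    exact (lead hec hP ht hph h.hu hPw hPw').2
  set t := y / x with htd
  have ht0 : t ≠ 0 := div_ne_zero hec.y0 hx0
  set S := adj R t with hS
  set R' := vl W S with hR'
  have hRS : R ≤ S := le_adj
  have hSR : S ≤ R' := le_vl
  have hWS : Vle W S := vle_adj.mpr ⟨hP.le, ht⟩
  have hxR : x ∈ R' := hSR (hRS hec.hx)
  have htR : t ∈ R' := hSR mem_adj
  have htb' : (t ^ b)⁻¹ ∈ R' := by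
    rcases htb with h1 | h1
    · rw [h1, pow_zero, inv_one]; exact R'.one_mem
    · rw [← inv_pow]
      exact R'.pow_mem (hlr.loc.inv _ htR h1) _
  set u := x ^ a * y ^ b * f / x ^ k with hu
  have hxf : x ^ a' * f ∈ R' := by
    have h1 : x ^ a' * f = (t ^ b)⁻¹ * u := by
      rw [← hnew0]
      field_simp
    rw [h1]
    exact R'.mul_mem htb' (hSR hu1)
  obtain ⟨r, hr, c', hc', hbf'⟩ := exists_best hlr.ec a' a' 0 f le_rfl (by
    rw [pow_zero, mul_one]; exact hxf)
  rw [Nat.zero_div, pow_zero, mul_one] at hr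
  have hp2 := hp.out.two_le
  have hrp : x ^ a' * r ^ p = x ^ (a' % p) * (x ^ (a' / p) * r) ^ p := by
    have e1 : x ^ a' = x ^ (a' % p) * (x ^ (a' / p)) ^ p := by
      rw [← pow_mul, ← pow_add, mul_comm (a' / p), Nat.mod_add_div]
    rw [e1]; ring
  have hle : a' / p ≤ a' := Nat.div_le_self _ _
  have hr1 : x ^ a' * r = x ^ (a' - a' / p) * (x ^ (a' / p) * r) := by
    have e1 : x ^ a' = x ^ (a' - a' / p) * x ^ (a' / p) := by rw [← pow_add]; congr 1; omega
    rw [e1]; ring
  set D : Derivation ℤ F F := x • Dy with hD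
  have hDx : D x = 0 := hlr.ec.yx
  have hDR : ∀ v ∈ R', D v ∈ R' := hlr.ec.dy
  have hDmul : ∀ {v : F}, Mul R' x v → Mul R' x (D v) := by
    rintro v ⟨w, hw, rfl⟩
    refine ⟨D w, hDR w hw, ?_⟩
    rw [Derivation.leibniz, hDx, smul_zero, add_zero, smul_eq_mul]
  have hu2 : x ^ a' * (f - r ^ p + r) = x ^ a' * f - x ^ a' * r ^ p + x ^ a' * r := by ring
  have hu2R : x ^ a' * (f - r ^ p + r) ∈ R' := by
    rw [hu2, hrp, hr1]
    exact R'.add_mem (R'.sub_mem hxf (R'.mul_mem (R'.pow_mem hxR _) (R'.pow_mem hr _)))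
      (R'.mul_mem (R'.pow_mem hxR _) hr)
  have hmr : 0 < a' → Mul R' x (x ^ a' * r) := by
    intro ha'
    have h1 : a' / p < a' := Nat.div_lt_self ha' hp2
    rw [hr1]
    refine ⟨x ^ (a' - a' / p - 1) * (x ^ (a' / p) * r), R'.mul_mem (R'.pow_mem hxR _) hr, ?_⟩
    have h2 : x ^ (a' - a' / p) = x * x ^ (a' - a' / p - 1) := by
      rw [← pow_succ']; congr 1; omega
    rw [h2]; ring
  -- the order
  obtain ⟨n, hn1, hn2, hox⟩ : ∃ n, (0 < a' → n ≤ μ + 1) ∧
      (0 < a' → ¬ p ∣ a' ∨ a = 0 ∨ b = 0 → n ≤ μ) ∧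
      (0 < a' → ∃ s, IsU R' s ∧ Mul R' x (x ^ a' * (f - r ^ p + r) - y' ^ n * s)) := by
    by_cases ha' : 0 < a'
    swap
    · exact ⟨0, fun h1 => absurd h1 ha', fun h1 => absurd h1 ha', fun h1 => absurd h1 ha'⟩
    obtain ⟨hu0, hudeg⟩ := hlead ha'
    by_cases hpa : p ∣ a'
    · obtain ⟨g, hg, hg0, hgd, hgd', e, he, hge⟩ := hexg ha' hpa
      clear hexg
      have hDr : D (x ^ a' * r ^ p) = 0 := by
        rw [hrp, Derivation.leibniz, der_pow, Derivation.leibniz_pow, hDx]
        simp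
      have hDd : ∀ {v : F}, Mul R' x (D (x ^ a' * (f - r ^ p + r)) - v) →
          Mul R' x (D (x ^ a' * f) - v) := by
        intro v hv
        have h1 := hv.sub (hDmul (hmr ha'))
        have h2 : D (x ^ a' * (f - r ^ p + r)) - v - D (x ^ a' * r) = D (x ^ a' * f) - v := by
          rw [hu2, map_add, map_sub, hDr]; ring
        rwa [h2] at h1
      have h1 : ¬ Mul R' x (x ^ a' * (f - r ^ p + r)) := by
        intro h1
        apply hg0
        refine hph.zero_of_mul hWS (hRS hec.hx) hg ?_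
        have h2 := hDd (v := 0) (by rw [sub_zero]; exact hDmul h1)
        rw [sub_zero] at h2
        rw [hge]
        exact h2.smul (hSR he)
      obtain ⟨n, s, hs, h2⟩ := hlr.dvr hu2R h1
      have hdeg : n ≤ (ph g).natDegree + 1 := by
        rcases Nat.eq_zero_or_pos n with hn | hn
        · omega
        have h3 : Mul R' x (D (x ^ a' * (f - r ^ p + r)) -
            y' ^ (n - 1) * (n * s + y' * D s)) := by
          have h4 := hDmul h2
          have h5 : D (x ^ a' * (f - r ^ p + r) - y' ^ n * s) =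
              D (x ^ a' * (f - r ^ p + r)) - y' ^ (n - 1) * (n * s + y' * D s) := by
            have h6 : y' ^ n = y' * y' ^ (n - 1) := by rw [← pow_succ']; congr 1; omega
            have h7 : D (y' ^ n * s) = y' ^ (n - 1) * (n * s + y' * D s) := by
              rw [Derivation.leibniz, Derivation.leibniz_pow, hlr.ec.yy, nsmul_eq_mul,
                smul_eq_mul, smul_eq_mul, smul_eq_mul, mul_one, h6]
              ring
            rw [map_sub, h7]
          rwa [h5] at h4
        obtain ⟨v, hv, h4⟩ := hDd h3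
        have h5 : Mul R' x (g - y' ^ (n - 1) * (e * (n * s + y' * D s))) := by
          refine ⟨e * v, R'.mul_mem (hSR he) hv, ?_⟩
          rw [hge]
          linear_combination e * h4
        have h6 := hph.le_deg hWS hP.vx (hRS hec.hx) hg hy' hlr.pt.vy hg0 (R'.mul_mem (hSR he)
          (R'.add_mem (R'.mul_mem (natCast_mem _ _) hs.2.1) (R'.mul_mem (hSR hy')
          (hDR s hs.2.1)))) h5
        omega
      refine ⟨n, fun _ => by omega, fun _ h3 => ?_, fun _ => ⟨s, hs, h2⟩⟩
      have h4 : (b : F) = (μ : F) ∨ b = 0 := by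
        rcases h3 with h3 | h3 | h3
        · exact absurd hpa h3
        · left
          have hkμ' : k = μ := by omega
          have h6 : a' = b - μ := by omega
          have h7 : μ ≤ b := by omega
          rw [h6] at hpa
          have h8 : (((b - μ : ℕ)) : F) = 0 := (CharP.cast_eq_zero_iff F p _).mpr hpa
          rw [← Nat.sub_add_cancel h7, Nat.cast_add, h8, zero_add]
        · exact Or.inr h3
      have := hgd' h4
      omega
    · have hpow : Mul R' x (x ^ a' * r ^ p) := by
        rw [hrp]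
        have h1 : a' % p ≠ 0 := fun h1 => hpa (Nat.dvd_of_mod_eq_zero h1)
        refine ⟨x ^ (a' % p - 1) * (x ^ (a' / p) * r) ^ p, R'.mul_mem (R'.pow_mem hxR _)
          (R'.pow_mem hr _), ?_⟩
        have h2 : x ^ (a' % p) = x * x ^ (a' % p - 1) := by rw [← pow_succ']; congr 1; omega
        rw [h2]; ring
      have hd : ∀ {v : F}, Mul R' x (x ^ a' * (f - r ^ p + r) - v) →
          Mul R' x (u - v * t ^ b) := by
        intro v hv
        have h1 := (hv.add hpow).sub (hmr ha')
        have h2 : x ^ a' * (f - r ^ p + r) - v + x ^ a' * r ^ p - x ^ a' * r =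
            x ^ a' * f - v := by ring
        rw [h2] at h1
        have h3 := h1.smul (R'.pow_mem htR b)
        have h4 : t ^ b * (x ^ a' * f - v) = u - v * t ^ b := by
          rw [← hnew0]; ring
        rwa [h4] at h3
      have h1 : ¬ Mul R' x (x ^ a' * (f - r ^ p + r)) := by
        intro h1
        apply hu0
        refine hph.zero_of_mul hWS (hRS hec.hx) hu1 ?_
        have h2 := hd (v := 0) (by rw [sub_zero]; exact h1)
        rwa [zero_mul, sub_zero] at h2
      obtain ⟨n, s, hs, h2⟩ := hlr.dvr hu2R h1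
      have h3 := hd h2
      have h4 : u - y' ^ n * s * t ^ b = u - y' ^ n * (s * t ^ b) := by ring
      rw [h4] at h3
      have h5 := hph.le_deg hWS hP.vx (hRS hec.hx) hu1 hy' hlr.pt.vy hu0 (R'.mul_mem hs.2.1
        (R'.pow_mem htR b)) h3
      exact ⟨n, fun _ => by omega, fun _ _ => by omega, fun _ => ⟨s, hs, h2⟩⟩
  refine ⟨r, hr, n, hn1, hn2, hlr, ⟨c', hc', hbf'⟩, ?_, fun ha' => ?_,
    fun h1 => absurd h1 (lt_irrefl 0)⟩
  · rw [pow_zero, mul_one]; exact hu2R
  · rw [pow_zero, mul_one]; exact hox ha'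

end T2

end Pool.Agent.H96.X
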